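import Pool.Agent.H49.SG.Defs
import Pool.Agent.H81.LP.ThetaFE

/-!
# Module ACT: the averaging group

`w (up u) = (-(∑ u)/2, -(∑ u)/2, u_1, …, u_n)`: `w` adds the coordinate `-(∑ (up u))`, and
`∑ (up u) = -(∑ u)/2 + ∑ u = (∑ u)/2`.  All the rest is direct (`feM_gv`, `feM_inv_gv` in
`Pool/Agent/H81/LP/ThetaFE.lean` are the models for `actM_gv`, `actM_inv_gv`; `w_sum`, `w_neg`, `w_add` of
that file may be cited).
`fq_bound`: every monomial `X^a Y^b exp (-(X+Y)/2)` is bounded for `X, Y ≥ 0`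
(`x^k exp (-x/2) ≤ C_k`), `X + Y ≤ π ∑ v_i²`.
-/

namespace H49.SG

open MeasureTheory H81.LP

theorem sum_up {n : ℕ} (u : Fin n → ℝ) : ∑ i, up u i = (∑ i, u i) / 2 := by
  rw [Fin.sum_univ_succ]
  simp only [up, Fin.cons_zero, Fin.cons_succ]
  ring

theorem w_up_zero {n : ℕ} (u : Fin n → ℝ) : w (up u) 0 = -(∑ i, u i) / 2 := by
  have h : w (up u) 0 = -(∑ i, up u i) := rfl
  rw [h, sum_up]
  ring

theorem w_up_one {n : ℕ} (u : Fin n → ℝ) : w (up u) 1 = -(∑ i, u i) / 2 := rfl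

theorem w_up_succ {n : ℕ} (u : Fin n → ℝ) (i : Fin n) : w (up u) i.succ.succ = u i := rfl

theorem act_zero_apply {n : ℕ} (u : Fin n → ℝ) (v : Fin (n + 1 + 1) → ℝ) :
    act u v 0 = Real.exp (-(∑ i, u i) / 2) * v 0 := by
  unfold act
  rw [w_up_zero]

theorem act_one_apply {n : ℕ} (u : Fin n → ℝ) (v : Fin (n + 1 + 1) → ℝ) :
    act u v 1 = Real.exp (-(∑ i, u i) / 2) * v 1 := by
  unfold act
  rw [w_up_one]

theorem act_succ_apply {n : ℕ} (u : Fin n → ℝ) (v : Fin (n + 1 + 1) → ℝ) (i : Fin n) :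
    act u v i.succ.succ = Real.exp (u i) * v i.succ.succ := by
  unfold act
  rw [w_up_succ]

theorem up_neg {n : ℕ} (u : Fin n → ℝ) : up (-u) = -(up u) := by
  funext i
  refine Fin.cases ?_ (fun j => ?_) i
  · simp only [up, Fin.cons_zero, Pi.neg_apply, Finset.sum_neg_distrib]
    ring
  · simp only [up, Fin.cons_succ, Pi.neg_apply]

theorem act_zero {n : ℕ} (u : Fin n → ℝ) : act u (0 : Fin (n + 1 + 1) → ℝ) = 0 := by
  funext i
  simp [act]

theorem act_continuous {n : ℕ} (v : Fin (n + 1 + 1) → ℝ) :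
    Continuous (fun u : Fin n → ℝ => act u v) := by
  refine continuous_pi fun i => ?_
  refine Fin.cases ?_ (fun j => Fin.cases ?_ (fun k => ?_) j) i
  · simp only [act_zero_apply]
    fun_prop
  · change Continuous fun u : Fin n → ℝ => act u v 1
    simp only [act_one_apply]
    fun_prop
  · simp only [act_succ_apply]
    fun_prop

/-- the square of the norm -/
theorem act_sq {n : ℕ} (u : Fin n → ℝ) (v : Fin (n + 1 + 1) → ℝ) :
    ∑ i, (act u v i) ^ 2 = Real.exp (-∑ i, u i) * (v 0 ^ 2 + v 1 ^ 2) +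
      ∑ i, Real.exp (2 * u i) * (v i.succ.succ) ^ 2 := by
  rw [Fin.sum_univ_succ, Fin.sum_univ_succ]
  have h1 : act u v (Fin.succ 0) = Real.exp (-(∑ i, u i) / 2) * v 1 := act_one_apply u v
  rw [h1, act_zero_apply]
  have h2 : Real.exp (-(∑ i, u i) / 2) ^ 2 = Real.exp (-∑ i, u i) := by
    rw [← Real.exp_nat_mul]
    congr 1
    push_cast
    ring
  have h3 : ∀ i : Fin n, act u v i.succ.succ ^ 2 =
      Real.exp (2 * u i) * (v i.succ.succ) ^ 2 := by
    intro i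
    rw [act_succ_apply, mul_pow, ← Real.exp_nat_mul]
    push_cast
    rfl
  rw [Finset.sum_congr rfl fun i _ => h3 i, mul_pow, mul_pow, h2]
  ring

/-- the theta terms of H81 on the averaging group -/
theorem thTerm_act {n : ℕ} (g : Matrix (Fin (n + 1 + 1)) (Fin (n + 1 + 1)) ℝ) (lam : ℝ)
    (u : Fin n → ℝ) (m : Fin (n + 1 + 1) → ℤ) :
    thTerm g lam (up u) m = Real.exp (-(Real.pi * lam * ∑ i, (act u (gv g m) i) ^ 2)) := by
  unfold thTerm
  congr 2
  congr 1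
  refine Finset.sum_congr rfl fun i _ => ?_
  unfold act
  rw [mul_pow, ← Real.exp_nat_mul]
  push_cast
  rfl

/-- the matrix of the group element times `g` -/
noncomputable def actM {n : ℕ} (u : Fin n → ℝ) (g : Matrix (Fin (n + 1 + 1)) (Fin (n + 1 + 1)) ℝ) :
    Matrix (Fin (n + 1 + 1)) (Fin (n + 1 + 1)) ℝ :=
  Matrix.diagonal (fun i => Real.exp (w (up u) i)) * g

theorem actM_det {n : ℕ} (u : Fin n → ℝ) (g : Matrix (Fin (n + 1 + 1)) (Fin (n + 1 + 1)) ℝ) :
    (actM u g).det = g.det := by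
  unfold actM
  rw [Matrix.det_mul, Matrix.det_diagonal, ← Real.exp_sum, w_sum, Real.exp_zero, one_mul]

theorem actM_gv {n : ℕ} (u : Fin n → ℝ) (g : Matrix (Fin (n + 1 + 1)) (Fin (n + 1 + 1)) ℝ)
    (m : Fin (n + 1 + 1) → ℤ) : gv (actM u g) m = act u (gv g m) := by
  funext i
  unfold gv actM act
  rw [← Matrix.mulVec_mulVec, Matrix.mulVec_diagonal]

theorem actM_inv_gv {n : ℕ} (u : Fin n → ℝ) (g : Matrix (Fin (n + 1 + 1)) (Fin (n + 1 + 1)) ℝ)
    (hg : g.det ≠ 0) (m : Fin (n + 1 + 1) → ℤ) :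
    gv ((actM u g)⁻¹).transpose m = act (-u) (gv (g⁻¹).transpose m) := by
  have hinv : (actM u g)⁻¹ = g⁻¹ * Matrix.diagonal (fun i => (Real.exp (w (up u) i))⁻¹) := by
    apply Matrix.inv_eq_right_inv
    unfold actM
    rw [Matrix.mul_assoc, ← Matrix.mul_assoc g, Matrix.mul_nonsing_inv g (isUnit_iff_ne_zero.2 hg),
      Matrix.one_mul, Matrix.diagonal_mul_diagonal]
    rw [← Matrix.diagonal_one]
    congr 1
    funext i
    exact mul_inv_cancel₀ (Real.exp_pos _).ne'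
  rw [hinv, Matrix.transpose_mul, Matrix.diagonal_transpose]
  funext i
  unfold gv act
  rw [← Matrix.mulVec_mulVec, Matrix.mulVec_diagonal, up_neg, w_neg, Real.exp_neg]

theorem fq_zero {n : ℕ} (K : ℕ) (h : ℕ → ℕ → ℚ) : fq K h (0 : Fin (n + 1 + 1) → ℝ) = h 0 0 := by
  unfold fq qf
  simp only [Pi.zero_apply, ne_eq, OfNat.ofNat_ne_zero, not_false_eq_true, zero_pow, mul_zero,
    Finset.sum_const_zero, neg_zero, Real.exp_zero, mul_one]
  rw [Finset.sum_eq_single 0, Finset.sum_eq_single 0]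
  · simp
  · intro b _ hb
    rw [zero_pow hb, mul_zero]
  · intro h0
    simp at h0
  · intro a _ ha
    refine Finset.sum_eq_zero fun b _ => ?_
    rw [zero_pow ha, mul_zero, zero_mul]
  · intro h0
    simp at h0

theorem fq_continuous {n : ℕ} (K : ℕ) (h : ℕ → ℕ → ℚ) :
    Continuous (fun v : Fin (n + 1 + 1) → ℝ => fq K h v) := by
  unfold fq qf
  fun_prop

theorem fq_bound (n K : ℕ) (h : ℕ → ℕ → ℚ) : ∃ C : ℝ, 0 ≤ C ∧ ∀ v : Fin (n + 1 + 1) → ℝ,
    |fq K h v| ≤ C * Real.exp (-(Real.pi / 2 * ∑ i, v i ^ 2)) := by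
  have hpow : ∀ (k : ℕ) (x : ℝ), 0 ≤ x → x ^ k ≤ (2 ^ k * k.factorial) * Real.exp (x / 2) := by
    intro k x hx
    have h1 := Real.pow_div_factorial_le_exp (x / 2) (by linarith) k
    rw [div_le_iff₀ (by positivity), div_pow, div_le_iff₀ (by positivity)] at h1
    linarith
  refine ⟨∑ a ∈ Finset.range (K + 1), ∑ b ∈ Finset.range (K + 1),
    |(h a b : ℝ)| * (2 ^ a * a.factorial) * (2 ^ b * b.factorial), by positivity, ?_⟩
  intro v
  set X : ℝ := Real.pi * v 0 ^ 2 with hX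
  set Y : ℝ := Real.pi * v 1 ^ 2 with hY
  have hX0 : 0 ≤ X := by positivity
  have hY0 : 0 ≤ Y := by positivity
  have hq : |qf K h X Y| ≤ (∑ a ∈ Finset.range (K + 1), ∑ b ∈ Finset.range (K + 1),
      |(h a b : ℝ)| * (2 ^ a * a.factorial) * (2 ^ b * b.factorial)) *
        Real.exp (X / 2 + Y / 2) := by
    unfold qf
    refine (Finset.abs_sum_le_sum_abs _ _).trans ?_
    rw [Finset.sum_mul]
    refine Finset.sum_le_sum fun a _ => ?_
    refine (Finset.abs_sum_le_sum_abs _ _).trans ?_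
    rw [Finset.sum_mul]
    refine Finset.sum_le_sum fun b _ => ?_
    rw [abs_mul, abs_mul, abs_of_nonneg (pow_nonneg hX0 a), abs_of_nonneg (pow_nonneg hY0 b),
      Real.exp_add]
    have h1 := hpow a X hX0
    have h2 := hpow b Y hY0
    have h3 : X ^ a * Y ^ b ≤ ((2 ^ a * a.factorial) * Real.exp (X / 2)) *
        ((2 ^ b * b.factorial) * Real.exp (Y / 2)) :=
      mul_le_mul h1 h2 (pow_nonneg hY0 b) (by positivity)
    have h4 := mul_le_mul_of_nonneg_left h3 (abs_nonneg (h a b : ℝ))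
    linarith
  have hs : v 0 ^ 2 + v 1 ^ 2 ≤ ∑ i, v i ^ 2 := by
    rw [Fin.sum_univ_succ, Fin.sum_univ_succ]
    have h1 : v (Fin.succ 0) = v 1 := rfl
    rw [h1]
    have h2 : 0 ≤ ∑ i : Fin n, v i.succ.succ ^ 2 := Finset.sum_nonneg fun i _ => sq_nonneg _
    linarith
  have he : X / 2 + Y / 2 - Real.pi * ∑ i, v i ^ 2 ≤ -(Real.pi / 2 * ∑ i, v i ^ 2) := by
    have h1 := mul_le_mul_of_nonneg_left hs (by positivity : (0 : ℝ) ≤ Real.pi / 2)
    rw [hX, hY]
    linarith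
  have hC : 0 ≤ ∑ a ∈ Finset.range (K + 1), ∑ b ∈ Finset.range (K + 1),
    |(h a b : ℝ)| * (2 ^ a * a.factorial) * (2 ^ b * b.factorial) := by positivity
  unfold fq
  rw [abs_mul, abs_of_pos (Real.exp_pos _)]
  calc |qf K h X Y| * Real.exp (-(Real.pi * ∑ i, v i ^ 2))
      ≤ ((∑ a ∈ Finset.range (K + 1), ∑ b ∈ Finset.range (K + 1),
        |(h a b : ℝ)| * (2 ^ a * a.factorial) * (2 ^ b * b.factorial)) *
          Real.exp (X / 2 + Y / 2)) * Real.exp (-(Real.pi * ∑ i, v i ^ 2)) :=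
        mul_le_mul_of_nonneg_right hq (Real.exp_pos _).le
    _ = (∑ a ∈ Finset.range (K + 1), ∑ b ∈ Finset.range (K + 1),
        |(h a b : ℝ)| * (2 ^ a * a.factorial) * (2 ^ b * b.factorial)) *
          Real.exp (X / 2 + Y / 2 - Real.pi * ∑ i, v i ^ 2) := by
        rw [mul_assoc, ← Real.exp_add, ← sub_eq_add_neg]
    _ ≤ _ := mul_le_mul_of_nonneg_left (Real.exp_le_exp.2 he) hC

end H49.SG
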