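import Pool.Agent.H49.SG.Defs
import Pool.Agent.H81.LP.EnK

/-!
# Module GE1: the energy `E1`

Parallel to `Pool/Agent/H81/LP/EnK.lean`, with `E1 u = exp (-∑ u_i) + ∑ exp (2 u_i)` in place of
`En u = exp (-2 ∑ u_i) + ∑ exp (2 u_i)`.  `EnK_integrable_exp_neg_sum` of that file may be cited.

* `E1_ge_one`: if `∑ u_i ≤ 0` the first term is at least `1`, otherwise some `u_i > 0` and
  `exp (2 u_i) ≥ 1`.
* `E1_growth`: `L = log (E1 u) ≥ 0`; every term is at most `exp L`, so `2 u_i ≤ L` and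
  `-∑ u_j ≤ L`; hence `u_i ≤ (n+1) L` and
  `u_i = ∑ u_j - ∑_{j ≠ i} u_j ≥ -L - (n-1) L/2 ≥ -(n+1) L`, so
  `∑ |u_i| ≤ n (n+1) L ≤ (n+1)² L`.
* `E1_integrable`: as `En_integrable`.
* `E1_box`: `-∑ u_i ≤ n`, `2 u_i ≤ 2`.
* `E1_polar`: let `κ = x_0² + x_1²`, `z_i = |x_(i+2)| > 0`, `Q = κ ∏ z_i > 0`, `T = Q^(2/(n+2))`,
  `β_i = (log T)/2 - log z_i`.  Then `exp (2 (v_i + β_i)) z_i² = T exp (2 v_i)` and
  `exp (-∑ (v_i + β_i)) κ = exp (-∑ v_i) T^(-n/2) (∏ z_i) κ = exp (-∑ v_i) T^(-n/2) Q = T exp (-∑ v_i)`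
  because `Q = T^((n+2)/2)`.
-/

namespace H49.SG

open MeasureTheory H81.LP

theorem E1_ge_one {n : ℕ} (u : Fin n → ℝ) : 1 ≤ E1 u := by
  unfold E1
  rcases le_or_gt (∑ i, u i) 0 with h | h
  · have h1 : 1 ≤ Real.exp (-∑ i, u i) := Real.one_le_exp (by linarith)
    have h2 : 0 ≤ ∑ i, Real.exp (2 * u i) := Finset.sum_nonneg fun i _ => (Real.exp_pos _).le
    linarith
  · obtain ⟨i, _, hi⟩ := Finset.exists_lt_of_sum_lt (s := Finset.univ) (f := fun _ : Fin n => (0 : ℝ))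
      (g := u) (by simpa using h)
    have h1 : 1 ≤ Real.exp (2 * u i) := Real.one_le_exp (by linarith)
    have h2 : Real.exp (2 * u i) ≤ ∑ i, Real.exp (2 * u i) :=
      Finset.single_le_sum (f := fun i => Real.exp (2 * u i))
        (fun j _ => (Real.exp_pos _).le) (Finset.mem_univ i)
    have h3 := Real.exp_pos (-∑ i, u i)
    linarith

theorem E1_continuous {n : ℕ} : Continuous (fun u : Fin n → ℝ => E1 u) := by
  unfold E1
  fun_prop

theorem E1_growth {n : ℕ} (u : Fin n → ℝ) :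
    Real.exp ((∑ i, |u i|) / ((n + 1 : ℝ) ^ 2)) ≤ E1 u := by
  have hE1 : (1 : ℝ) ≤ E1 u := E1_ge_one u
  have hE0 : 0 < E1 u := by linarith
  have hn : (0 : ℝ) ≤ n := Nat.cast_nonneg n
  set L := Real.log (E1 u) with hL
  have hL0 : 0 ≤ L := Real.log_nonneg hE1
  have hpos : 0 ≤ ∑ i, Real.exp (2 * u i) := Finset.sum_nonneg fun i _ => (Real.exp_pos _).le
  have hw : ∀ i : Fin n, 2 * u i ≤ L := by
    intro i
    rw [hL, Real.le_log_iff_exp_le hE0]
    have h2 : Real.exp (2 * u i) ≤ ∑ i, Real.exp (2 * u i) :=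
      Finset.single_le_sum (f := fun i => Real.exp (2 * u i))
        (fun j _ => (Real.exp_pos _).le) (Finset.mem_univ i)
    have h3 := Real.exp_pos (-∑ i, u i)
    unfold E1
    linarith
  have hs : -∑ i, u i ≤ L := by
    rw [hL, Real.le_log_iff_exp_le hE0]
    unfold E1
    linarith
  have habs : ∀ i : Fin n, |u i| ≤ (n + 1) * L := by
    intro i
    rw [abs_le]
    constructor
    · have h1 : ∑ j ∈ Finset.univ.erase i, u j + u i = ∑ j, u j :=
        Finset.sum_erase_add _ _ (Finset.mem_univ _)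
      have h2 : ∑ j ∈ Finset.univ.erase i, u j ≤ ∑ j ∈ Finset.univ.erase i, L := by
        refine Finset.sum_le_sum fun j _ => ?_
        have := hw j
        linarith
      rw [Finset.sum_const, Finset.card_erase_of_mem (Finset.mem_univ _), Finset.card_univ,
        Fintype.card_fin, nsmul_eq_mul] at h2
      have h3 : (((n - 1 : ℕ)) : ℝ) ≤ n := by exact_mod_cast Nat.sub_le n 1
      have h4 : (((n - 1 : ℕ)) : ℝ) * L ≤ n * L := mul_le_mul_of_nonneg_right h3 hL0
      nlinarith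
    · have h1 := hw i
      nlinarith [mul_nonneg hn hL0]
  have hsum : ∑ i, |u i| ≤ n * ((n + 1) * L) := by
    have : ∑ i, |u i| ≤ ∑ _i : Fin n, ((n + 1 : ℝ) * L) :=
      Finset.sum_le_sum fun i _ => habs i
    simpa using this
  have : (∑ i, |u i|) / ((n + 1 : ℝ) ^ 2) ≤ L := by
    rw [div_le_iff₀ (by positivity)]
    nlinarith [mul_nonneg hn hL0]
  calc Real.exp ((∑ i, |u i|) / ((n + 1 : ℝ) ^ 2)) ≤ Real.exp L := Real.exp_le_exp.mpr this
    _ = E1 u := Real.exp_log hE0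

theorem E1_integrable {n : ℕ} {t : ℝ} (ht : 0 < t) (a : ℝ) :
    Integrable (fun u : Fin n → ℝ => Real.exp (a * ∑ i, |u i|) * Real.exp (-(t * E1 u))) := by
  set c : ℝ := 1 / ((n + 1 : ℝ) ^ 2) with hc
  have hc0 : 0 < c := by positivity
  set D : ℝ := (a + 1) ^ 2 / (2 * t * c ^ 2) with hD
  refine (EnK_integrable_exp_neg_sum (n := n)).const_mul (Real.exp D) |>.mono' ?_ ?_
  · apply Continuous.aestronglyMeasurable
    have := E1_continuous (n := n)
    fun_prop
  · refine Filter.Eventually.of_forall fun u => ?_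
    rw [Real.norm_of_nonneg (by positivity), ← Real.exp_add, ← Real.exp_add]
    apply Real.exp_le_exp.mpr
    set r := ∑ i, |u i| with hr
    have hr0 : 0 ≤ r := Finset.sum_nonneg fun i _ => abs_nonneg _
    have h1 : Real.exp (c * r) ≤ E1 u := by
      have := E1_growth u
      rw [← hr] at this
      rwa [hc, one_div, mul_comm, ← div_eq_mul_inv]
    have h2 := Real.quadratic_le_exp_of_nonneg (mul_nonneg hc0.le hr0)
    have h3 : (c * r) ^ 2 / 2 ≤ E1 u := by
      have : 0 ≤ c * r := mul_nonneg hc0.le hr0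
      nlinarith
    have h4 : t * ((c * r) ^ 2 / 2) ≤ t * E1 u := mul_le_mul_of_nonneg_left h3 ht.le
    have h5 : (a + 1) * r - t * ((c * r) ^ 2 / 2) ≤ D := by
      rw [hD, le_div_iff₀ (by positivity)]
      nlinarith [sq_nonneg ((a + 1) - t * c ^ 2 * r)]
    linarith

theorem E1_box {n : ℕ} (u : Fin n → ℝ) (hu : ∀ i, |u i| ≤ 1) :
    E1 u ≤ Real.exp n + n * Real.exp 2 := by
  unfold E1
  have h1 : -∑ i, u i ≤ n := by
    rw [← Finset.sum_neg_distrib]
    have h2 : ∑ i, -u i ≤ ∑ _i : Fin n, (1 : ℝ) := by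
      refine Finset.sum_le_sum fun i _ => ?_
      have := (abs_le.1 (hu i)).1
      linarith
    simpa using h2
  have h3 : ∑ i, Real.exp (2 * u i) ≤ ∑ _i : Fin n, Real.exp 2 := by
    refine Finset.sum_le_sum fun i _ => ?_
    have := (abs_le.1 (hu i)).2
    exact Real.exp_le_exp.2 (by linarith)
  have h4 : ∑ _i : Fin n, Real.exp 2 = n * Real.exp 2 := by simp
  have h5 : Real.exp (-∑ i, u i) ≤ Real.exp n := Real.exp_le_exp.2 h1
  linarith

theorem E1_polar {n : ℕ} (x : Fin (n + 1 + 1) → ℝ)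
    (hx : 0 < (x 0 ^ 2 + x 1 ^ 2) * ∏ i : Fin n, |x i.succ.succ|) :
    ∃ β : Fin n → ℝ, ∀ v : Fin n → ℝ,
      Real.exp (-∑ i, (v + β) i) * (x 0 ^ 2 + x 1 ^ 2) +
        ∑ i, Real.exp (2 * (v + β) i) * (x i.succ.succ) ^ 2 =
      ((x 0 ^ 2 + x 1 ^ 2) * ∏ i : Fin n, |x i.succ.succ|) ^ ((2 : ℝ) / (n + 2)) * E1 v := by
  set κ : ℝ := x 0 ^ 2 + x 1 ^ 2 with hκ
  set z : Fin n → ℝ := fun i => |x i.succ.succ| with hz
  set Q : ℝ := κ * ∏ i : Fin n, z i with hQ
  have hκ0 : 0 ≤ κ := by positivity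
  have hP0 : 0 ≤ ∏ i : Fin n, z i := Finset.prod_nonneg fun i _ => abs_nonneg _
  have hκ1 : κ ≠ 0 := fun h => by
    rw [hQ, h, zero_mul] at hx
    exact lt_irrefl _ hx
  have hκp : 0 < κ := lt_of_le_of_ne hκ0 (Ne.symm hκ1)
  have hP1 : ∏ i : Fin n, z i ≠ 0 := fun h => by
    rw [hQ, h, mul_zero] at hx
    exact lt_irrefl _ hx
  have hzp : ∀ i, 0 < z i := fun i =>
    lt_of_le_of_ne (abs_nonneg _) (Ne.symm (Finset.prod_ne_zero_iff.1 hP1 i (Finset.mem_univ i)))
  set T : ℝ := Q ^ ((2 : ℝ) / (n + 2)) with hT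
  have hTp : 0 < T := Real.rpow_pos_of_pos hx _
  have hn2 : (0 : ℝ) < n + 2 := by positivity
  have hlogT : Real.log T = (2 : ℝ) / (n + 2) * Real.log Q := by
    rw [hT, Real.log_rpow hx]
  have hlogQ : Real.log Q = Real.log κ + ∑ i, Real.log (z i) := by
    rw [hQ, Real.log_mul hκ1 hP1, Real.log_prod (fun i _ => (hzp i).ne')]
  refine ⟨fun i => Real.log T / 2 - Real.log (z i), fun v => ?_⟩
  have e1 : ∀ i, Real.exp (2 * (v + fun i => Real.log T / 2 - Real.log (z i)) i) *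
      (x i.succ.succ) ^ 2 = T * Real.exp (2 * v i) := by
    intro i
    have h1 : (x i.succ.succ) ^ 2 = Real.exp (2 * Real.log (z i)) := by
      rw [mul_comm, Real.exp_mul, Real.exp_log (hzp i), hz]
      simp only
      rw [← sq_abs]
      norm_num
    have h2 : T = Real.exp (Real.log T) := (Real.exp_log hTp).symm
    conv_rhs => rw [h2]
    rw [h1, ← Real.exp_add, ← Real.exp_add]
    congr 1
    simp only [Pi.add_apply]
    ring
  have e2 : Real.exp (-∑ i, (v + fun i => Real.log T / 2 - Real.log (z i)) i) * κ =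
      T * Real.exp (-∑ i, v i) := by
    have h1 : κ = Real.exp (Real.log κ) := (Real.exp_log hκp).symm
    have h2 : T = Real.exp (Real.log T) := (Real.exp_log hTp).symm
    conv_lhs => rw [h1]
    conv_rhs => rw [h2]
    rw [← Real.exp_add, ← Real.exp_add]
    congr 1
    simp only [Pi.add_apply]
    rw [Finset.sum_add_distrib, Finset.sum_sub_distrib, Finset.sum_const, Finset.card_univ,
      Fintype.card_fin, nsmul_eq_mul]
    have h3 : Real.log T * ((n + 2) / 2) = Real.log κ + ∑ i, Real.log (z i) := by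
      rw [← hlogQ, hlogT]
      field_simp
    linarith
  simp_rw [e1]
  rw [e2, ← Finset.mul_sum]
  unfold E1
  ring

end H49.SG
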