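import Pool.Agent.H49.SG.Act
import Pool.Agent.H49.SG.GE1

/-!
# Module TERM: one lattice vector

Let `x` be a vector with `(x_0² + x_1²) ∏ |x_(i+2)| ≥ c > 0`, `β` as in `E1_polar`,
`T = ((x_0² + x_1²) ∏ |x_(i+2)|)^(2/(n+2)) ≥ T0 := c^(2/(n+2)) > 0`.  By `act_sq` and `E1_polar`
`∑ (act (v + β) x i)² = T E1 v`.  Put `Emax = exp n + n exp 2` (`E1_box`), `c2 = c1/(2 Emax)`.

1. `∫ |f (act (v + β) x)| exp |v|_1 dv ≤ C ∫ exp (|v|_1) exp (-(c1 T E1 v)) dv
     ≤ C exp (-(c1 T/2)) ∫ exp (|v|_1) exp (-((c1 T0/2) E1 v)) dv = C exp (-(c1 T/2)) I0`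
   because `E1 ≥ 1`, `T ≥ T0`.  (`I0 < ∞` by `E1_integrable`.)
2. On the box `|v_i| ≤ 1` (volume `2^n`): `exp (-(c2 T E1 v)) ≥ exp (-(c1 T/2))`.
3. `W(u) = exp (-(ε ∑ |u_i|))`; `|W(v + β) - W(β)| ≤ W(β) (exp (ε |v|_1) - 1) ≤ ε W(β) exp (|v|_1)` for
   `0 < ε ≤ 1` (see `key_sup_diff` in `Pool/Agent/H81/LP/Key.lean` for this kind of estimate), and
   `W(β) ≤ exp n W(v + β)` on the box.
So (translation `u = v + β`, `integral_add_right_eq_self`)
`∫ W(u) f(act u x) du = ∫ W(v + β) f(act (v+β) x) dv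
  ≤ W(β) ∫ f(act (v+β) x) dv + ε W(β) C I0 exp (-(c1 T/2))`, the first term is `≤ 0`, and
`W(β) exp (-(c1 T/2)) ≤ 2^(-n) ∫_box exp n W(v + β) exp (-(c2 T E1 v)) dv
  ≤ 2^(-n) exp n ∫ W(u) exp (-(c2 ∑ (act u x i)²)) du`.
Take `C2 = 2^(-n) exp n C I0`.  (If `f ∘ act` is not integrable … it is: dominated by `E1_integrable`.)
-/

namespace H49.SG

open MeasureTheory H81.LP

private theorem exp_sub_one_bd {ε x U : ℝ} (hε : 0 < ε) (hε1 : ε ≤ 1) (hx : |x| ≤ U) :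
    |Real.exp (ε * x) - 1| ≤ ε * Real.exp U := by
  have hU0 : 0 ≤ U := (abs_nonneg _).trans hx
  obtain ⟨hx2, hx1⟩ := abs_le.1 hx
  have hconv : Real.exp (ε * U) ≤ 1 - ε + ε * Real.exp U := by
    have h1 := convexOn_exp.2 (Set.mem_univ (0 : ℝ)) (Set.mem_univ U)
      (show (0 : ℝ) ≤ 1 - ε by linarith) hε.le (by ring)
    simp only [smul_eq_mul, mul_zero, zero_add, Real.exp_zero, mul_one] at h1
    exact h1
  have hup : Real.exp (ε * x) ≤ Real.exp (ε * U) :=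
    Real.exp_le_exp.mpr (mul_le_mul_of_nonneg_left hx1 hε.le)
  have hlow : Real.exp (-(ε * U)) ≤ Real.exp (ε * x) := by
    apply Real.exp_le_exp.mpr
    have := mul_le_mul_of_nonneg_left hx2 hε.le
    linarith
  have htwo : 2 ≤ Real.exp (ε * U) + Real.exp (-(ε * U)) := by
    have h1 : Real.exp (ε * U) * Real.exp (-(ε * U)) = 1 := by
      rw [← Real.exp_add]
      simp
    have h2 := Real.exp_pos (ε * U)
    have h3 := Real.exp_pos (-(ε * U))
    nlinarith [sq_nonneg (Real.exp (ε * U) - Real.exp (-(ε * U)))]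
  rw [abs_le]
  constructor <;> linarith

/-- the weight -/
private noncomputable def Wt {n : ℕ} (ε : ℝ) (u : Fin n → ℝ) : ℝ := Real.exp (-(ε * ∑ i, |u i|))

private theorem Wt_pos {n : ℕ} (ε : ℝ) (u : Fin n → ℝ) : 0 < Wt ε u := Real.exp_pos _

private theorem Wt_cont {n : ℕ} (ε : ℝ) : Continuous (fun u : Fin n → ℝ => Wt ε u) := by
  unfold Wt
  fun_prop

private theorem abs_sum_diff {n : ℕ} (v β : Fin n → ℝ) :
    abs ((∑ i, |β i|) - ∑ i, |(v + β) i|) ≤ ∑ i, |v i| := by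
  rw [← Finset.sum_sub_distrib]
  refine (Finset.abs_sum_le_sum_abs _ _).trans (Finset.sum_le_sum fun i _ => ?_)
  have h1 := abs_abs_sub_abs_le_abs_sub (β i) ((v + β) i)
  have h2 : β i - (v + β) i = -(v i) := by
    simp [Pi.add_apply]
  rw [h2, abs_neg] at h1
  exact h1

private theorem Wt_add {n : ℕ} (ε : ℝ) (v β : Fin n → ℝ) :
    Wt ε (v + β) = Wt ε β * Real.exp (ε * (∑ i, |β i| - ∑ i, |(v + β) i|)) := by
  unfold Wt
  rw [← Real.exp_add]
  congr 1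
  ring

private theorem Wt_diff {n : ℕ} {ε : ℝ} (hε : 0 < ε) (hε1 : ε ≤ 1) (v β : Fin n → ℝ) :
    |Wt ε (v + β) - Wt ε β| ≤ Wt ε β * (ε * Real.exp (1 * ∑ i, |v i|)) := by
  have h1 : Wt ε (v + β) - Wt ε β =
      Wt ε β * (Real.exp (ε * (∑ i, |β i| - ∑ i, |(v + β) i|)) - 1) := by
    rw [Wt_add]
    ring
  rw [h1, abs_mul, abs_of_pos (Wt_pos _ _), one_mul]
  exact mul_le_mul_of_nonneg_left (exp_sub_one_bd hε hε1 (abs_sum_diff v β)) (Wt_pos _ _).le

private theorem Wt_box {n : ℕ} {ε : ℝ} (hε : 0 < ε) (hε1 : ε ≤ 1) (v β : Fin n → ℝ)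
    (hv : ∀ i, |v i| ≤ 1) : Real.exp (-(n : ℝ)) * Wt ε β ≤ Wt ε (v + β) := by
  rw [Wt_add, mul_comm]
  refine mul_le_mul_of_nonneg_left (Real.exp_le_exp.2 ?_) (Wt_pos _ _).le
  have h1 := (abs_le.1 (abs_sum_diff v β)).1
  have h2 : ∑ i, |v i| ≤ n := by
    refine (Finset.sum_le_sum fun i _ => hv i).trans ?_
    simp
  have h3 : ε * -(n : ℝ) ≤ ε * (∑ i, |β i| - ∑ i, |(v + β) i|) :=
    mul_le_mul_of_nonneg_left (by linarith) hε.le
  have h4 : -(n : ℝ) ≤ ε * -(n : ℝ) := by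
    have : (0 : ℝ) ≤ n := Nat.cast_nonneg n
    nlinarith
  linarith

private theorem act_comp_cont {n : ℕ} {f : (Fin (n + 1 + 1) → ℝ) → ℝ} (hf : Continuous f)
    (x : Fin (n + 1 + 1) → ℝ) (β : Fin n → ℝ) :
    Continuous (fun v : Fin n → ℝ => f (act (v + β) x)) :=
  hf.comp ((act_continuous x).comp (continuous_id.add continuous_const))

private theorem polar_act {n : ℕ} (x : Fin (n + 1 + 1) → ℝ)
    (hx : 0 < (x 0 ^ 2 + x 1 ^ 2) * ∏ i : Fin n, |x i.succ.succ|) :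
    ∃ β : Fin n → ℝ, ∀ v : Fin n → ℝ, ∑ i, (act (v + β) x i) ^ 2 =
      ((x 0 ^ 2 + x 1 ^ 2) * ∏ i : Fin n, |x i.succ.succ|) ^ ((2 : ℝ) / (n + 2)) * E1 v := by
  obtain ⟨β, hβ⟩ := E1_polar x hx
  refine ⟨β, fun v => ?_⟩
  rw [act_sq, hβ]

theorem term_integrable {n : ℕ} {c1 C : ℝ} (hc1 : 0 < c1) (f : (Fin (n + 1 + 1) → ℝ) → ℝ)
    (hf : Continuous f) (hb : ∀ v, |f v| ≤ C * Real.exp (-(c1 * ∑ i, v i ^ 2)))
    (x : Fin (n + 1 + 1) → ℝ) (hx : 0 < (x 0 ^ 2 + x 1 ^ 2) * ∏ i : Fin n, |x i.succ.succ|) :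
    Integrable (fun u : Fin n → ℝ => f (act u x)) := by
  obtain ⟨β, hβ⟩ := polar_act x hx
  set T : ℝ := ((x 0 ^ 2 + x 1 ^ 2) * ∏ i : Fin n, |x i.succ.succ|) ^ ((2 : ℝ) / (n + 2)) with hT
  have hT0 : 0 < T := Real.rpow_pos_of_pos hx _
  have hG : Integrable (fun v : Fin n → ℝ => f (act (v + β) x)) := by
    refine ((E1_integrable (n := n) (t := c1 * T) (by positivity) 0).const_mul C).mono'
      (act_comp_cont hf x β).aestronglyMeasurable (Filter.Eventually.of_forall fun v => ?_)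
    rw [Real.norm_eq_abs]
    refine (hb _).trans (le_of_eq ?_)
    rw [hβ v, zero_mul, Real.exp_zero, one_mul, mul_assoc c1]
  have h1 := hG.comp_add_right (-β)
  simpa using h1

theorem term_ineq {n : ℕ} {c C c1 : ℝ} (hc : 0 < c) (hC : 0 ≤ C) (hc1 : 0 < c1) :
    ∃ C2 c2 : ℝ, 0 ≤ C2 ∧ 0 < c2 ∧ ∀ f : (Fin (n + 1 + 1) → ℝ) → ℝ, Continuous f →
      (∀ v, |f v| ≤ C * Real.exp (-(c1 * ∑ i, v i ^ 2))) → ∀ x : Fin (n + 1 + 1) → ℝ,
      c ≤ (x 0 ^ 2 + x 1 ^ 2) * ∏ i : Fin n, |x i.succ.succ| →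
      ∫ u : Fin n → ℝ, f (act u x) ≤ 0 → ∀ ε, 0 < ε → ε ≤ 1 →
      ∫ u : Fin n → ℝ, Real.exp (-(ε * ∑ i, |u i|)) * f (act u x) ≤
        ε * C2 * ∫ u : Fin n → ℝ, Real.exp (-(ε * ∑ i, |u i|)) *
          Real.exp (-(c2 * ∑ i, (act u x i) ^ 2)) := by
  set T0 : ℝ := c ^ ((2 : ℝ) / (n + 2)) with hT0d
  have hT0 : 0 < T0 := Real.rpow_pos_of_pos hc _
  set Em : ℝ := Real.exp n + n * Real.exp 2 with hEm
  have hEm0 : 0 < Em := by positivity
  set I0 : ℝ := ∫ v : Fin n → ℝ, Real.exp (1 * ∑ i, |v i|) *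
    Real.exp (-((c1 * T0 / 2) * E1 v)) with hI0
  have hI00 : 0 ≤ I0 := integral_nonneg fun v => by positivity
  refine ⟨((2 : ℝ) ^ n)⁻¹ * Real.exp n * C * I0, c1 / (2 * Em), by positivity, by positivity, ?_⟩
  intro f hf hb x hx hint ε hε hε1
  have hQ : 0 < (x 0 ^ 2 + x 1 ^ 2) * ∏ i : Fin n, |x i.succ.succ| := by linarith
  have hFint := term_integrable hc1 f hf hb x hQ
  obtain ⟨β, hβ⟩ := polar_act x hQ
  set T : ℝ := ((x 0 ^ 2 + x 1 ^ 2) * ∏ i : Fin n, |x i.succ.succ|) ^ ((2 : ℝ) / (n + 2)) with hT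
  have hT0' : 0 < T := Real.rpow_pos_of_pos hQ _
  have hTT : T0 ≤ T := Real.rpow_le_rpow hc.le hx (by positivity)
  have hG : Integrable (fun v : Fin n → ℝ => f (act (v + β) x)) := hFint.comp_add_right β
  have hGb : ∀ v : Fin n → ℝ, |f (act (v + β) x)| ≤ C * (Real.exp (-(c1 * T / 2)) *
      Real.exp (-((c1 * T0 / 2) * E1 v))) := by
    intro v
    refine (hb _).trans (mul_le_mul_of_nonneg_left ?_ hC)
    rw [← Real.exp_add]
    apply Real.exp_le_exp.2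
    rw [hβ v]
    have h1 := E1_ge_one v
    have h2 : c1 * T / 2 * 1 ≤ c1 * T / 2 * E1 v := mul_le_mul_of_nonneg_left h1 (by positivity)
    have h3 : c1 * T0 / 2 * E1 v ≤ c1 * T / 2 * E1 v := by gcongr
    linarith
  -- the left side
  have hL : ∫ u : Fin n → ℝ, Real.exp (-(ε * ∑ i, |u i|)) * f (act u x) =
      ∫ v : Fin n → ℝ, Wt ε (v + β) * f (act (v + β) x) :=
    (integral_add_right_eq_self (fun u : Fin n → ℝ => Wt ε u * f (act u x)) β).symm
  have hGi : ∫ v : Fin n → ℝ, f (act (v + β) x) ≤ 0 := by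
    rw [integral_add_right_eq_self (fun u : Fin n → ℝ => f (act u x)) β]
    exact hint
  have hmaj : Integrable (fun v : Fin n → ℝ => ε * C * Wt ε β * Real.exp (-(c1 * T / 2)) *
      (Real.exp (1 * ∑ i, |v i|) * Real.exp (-((c1 * T0 / 2) * E1 v)))) :=
    (E1_integrable (n := n) (t := c1 * T0 / 2) (by positivity) 1).const_mul _
  have hdb : ∀ v : Fin n → ℝ, ‖(Wt ε (v + β) - Wt ε β) * f (act (v + β) x)‖ ≤
      ε * C * Wt ε β * Real.exp (-(c1 * T / 2)) *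
      (Real.exp (1 * ∑ i, |v i|) * Real.exp (-((c1 * T0 / 2) * E1 v))) := by
    intro v
    rw [Real.norm_eq_abs, abs_mul]
    have h1 := mul_le_mul (Wt_diff hε hε1 v β) (hGb v) (abs_nonneg _)
      (mul_nonneg (Wt_pos _ _).le (by positivity))
    refine h1.trans (le_of_eq ?_)
    ring
  have hWc : Continuous (fun v : Fin n → ℝ => Wt ε (v + β)) :=
    (Wt_cont ε).comp (continuous_id.add continuous_const)
  have hdint : Integrable (fun v : Fin n → ℝ => (Wt ε (v + β) - Wt ε β) * f (act (v + β) x)) :=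
    hmaj.mono' (((hWc.sub continuous_const).mul (act_comp_cont hf x β)).aestronglyMeasurable)
      (Filter.Eventually.of_forall hdb)
  have hsplit : ∫ v : Fin n → ℝ, Wt ε (v + β) * f (act (v + β) x) =
      Wt ε β * (∫ v : Fin n → ℝ, f (act (v + β) x)) +
        ∫ v : Fin n → ℝ, (Wt ε (v + β) - Wt ε β) * f (act (v + β) x) := by
    rw [← integral_const_mul, ← integral_add (hG.const_mul _) hdint]
    congr 1
    funext v
    ring
  have hdi : ∫ v : Fin n → ℝ, (Wt ε (v + β) - Wt ε β) * f (act (v + β) x) ≤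
      ε * C * Wt ε β * Real.exp (-(c1 * T / 2)) * I0 := by
    have h1 := norm_integral_le_of_norm_le hmaj (Filter.Eventually.of_forall hdb)
    rw [integral_const_mul] at h1
    exact (le_abs_self _).trans h1
  have hfirst : Wt ε β * (∫ v : Fin n → ℝ, f (act (v + β) x)) ≤ 0 :=
    mul_nonpos_of_nonneg_of_nonpos (Wt_pos _ _).le hGi
  -- the right side
  set c2 : ℝ := c1 / (2 * Em) with hc2
  have hc20 : 0 < c2 := by positivity
  have hR : ∫ u : Fin n → ℝ, Real.exp (-(ε * ∑ i, |u i|)) *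
        Real.exp (-(c2 * ∑ i, (act u x i) ^ 2)) =
      ∫ v : Fin n → ℝ, Wt ε (v + β) * Real.exp (-(c2 * T * E1 v)) := by
    rw [← integral_add_right_eq_self (fun u : Fin n → ℝ => Real.exp (-(ε * ∑ i, |u i|)) *
        Real.exp (-(c2 * ∑ i, (act u x i) ^ 2))) β]
    congr 1
    funext v
    rw [hβ v, mul_assoc c2]
    rfl
  have hRint : Integrable (fun v : Fin n → ℝ => Wt ε (v + β) * Real.exp (-(c2 * T * E1 v))) := by
    refine (E1_integrable (n := n) (t := c2 * T) (by positivity) 0).mono'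
      ((hWc.mul (by
        have := E1_continuous (n := n)
        fun_prop)).aestronglyMeasurable) (Filter.Eventually.of_forall fun v => ?_)
    rw [Real.norm_eq_abs, abs_mul, abs_of_pos (Wt_pos _ _), abs_of_pos (Real.exp_pos _), zero_mul,
      Real.exp_zero]
    refine mul_le_mul_of_nonneg_right ?_ (Real.exp_pos _).le
    unfold Wt
    rw [Real.exp_le_one_iff, neg_nonpos]
    exact mul_nonneg hε.le (Finset.sum_nonneg fun i _ => abs_nonneg _)
  have hbox : ∀ v ∈ Set.Icc (fun _ : Fin n => (-1 : ℝ)) (fun _ => 1),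
      Real.exp (-(n : ℝ)) * Wt ε β * Real.exp (-(c1 * T / 2)) ≤
        Wt ε (v + β) * Real.exp (-(c2 * T * E1 v)) := by
    intro v hv
    have hv' : ∀ i, |v i| ≤ 1 := fun i => abs_le.2 ⟨hv.1 i, hv.2 i⟩
    refine mul_le_mul (Wt_box hε hε1 v β hv') (Real.exp_le_exp.2 ?_) (Real.exp_pos _).le
      (Wt_pos _ _).le
    have h1 := E1_box v hv'
    have h2 : c2 * T * E1 v ≤ c2 * T * Em := mul_le_mul_of_nonneg_left h1 (by positivity)
    have h3 : c2 * T * Em = c1 * T / 2 := by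
      rw [hc2]
      field_simp
    linarith
  have hvol : volume.real (Set.Icc (fun _ : Fin n => (-1 : ℝ)) (fun _ => 1)) = 2 ^ n := by
    have h1 := Real.volume_Icc_pi_toReal (a := fun _ : Fin n => (-1 : ℝ)) (b := fun _ => 1)
      (fun _ => by norm_num)
    rw [Measure.real, h1]
    simp
    norm_num
  have hlow : Real.exp (-(n : ℝ)) * Wt ε β * Real.exp (-(c1 * T / 2)) * 2 ^ n ≤
      ∫ v : Fin n → ℝ, Wt ε (v + β) * Real.exp (-(c2 * T * E1 v)) := by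
    have h1 := setIntegral_ge_of_const_le_real (μ := volume) measurableSet_Icc
      (isCompact_Icc.measure_lt_top.ne) hbox hRint.integrableOn
    rw [hvol] at h1
    refine h1.trans (setIntegral_le_integral hRint (Filter.Eventually.of_forall fun v => ?_))
    exact mul_nonneg (Wt_pos _ _).le (Real.exp_pos _).le
  rw [hL, hsplit, hR]
  have h2n : (0 : ℝ) < 2 ^ n := by positivity
  have hkey : Wt ε β * Real.exp (-(c1 * T / 2)) ≤ ((2 : ℝ) ^ n)⁻¹ * Real.exp n *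
      ∫ v : Fin n → ℝ, Wt ε (v + β) * Real.exp (-(c2 * T * E1 v)) := by
    have h1 := mul_le_mul_of_nonneg_left hlow
      (by positivity : (0 : ℝ) ≤ ((2 : ℝ) ^ n)⁻¹ * Real.exp n)
    refine le_trans (le_of_eq ?_) h1
    have h3 : Real.exp (n : ℝ) * Real.exp (-(n : ℝ)) = 1 := by
      rw [← Real.exp_add]
      simp
    have h4 : ((2 : ℝ) ^ n)⁻¹ * 2 ^ n = 1 := inv_mul_cancel₀ h2n.ne'
    calc Wt ε β * Real.exp (-(c1 * T / 2))
        = (((2 : ℝ) ^ n)⁻¹ * 2 ^ n) * (Real.exp (n : ℝ) * Real.exp (-(n : ℝ))) *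
          (Wt ε β * Real.exp (-(c1 * T / 2))) := by rw [h3, h4, one_mul, one_mul]
      _ = _ := by ring
  have h5 := mul_le_mul_of_nonneg_left hkey (by positivity : (0 : ℝ) ≤ ε * C * I0)
  calc Wt ε β * (∫ v : Fin n → ℝ, f (act (v + β) x)) +
        ∫ v : Fin n → ℝ, (Wt ε (v + β) - Wt ε β) * f (act (v + β) x)
      ≤ 0 + ε * C * Wt ε β * Real.exp (-(c1 * T / 2)) * I0 := add_le_add hfirst hdi
    _ = ε * C * I0 * (Wt ε β * Real.exp (-(c1 * T / 2))) := by ring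
    _ ≤ _ := h5
    _ = _ := by ring

end H49.SG
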