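import Pool.Agent.H49.SG.Bdd
import Pool.Agent.H49.SG.Term
import Pool.Agent.H81.LP.Half

/-!
# Module AVG: the averaged theta series of a test function

`W(u) = exp (-(ε ∑ |u_i|))`, `W_integrable` (`Pool/Agent/H81/LP/Half.lean`, may be cited; `half_one`
there is the model for the interchange).

`avg_int`: for `μ > 0` with `π μ ≤ c1`: `|f (act u (g m))| ≤ C exp (-(π μ ∑ (act u (g m) i)²))`
`= C thTerm g μ (up u) m` (`thTerm_act`), and `Th g μ (up u) ≤ C'` for all `u` (`Bd2`).  So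
`∑_m |f (act u (g m))| ≤ C C'` for all `u`, hence `∑_m ∫ W |f(act u (g m))| du < ∞` (partial sums are
integrals of partial sums, at most `C C' ∫ W`) and sum and integral may be interchanged
(`hasSum_integral_of_summable_integral_norm`); the sum function is measurable as a limit of
measurable functions, or continuous.
`avg`: for `m ≠ 0` use `term_ineq` with `c` from `Adm2`, for `m = 0` the term is `f 0 ∫ W`
(`act_zero`, `gv g 0 = 0`).  So
`∫ W ∑_m f(act u (g m)) ≤ f 0 ∫ W + ε C2 ∑_{m} ∫ W exp (-(c2 ∑ (act u (g m) i)²))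
   ≤ f 0 ∫ W + ε C2 C'' ∫ W`, where `C''` bounds `Th g (c2/π) (up u)`
(interchange as above for the function `exp (-(c2 ∑ v_i²))`).
-/

namespace H49.SG

open MeasureTheory H81.LP

/-- interchange of sum and integral for a bounded family -/
private theorem avg_swap {n : ℕ} {ι : Type} [Countable ι] (F : (Fin n → ℝ) → ι → ℝ) (D : ℝ)
    (hcont : ∀ m, Continuous (fun u => F u m))
    (hD : ∀ (S : Finset ι) (u : Fin n → ℝ), ∑ m ∈ S, |F u m| ≤ D) {ε : ℝ} (hε : 0 < ε) :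
    Integrable (fun u : Fin n → ℝ => Real.exp (-(ε * ∑ i, |u i|)) * ∑' m, F u m) ∧
    (∀ m, Integrable (fun u : Fin n → ℝ => Real.exp (-(ε * ∑ i, |u i|)) * F u m)) ∧
    HasSum (fun m => ∫ u : Fin n → ℝ, Real.exp (-(ε * ∑ i, |u i|)) * F u m)
      (∫ u : Fin n → ℝ, Real.exp (-(ε * ∑ i, |u i|)) * ∑' m, F u m) := by
  have hW := W_integrable (n := n) hε
  have hWc : Continuous (fun u : Fin n → ℝ => Real.exp (-(ε * ∑ i, |u i|))) := by fun_prop
  have hCW : Integrable (fun u : Fin n → ℝ => D * Real.exp (-(ε * ∑ i, |u i|))) := hW.const_mul D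
  have hsm : ∀ u, Summable (fun m => |F u m|) := fun u =>
    summable_of_sum_le (fun m => abs_nonneg _) (fun S => hD S u)
  have hsm' : ∀ u, Summable (fun m => F u m) := fun u => (hsm u).of_abs
  have hone : ∀ u m, |F u m| ≤ D := by
    intro u m
    have h1 := hD {m} u
    rwa [Finset.sum_singleton] at h1
  have hint : ∀ m, Integrable (fun u : Fin n → ℝ => Real.exp (-(ε * ∑ i, |u i|)) * F u m) := by
    intro m
    apply hCW.mono'
    · exact (hWc.mul (hcont m)).aestronglyMeasurable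
    · apply Filter.Eventually.of_forall
      intro u
      rw [Real.norm_eq_abs, abs_mul, abs_of_pos (Real.exp_pos _), mul_comm D]
      exact mul_le_mul_of_nonneg_left (hone u m) (Real.exp_pos _).le
  have hnorm : ∀ u m, ‖Real.exp (-(ε * ∑ i, |u i|)) * F u m‖ =
      Real.exp (-(ε * ∑ i, |u i|)) * |F u m| := by
    intro u m
    rw [Real.norm_eq_abs, abs_mul, abs_of_pos (Real.exp_pos _)]
  have hsum : Summable (fun m => ∫ u : Fin n → ℝ, ‖Real.exp (-(ε * ∑ i, |u i|)) * F u m‖) := by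
    apply summable_of_sum_le (c := ∫ u : Fin n → ℝ, D * Real.exp (-(ε * ∑ i, |u i|)))
    · intro m
      exact integral_nonneg fun u => norm_nonneg _
    · intro S
      rw [← integral_finsetSum _ (fun m _ => (hint m).norm)]
      refine integral_mono (integrable_finsetSum _ (fun m _ => (hint m).norm)) hCW ?_
      intro u
      show ∑ m ∈ S, ‖Real.exp (-(ε * ∑ i, |u i|)) * F u m‖ ≤ D * Real.exp (-(ε * ∑ i, |u i|))
      rw [Finset.sum_congr rfl (fun m _ => hnorm u m), ← Finset.mul_sum, mul_comm D]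
      exact mul_le_mul_of_nonneg_left (hD S u) (Real.exp_pos _).le
  have heq : ∀ u : Fin n → ℝ, ∑' m, Real.exp (-(ε * ∑ i, |u i|)) * F u m =
      Real.exp (-(ε * ∑ i, |u i|)) * ∑' m, F u m := fun u => tsum_mul_left
  have hhs := hasSum_integral_of_summable_integral_norm hint hsum
  simp only [heq] at hhs
  refine ⟨?_, hint, hhs⟩
  apply hCW.mono'
  · apply aestronglyMeasurable_of_tendsto_ae (u := Filter.atTop)
      (f := fun (S : Finset ι) (u : Fin n → ℝ) =>
        ∑ m ∈ S, Real.exp (-(ε * ∑ i, |u i|)) * F u m)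
    · intro S
      exact (integrable_finsetSum S (fun m _ => hint m)).aestronglyMeasurable
    · apply Filter.Eventually.of_forall
      intro u
      have h1 : HasSum (fun m => Real.exp (-(ε * ∑ i, |u i|)) * F u m)
          (Real.exp (-(ε * ∑ i, |u i|)) * ∑' m, F u m) := (hsm' u).hasSum.mul_left _
      exact h1
  · apply Filter.Eventually.of_forall
    intro u
    rw [Real.norm_eq_abs, abs_mul, abs_of_pos (Real.exp_pos _), mul_comm D]
    refine mul_le_mul_of_nonneg_left ?_ (Real.exp_pos _).le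
    have h1 : |∑' m, F u m| ≤ ∑' m, |F u m| := by
      have h2 := norm_tsum_le_tsum_norm (f := fun m => F u m) (hsm u)
      exact h2
    exact h1.trans ((hsm u).tsum_le_of_sum_le (fun S => hD S u))

private theorem avg_th {n : ℕ} (g : Matrix (Fin (n + 1 + 1)) (Fin (n + 1 + 1)) ℝ) (hB : Bd2 g)
    {c1 : ℝ} (hc1 : 0 < c1) : ∃ C' : ℝ, 0 ≤ C' ∧ ∀ (u : Fin n → ℝ)
      (S : Finset (Fin (n + 1 + 1) → ℤ)),
        ∑ m ∈ S, Real.exp (-(c1 * ∑ i, (act u (gv g m) i) ^ 2)) ≤ C' := by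
  obtain ⟨C', hC'⟩ := hB (c1 / Real.pi) (div_pos hc1 Real.pi_pos)
  have hth : ∀ (u : Fin n → ℝ) (m : Fin (n + 1 + 1) → ℤ), thTerm g (c1 / Real.pi) (up u) m =
      Real.exp (-(c1 * ∑ i, (act u (gv g m) i) ^ 2)) := by
    intro u m
    rw [thTerm_act, mul_div_cancel₀ c1 Real.pi_ne_zero]
  have hpos : ∀ (u : Fin n → ℝ) (m : Fin (n + 1 + 1) → ℤ),
      0 ≤ thTerm g (c1 / Real.pi) (up u) m := fun _ _ => (Real.exp_pos _).le
  have key : ∀ (u : Fin n → ℝ) (S : Finset (Fin (n + 1 + 1) → ℤ)),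
        ∑ m ∈ S, Real.exp (-(c1 * ∑ i, (act u (gv g m) i) ^ 2)) ≤ C' := by
    intro u S
    rw [← Finset.sum_congr rfl (fun m _ => hth u m)]
    exact ((hC' u).1.sum_le_tsum S (fun m _ => hpos u m)).trans (hC' u).2
  refine ⟨C', ?_, key⟩
  have h1 := key 0 ∅
  rwa [Finset.sum_empty] at h1

theorem avg_int {n : ℕ} (g : Matrix (Fin (n + 1 + 1)) (Fin (n + 1 + 1)) ℝ) (hB : Bd2 g)
    {c1 C : ℝ} (hc1 : 0 < c1) (hC : 0 ≤ C) (f : (Fin (n + 1 + 1) → ℝ) → ℝ)
    (hf : Continuous f) (hb : ∀ v, |f v| ≤ C * Real.exp (-(c1 * ∑ i, v i ^ 2))) {ε : ℝ} (hε : 0 < ε) :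
    Integrable (fun u : Fin n → ℝ => Real.exp (-(ε * ∑ i, |u i|)) *
      ∑' m : Fin (n + 1 + 1) → ℤ, f (act u (gv g m))) ∧
    (∀ m : Fin (n + 1 + 1) → ℤ, Integrable (fun u : Fin n → ℝ =>
      Real.exp (-(ε * ∑ i, |u i|)) * f (act u (gv g m)))) ∧
    HasSum (fun m : Fin (n + 1 + 1) → ℤ => ∫ u : Fin n → ℝ,
      Real.exp (-(ε * ∑ i, |u i|)) * f (act u (gv g m)))
      (∫ u : Fin n → ℝ, Real.exp (-(ε * ∑ i, |u i|)) *
        ∑' m : Fin (n + 1 + 1) → ℤ, f (act u (gv g m))) := by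
  obtain ⟨C', hC', hth⟩ := avg_th g hB hc1
  refine avg_swap (fun u m => f (act u (gv g m))) (C * C')
    (fun m => hf.comp (act_continuous _)) (fun S u => ?_) hε
  calc ∑ m ∈ S, |f (act u (gv g m))|
      ≤ ∑ m ∈ S, C * Real.exp (-(c1 * ∑ i, (act u (gv g m) i) ^ 2)) :=
        Finset.sum_le_sum fun m _ => hb _
    _ = C * ∑ m ∈ S, Real.exp (-(c1 * ∑ i, (act u (gv g m) i) ^ 2)) := (Finset.mul_sum _ _ _).symm
    _ ≤ C * C' := mul_le_mul_of_nonneg_left (hth u S) hC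

theorem avg {n : ℕ} (g : Matrix (Fin (n + 1 + 1)) (Fin (n + 1 + 1)) ℝ) (hB : Bd2 g) (hA : Adm2 g)
    {c1 C : ℝ} (hc1 : 0 < c1) (hC : 0 ≤ C) (f : (Fin (n + 1 + 1) → ℝ) → ℝ)
    (hf : Continuous f) (hb : ∀ v, |f v| ≤ C * Real.exp (-(c1 * ∑ i, v i ^ 2)))
    (hneg : ∀ m : Fin (n + 1 + 1) → ℤ, m ≠ 0 → ∫ u : Fin n → ℝ, f (act u (gv g m)) ≤ 0) :
    ∃ C' : ℝ, 0 ≤ C' ∧ ∀ ε, 0 < ε → ε ≤ 1 →
      ∫ u : Fin n → ℝ, Real.exp (-(ε * ∑ i, |u i|)) *
        ∑' m : Fin (n + 1 + 1) → ℤ, f (act u (gv g m)) ≤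
      (f 0 + ε * C') * ∫ u : Fin n → ℝ, Real.exp (-(ε * ∑ i, |u i|)) := by
  classical
  obtain ⟨c, hc, hadm⟩ := hA
  obtain ⟨C2, c2, hC2, hc2, hterm⟩ := term_ineq (n := n) hc hC hc1
  obtain ⟨C3, hC3, hth⟩ := avg_th g hB hc2
  refine ⟨C2 * C3, by positivity, fun ε hε hε1 => ?_⟩
  have h1 := (avg_int g hB hc1 hC f hf hb hε).2.2
  have h2 := avg_swap (n := n) (fun u (m : Fin (n + 1 + 1) → ℤ) =>
    Real.exp (-(c2 * ∑ i, (act u (gv g m) i) ^ 2))) C3
    (fun m => by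
      have hcm := act_continuous (gv g m)
      have hci : ∀ i, Continuous (fun u : Fin n → ℝ => act u (gv g m) i) := fun i =>
        (continuous_apply i).comp hcm
      refine Real.continuous_exp.comp (Continuous.neg (continuous_const.mul ?_))
      exact continuous_finsetSum _ fun i _ => (hci i).pow 2)
    (fun S u => by
      refine le_trans (le_of_eq ?_) (hth u S)
      exact Finset.sum_congr rfl fun m _ => abs_of_pos (Real.exp_pos _)) hε
  set W : ℝ := ∫ u : Fin n → ℝ, Real.exp (-(ε * ∑ i, |u i|)) with hW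
  have hWint := W_integrable (n := n) hε
  have hsingle : HasSum (fun m : Fin (n + 1 + 1) → ℤ => if m = 0 then f 0 * W else 0)
      (f 0 * W) := hasSum_ite_eq 0 (f 0 * W)
  have hb2 := hsingle.add (h2.2.2.mul_left (ε * C2))
  have hle : ∀ m : Fin (n + 1 + 1) → ℤ, ∫ u : Fin n → ℝ,
      Real.exp (-(ε * ∑ i, |u i|)) * f (act u (gv g m)) ≤ (if m = 0 then f 0 * W else 0) +
        ε * C2 * ∫ u : Fin n → ℝ, Real.exp (-(ε * ∑ i, |u i|)) *
          Real.exp (-(c2 * ∑ i, (act u (gv g m) i) ^ 2)) := by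
    intro m
    have hnn : 0 ≤ ε * C2 * ∫ u : Fin n → ℝ, Real.exp (-(ε * ∑ i, |u i|)) *
          Real.exp (-(c2 * ∑ i, (act u (gv g m) i) ^ 2)) := by
      refine mul_nonneg (by positivity) (integral_nonneg fun u => ?_)
      exact mul_nonneg (Real.exp_pos _).le (Real.exp_pos _).le
    by_cases hm : m = 0
    · rw [if_pos hm]
      have h3 : gv g m = 0 := by
        rw [hm]
        unfold gv
        funext i
        simp [Matrix.mulVec, dotProduct]
      have h4 : ∫ u : Fin n → ℝ, Real.exp (-(ε * ∑ i, |u i|)) * f (act u (gv g m)) =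
          f 0 * W := by
        rw [h3]
        simp only [act_zero]
        rw [integral_mul_const, mul_comm]
      rw [h4]
      linarith
    · rw [if_neg hm, zero_add]
      exact hterm f hf hb (gv g m) (hadm m hm) (hneg m hm) ε hε hε1
  have h5 := hasSum_le hle h1 hb2
  refine h5.trans ?_
  have h6 : ∫ u : Fin n → ℝ, Real.exp (-(ε * ∑ i, |u i|)) *
      ∑' m : Fin (n + 1 + 1) → ℤ, Real.exp (-(c2 * ∑ i, (act u (gv g m) i) ^ 2)) ≤ C3 * W := by
    rw [hW, ← integral_const_mul]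
    refine integral_mono h2.1 (hWint.const_mul C3) fun u => ?_
    show Real.exp (-(ε * ∑ i, |u i|)) *
      ∑' m : Fin (n + 1 + 1) → ℤ, Real.exp (-(c2 * ∑ i, (act u (gv g m) i) ^ 2)) ≤
        C3 * Real.exp (-(ε * ∑ i, |u i|))
    rw [mul_comm C3]
    refine mul_le_mul_of_nonneg_left ?_ (Real.exp_pos _).le
    exact (summable_of_sum_le (fun m => (Real.exp_pos _).le) (fun S => hth u S)).tsum_le_of_sum_le
      (fun S => hth u S)
  have h7 : ε * C2 * ∫ u : Fin n → ℝ, Real.exp (-(ε * ∑ i, |u i|)) *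
      ∑' m : Fin (n + 1 + 1) → ℤ, Real.exp (-(c2 * ∑ i, (act u (gv g m) i) ^ 2)) ≤
      ε * C2 * (C3 * W) := mul_le_mul_of_nonneg_left h6 (by positivity)
  calc _ ≤ f 0 * W + ε * C2 * (C3 * W) := by linarith
    _ = (f 0 + ε * (C2 * C3)) * W := by ring

end H49.SG
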