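import Pool.Agent.H49.SG.Act
import Pool.Agent.H49.SG.GE1
import Pool.Agent.H81.LP.ThetaBdd
import Pool.Agent.H81.LP.DualAdm

/-!
# Module BDD: boundedness of theta series, blocks

`Bd g`: all theta series of H81 (full diagonal group) are bounded.  `Bd2 g`: bounded on the averaging
group.  `Adm2 g`: the invariant `(x² + y²) ∏ |z_i|` is bounded below.  `Blk L a b c e`: `L` acts by
`[[a, b], [c, e]]` on the first two coordinates and trivially on the others.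

* `bd_of_adm`: `theta_bdd`.
* `bd_dual`: by `theta_fe` (as in `main_ineq`, `Pool/Agent/H81/LP/Main.lean`, the part `hbd'`):
  `Th (g⁻¹)ᵀ μ u = |det g| (√(μ⁻¹))^(n+1+1) Th g μ⁻¹ (-u)` is bounded, summability by
  `thTerm_summable` (`det (g⁻¹)ᵀ ≠ 0`).
* `adm_dual`: `dual_adm` with `lam = 1`.
* `blk_low`: `(a x + b y)² + (c x + e y)² ≥ κ (x² + y²)` with
  `κ = (a e - b c)²/(a² + b² + c² + e²) > 0`: for the matrix `P = [[a, b], [c, e]]` one has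
  `(a² + b² + c² + e²) |P v|² - (a e - b c)² |v|² = |PᵀP v|² ≥ 0` (Cayley-Hamilton for `PᵀP`); in
  coordinates: the left side is `(α x + β y)² + (β x + γ y)²` with `α = a² + c²`, `β = a b + c e`,
  `γ = b² + e²` (check by `ring`).
* `blk_bd`: for `L` a block: `thTerm (L * g) μ (up u) m ≤ thTerm g (μ min κ 1) (up u) m` by `thTerm_act`,
  `act_sq`, `blk_low`; so summability and the bound (`Summable.of_nonneg_of_le`, `tsum_le_tsum`).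
* `blk_adm`: with `x, y, z_i` the coordinates of `g m`, `c0 ≤ |x y| ∏ |z_i|`, so all are nonzero and
  `(x'² + y'²) ∏ |z_i| ≥ κ (x² + y²) ∏ |z_i| ≥ 2 κ |x y| ∏ |z_i| ≥ 2 κ c0`
  (`Fin.prod_univ_succ` twice, `Finset.abs_prod`).
-/

namespace H49.SG

open MeasureTheory H81.LP

/-- all theta series are bounded -/
def Bd {n : ℕ} (g : Matrix (Fin (n + 1 + 1)) (Fin (n + 1 + 1)) ℝ) : Prop :=
  ∀ μ : ℝ, 0 < μ → ∃ C : ℝ, ∀ u : Fin (n + 1) → ℝ, Summable (thTerm g μ u) ∧ Th g μ u ≤ C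

/-- the theta series are bounded on the averaging group -/
def Bd2 {n : ℕ} (g : Matrix (Fin (n + 1 + 1)) (Fin (n + 1 + 1)) ℝ) : Prop :=
  ∀ μ : ℝ, 0 < μ → ∃ C : ℝ, ∀ u : Fin n → ℝ, Summable (thTerm g μ (up u)) ∧ Th g μ (up u) ≤ C

/-- the invariant is bounded below -/
def Adm2 {n : ℕ} (g : Matrix (Fin (n + 1 + 1)) (Fin (n + 1 + 1)) ℝ) : Prop :=
  ∃ c : ℝ, 0 < c ∧ ∀ m : Fin (n + 1 + 1) → ℤ, m ≠ 0 →
    c ≤ (gv g m 0 ^ 2 + gv g m 1 ^ 2) * ∏ i : Fin n, |gv g m i.succ.succ|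

/-- block matrices -/
def Blk {n : ℕ} (L : Matrix (Fin (n + 1 + 1)) (Fin (n + 1 + 1)) ℝ) (a b c e : ℝ) : Prop :=
  ∀ y : Fin (n + 1 + 1) → ℝ, (L.mulVec y) 0 = a * y 0 + b * y 1 ∧
    (L.mulVec y) 1 = c * y 0 + e * y 1 ∧ ∀ i : Fin n, (L.mulVec y) i.succ.succ = y i.succ.succ

theorem bd_of_adm {n : ℕ} (g : Matrix (Fin (n + 1 + 1)) (Fin (n + 1 + 1)) ℝ)
    (hadm : ∀ m : Fin (n + 1 + 1) → ℤ, m ≠ 0 → 1 ≤ |∏ i, gv g m i|) : Bd g := by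
  intro μ hμ
  exact theta_bdd g hadm hμ

theorem bd_dual {n : ℕ} (g : Matrix (Fin (n + 1 + 1)) (Fin (n + 1 + 1)) ℝ) (hg : g.det ≠ 0)
    (h : Bd g) : Bd (g⁻¹).transpose := by
  intro μ hμ
  have hμ' : 0 < μ⁻¹ := inv_pos.mpr hμ
  obtain ⟨C, hC⟩ := h μ⁻¹ hμ'
  have hdet' : (g⁻¹).transpose.det ≠ 0 := by
    rw [Matrix.det_transpose]
    exact (Matrix.isUnit_nonsing_inv_det g (isUnit_iff_ne_zero.mpr hg)).ne_zero
  have h3 : 0 < √(μ⁻¹) := Real.sqrt_pos.mpr hμ'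
  have hg' : 0 < |g.det| := abs_pos.mpr hg
  refine ⟨|g.det| * (√(μ⁻¹)) ^ (n + 1 + 1) * C, fun u => ⟨thTerm_summable _ hdet' hμ u, ?_⟩⟩
  have h1 := theta_fe g hg hμ' (-u)
  rw [neg_neg, inv_inv] at h1
  have h2 := (hC (-u)).2
  rw [h1] at h2
  have h4 : 0 < |g.det| * (√(μ⁻¹)) ^ (n + 1 + 1) := by positivity
  calc Th (g⁻¹).transpose μ u = (|g.det| * (√(μ⁻¹)) ^ (n + 1 + 1)) *
        (|g.det|⁻¹ * ((√(μ⁻¹)) ^ (n + 1 + 1))⁻¹ * Th (g⁻¹).transpose μ u) := by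
        field_simp
    _ ≤ (|g.det| * (√(μ⁻¹)) ^ (n + 1 + 1)) * C := mul_le_mul_of_nonneg_left h2 h4.le

theorem adm_dual {n : ℕ} (g : Matrix (Fin (n + 1 + 1)) (Fin (n + 1 + 1)) ℝ) (h : Bd g) :
    ∃ c : ℝ, 0 < c ∧ ∀ m : Fin (n + 1 + 1) → ℤ, m ≠ 0 → c ≤ |∏ i, gv g m i| := by
  obtain ⟨C, hC⟩ := h 1 one_pos
  exact dual_adm g one_pos C hC

theorem blk_low {a b c e : ℝ} (hd : a * e - b * c ≠ 0) : ∃ κ : ℝ, 0 < κ ∧ ∀ x y : ℝ,
    κ * (x ^ 2 + y ^ 2) ≤ (a * x + b * y) ^ 2 + (c * x + e * y) ^ 2 := by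
  have hD : 0 < a ^ 2 + b ^ 2 + c ^ 2 + e ^ 2 := by
    by_contra hcon
    push Not at hcon
    have ha : a = 0 := by nlinarith [sq_nonneg a, sq_nonneg b, sq_nonneg c, sq_nonneg e]
    have hb : b = 0 := by nlinarith [sq_nonneg a, sq_nonneg b, sq_nonneg c, sq_nonneg e]
    apply hd
    rw [ha, hb]
    ring
  refine ⟨(a * e - b * c) ^ 2 / (a ^ 2 + b ^ 2 + c ^ 2 + e ^ 2), by positivity, fun x y => ?_⟩
  rw [div_mul_eq_mul_div, div_le_iff₀ hD]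
  have h1 : ((a * x + b * y) ^ 2 + (c * x + e * y) ^ 2) * (a ^ 2 + b ^ 2 + c ^ 2 + e ^ 2) -
      (a * e - b * c) ^ 2 * (x ^ 2 + y ^ 2) =
      ((a ^ 2 + c ^ 2) * x + (a * b + c * e) * y) ^ 2 +
      ((a * b + c * e) * x + (b ^ 2 + e ^ 2) * y) ^ 2 := by ring
  nlinarith [sq_nonneg ((a ^ 2 + c ^ 2) * x + (a * b + c * e) * y),
    sq_nonneg ((a * b + c * e) * x + (b ^ 2 + e ^ 2) * y)]

theorem blk_bd {n : ℕ} (g L : Matrix (Fin (n + 1 + 1)) (Fin (n + 1 + 1)) ℝ) {a b c e : ℝ}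
    (hd : a * e - b * c ≠ 0) (hL : Blk L a b c e) (h : Bd g) : Bd2 (L * g) := by
  obtain ⟨κ, hκ, hlow⟩ := blk_low hd
  intro μ hμ
  have hmin : 0 < min κ 1 := lt_min hκ one_pos
  obtain ⟨C, hC⟩ := h (μ * min κ 1) (mul_pos hμ hmin)
  have hle : ∀ (u : Fin n → ℝ) (m : Fin (n + 1 + 1) → ℤ),
      thTerm (L * g) μ (up u) m ≤ thTerm g (μ * min κ 1) (up u) m := by
    intro u m
    rw [thTerm_act, thTerm_act, Real.exp_le_exp, neg_le_neg_iff, act_sq, act_sq]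
    obtain ⟨h0, h1, h2⟩ := hL (gv g m)
    have e0 : gv (L * g) m = L.mulVec (gv g m) := by
      unfold gv
      rw [Matrix.mulVec_mulVec]
    rw [e0, h0, h1]
    simp only [h2]
    set v := gv g m with hv
    have h3 := hlow (v 0) (v 1)
    have hE : 0 < Real.exp (-∑ i, u i) := Real.exp_pos _
    have hS : 0 ≤ ∑ i, Real.exp (2 * u i) * (v i.succ.succ) ^ 2 :=
      Finset.sum_nonneg (fun i _ => by positivity)
    have h4 : min κ 1 * (v 0 ^ 2 + v 1 ^ 2) ≤ (a * v 0 + b * v 1) ^ 2 + (c * v 0 + e * v 1) ^ 2 :=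
      le_trans (mul_le_mul_of_nonneg_right (min_le_left _ _) (by positivity)) h3
    have h5 : min κ 1 * (Real.exp (-∑ i, u i) * (v 0 ^ 2 + v 1 ^ 2) +
        ∑ i, Real.exp (2 * u i) * (v i.succ.succ) ^ 2) ≤
        Real.exp (-∑ i, u i) * ((a * v 0 + b * v 1) ^ 2 + (c * v 0 + e * v 1) ^ 2) +
        ∑ i, Real.exp (2 * u i) * (v i.succ.succ) ^ 2 := by
      have h6 := mul_le_mul_of_nonneg_left h4 hE.le
      have h7 : min κ 1 * ∑ i, Real.exp (2 * u i) * (v i.succ.succ) ^ 2 ≤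
          1 * ∑ i, Real.exp (2 * u i) * (v i.succ.succ) ^ 2 :=
        mul_le_mul_of_nonneg_right (min_le_right _ _) hS
      rw [mul_add]
      have h8 : min κ 1 * (Real.exp (-∑ i, u i) * (v 0 ^ 2 + v 1 ^ 2)) =
          Real.exp (-∑ i, u i) * (min κ 1 * (v 0 ^ 2 + v 1 ^ 2)) := by ring
      rw [h8]
      linarith
    calc Real.pi * (μ * min κ 1) * (Real.exp (-∑ i, u i) * (v 0 ^ 2 + v 1 ^ 2) +
        ∑ i, Real.exp (2 * u i) * (v i.succ.succ) ^ 2) =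
        (Real.pi * μ) * (min κ 1 * (Real.exp (-∑ i, u i) * (v 0 ^ 2 + v 1 ^ 2) +
        ∑ i, Real.exp (2 * u i) * (v i.succ.succ) ^ 2)) := by ring
      _ ≤ _ := mul_le_mul_of_nonneg_left h5 (by positivity)
  refine ⟨C, fun u => ?_⟩
  have hs : Summable (thTerm (L * g) μ (up u)) :=
    Summable.of_nonneg_of_le (fun m => (Real.exp_pos _).le) (hle u) (hC (up u)).1
  refine ⟨hs, le_trans ?_ (hC (up u)).2⟩
  exact Summable.tsum_le_tsum (hle u) hs (hC (up u)).1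

theorem blk_adm {n : ℕ} (g L : Matrix (Fin (n + 1 + 1)) (Fin (n + 1 + 1)) ℝ) {a b c e : ℝ}
    (hd : a * e - b * c ≠ 0) (hL : Blk L a b c e)
    (h : ∃ c : ℝ, 0 < c ∧ ∀ m : Fin (n + 1 + 1) → ℤ, m ≠ 0 → c ≤ |∏ i, gv g m i|) :
    Adm2 (L * g) := by
  obtain ⟨κ, hκ, hlow⟩ := blk_low hd
  obtain ⟨c0, hc0, hadm⟩ := h
  refine ⟨2 * κ * c0, by positivity, fun m hm => ?_⟩
  obtain ⟨h0, h1, h2⟩ := hL (gv g m)
  have e0 : gv (L * g) m = L.mulVec (gv g m) := by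
    unfold gv
    rw [Matrix.mulVec_mulVec]
  rw [e0, h0, h1]
  simp only [h2]
  have h3 := hadm m hm
  set v := gv g m with hv
  rw [Fin.prod_univ_succ, Fin.prod_univ_succ, abs_mul, abs_mul, Finset.abs_prod] at h3
  have h4 := hlow (v 0) (v 1)
  set Z := ∏ i : Fin n, |v i.succ.succ| with hZ
  have hZ0 : 0 ≤ Z := Finset.prod_nonneg (fun i _ => abs_nonneg _)
  have h5 : 2 * (|v 0| * |v 1|) ≤ v 0 ^ 2 + v 1 ^ 2 := by
    have := two_mul_le_add_sq (|v 0|) (|v 1|)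
    rw [sq_abs, sq_abs] at this
    linarith
  have h6 : c0 ≤ |v 0| * (|v 1| * Z) := h3
  calc 2 * κ * c0 ≤ 2 * κ * (|v 0| * (|v 1| * Z)) := by gcongr
    _ = κ * (2 * (|v 0| * |v 1|)) * Z := by ring
    _ ≤ κ * (v 0 ^ 2 + v 1 ^ 2) * Z := by gcongr
    _ ≤ ((a * v 0 + b * v 1) ^ 2 + (c * v 0 + e * v 1) ^ 2) * Z := by gcongr

end H49.SG
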