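import Pool.Agent.H89.Kept.FiniteOrUncountable
import Pool.Agent.H89.CSD.Mink

/-!
# Finitely many classes, extremal products of linear forms
-/

namespace H49.SG

open Pool.Agent.Results.MP_edeaa2_an.FiniteOrUncountable Pool.Agent.H89.CSD Matrix Filter Topology

theorem AtLeast.mono {d : ℕ} {c c' : ℝ} {g : Matrix (Fin d) (Fin d) ℝ} (h : AtLeast c g)
    (hc : c' ≤ c) : AtLeast c' g := by
  refine ⟨h.1, fun x hx => le_trans ?_ (h.2 x hx)⟩
  exact mul_le_mul_of_nonneg_right hc (abs_nonneg _)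

theorem AtLeast.le_two {d : ℕ} (hd : 0 < d) {c : ℝ} {g : Matrix (Fin d) (Fin d) ℝ}
    (h : AtLeast c g) : c ≤ 2 := by
  obtain ⟨hg, hx⟩ := h
  have hD : 0 < |g.det| := abs_pos.mpr hg
  set τ : ℝ := (2 * |g.det|) ^ ((d : ℝ))⁻¹ with hτ
  have hτ0 : 0 < τ := Real.rpow_pos_of_pos (by positivity) _
  have hτd : τ ^ d = 2 * |g.det| := Real.rpow_inv_natCast_pow (by positivity) hd.ne'
  obtain ⟨x, hx0, hxl⟩ := minkowski_forms g hg (fun _ => τ) (fun _ => hτ0) (by
    rw [Finset.prod_const, Finset.card_univ, Fintype.card_fin, hτd]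
    linarith)
  have h1 := hx x hx0
  rw [Finset.abs_prod] at h1
  have h2 : ∏ i : Fin d, |∑ j, g i j * (x j : ℝ)| ≤ ∏ _i : Fin d, τ :=
    Finset.prod_le_prod (fun i _ => abs_nonneg _) (fun i _ => hxl i)
  rw [Finset.prod_const, Finset.card_univ, Fintype.card_fin, hτd] at h2
  by_contra hcon
  push Not at hcon
  have h3 : 2 * |g.det| < c * |g.det| := mul_lt_mul_of_pos_right hcon hD
  linarith

/-- finitely many classes -/
theorem classes {d : ℕ} (hd : 3 ≤ d) {c : ℝ} (hc : 0 < c)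
    (h : ∀ g : Matrix (Fin d) (Fin d) ℝ, AtLeast c g → Integral g) :
    ∃ S : Finset (Matrix (Fin d) (Fin d) ℝ), (∀ h ∈ S, AtLeast c h) ∧
      ∀ g : Matrix (Fin d) (Fin d) ℝ, AtLeast c g → Integral g ∧ ∃ h ∈ S, Equivalent g h := by
  rcases Pool.Agent.Results.MP_edeaa2_an.FiniteOrUncountable.result d hd c hc with h1 | h1
  · exact h1
  · obtain ⟨g, h2, h3, -⟩ := h1 (fun _ => 1)
    exact absurd (h g h2) h3

/-- normalisation: determinant one and bounded entries -/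
theorem exists_norm {d : ℕ} (hd : 0 < d) {ρ : ℝ} (hρ : 0 < ρ) : ∃ R : ℝ, ∀ (c : ℝ)
    (g : Matrix (Fin d) (Fin d) ℝ), ρ ≤ c → AtLeast c g → ∃ z ∈ KK d R 1 1, Pos c z := by
  obtain ⟨R, hR0, hR⟩ := mahler d (min ρ 1) 1 1 (lt_min hρ one_pos) one_pos zero_le_one
  refine ⟨R, fun c g hc hg => ?_⟩
  obtain ⟨hg0, hgm⟩ := hg
  have hdg : 0 < |g.det| := abs_pos.2 hg0
  set i0 : Fin d := ⟨0, hd⟩ with hi0
  set b : Fin d → ℝ := Function.update 1 i0 |g.det|⁻¹ with hb
  have hbprod : ∏ i, b i = |g.det|⁻¹ := by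
    rw [← Finset.mul_prod_erase _ _ (Finset.mem_univ i0)]
    rw [Finset.prod_eq_one (fun i hi => by simp [hb, Finset.ne_of_mem_erase hi]), mul_one]
    simp [hb]
  set g' : Matrix (Fin d) (Fin d) ℝ := diagonal b * g with hg'
  have hg'det : |g'.det| = 1 := by
    rw [hg', Matrix.det_mul, Matrix.det_diagonal, hbprod, abs_mul, abs_inv, abs_abs,
      inv_mul_cancel₀ hdg.ne']
  have hg'P : ∀ x, P g' x = |g.det|⁻¹ * P g x := by
    intro x
    rw [hg', P_diag_mul, hbprod]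
  have hg'pos : Pos c g' := by
    intro x hx
    rw [hg'P, abs_mul, abs_inv, abs_abs, inv_mul_eq_div, le_div_iff₀ hdg]
    exact hgm x hx
  have hg'pos2 : Pos ρ g' := fun x hx => hc.trans (hg'pos x hx)
  obtain ⟨U, hU⟩ := hR g' hg'det.ge hg'det.le (fun x hx => hg'pos2.short hx)
  refine ⟨g' * im (U : Matrix (Fin d) (Fin d) ℤ), ?_, hg'pos.mul_im (det_unit_ne U)⟩
  have h1 : |(g' * im (U : Matrix (Fin d) (Fin d) ℤ)).det| = 1 := by
    rw [Matrix.det_mul, abs_mul, abs_det_im_unit, mul_one, hg'det]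
  exact ⟨hU, h1.ge, h1.le⟩

/-- there is a product of linear forms with the largest normalised minimum -/
theorem extremal {d : ℕ} (hd : 0 < d) : ∃ g : Matrix (Fin d) (Fin d) ℝ, g.det ≠ 0 ∧
    ∀ (g' : Matrix (Fin d) (Fin d) ℝ) (c : ℝ), AtLeast c g' → AtLeast c g := by
  set S : Set ℝ := {c | ∃ g : Matrix (Fin d) (Fin d) ℝ, AtLeast c g} with hS
  have h0 : (0 : ℝ) ∈ S := by
    refine ⟨1, by simp, fun x _ => ?_⟩
    rw [zero_mul]
    exact abs_nonneg _
  have hbdd : BddAbove S := ⟨2, by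
    rintro c ⟨g, hg⟩
    exact AtLeast.le_two hd hg⟩
  set M := sSup S with hM
  have hM0 : 0 ≤ M := le_csSup hbdd h0
  have hle : ∀ (g' : Matrix (Fin d) (Fin d) ℝ) (c : ℝ), AtLeast c g' → c ≤ M := fun g' c h =>
    le_csSup hbdd ⟨g', h⟩
  rcases hM0.eq_or_lt with hM1 | hM1
  · refine ⟨1, by simp, fun g' c h => ⟨by simp, fun x _ => ?_⟩⟩
    have h1 := hle g' c h
    rw [← hM1] at h1
    exact (mul_nonpos_of_nonpos_of_nonneg h1 (abs_nonneg _)).trans (abs_nonneg _)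
  · obtain ⟨R, hR⟩ := exists_norm hd (half_pos hM1)
    have hex : ∀ n : ℕ, ∃ z ∈ KK d R 1 1, Pos (M - M / 2 / (n + 1)) z := by
      intro n
      have hn : (0 : ℝ) < n + 1 := by positivity
      have h1 : M / 2 / ((n : ℝ) + 1) ≤ M / 2 := by
        apply div_le_self (by positivity)
        have : (0 : ℝ) ≤ n := Nat.cast_nonneg n
        linarith
      have h2 : 0 < M / 2 / ((n : ℝ) + 1) := by positivity
      obtain ⟨c, ⟨g, hg⟩, hc⟩ := exists_lt_of_lt_csSup ⟨0, h0⟩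
        (show M - M / 2 / ((n : ℝ) + 1) < M by linarith)
      exact hR _ g (by linarith) (AtLeast.mono hg hc.le)
    choose z hz1 hz2 using hex
    obtain ⟨w, hw, φ, hφ, hlim⟩ := (isCompact_KK R 1 1).tendsto_subseq hz1
    have hwdet : |w.det| = 1 := le_antisymm hw.2.2 hw.2.1
    have hwP : ∀ c' < M, Pos c' w := by
      intro c' hc'
      apply (isClosed_pos c').mem_of_tendsto hlim
      have h3 : Tendsto (fun n : ℕ => M - M / 2 / ((φ n : ℝ) + 1)) atTop (𝓝 M) := by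
        have h4 : Tendsto (fun n : ℕ => M / 2 / ((n : ℝ) + 1)) atTop (𝓝 0) :=
          tendsto_const_div_atTop_nhds_zero_nat (M / 2) |>.comp (tendsto_add_atTop_nat 1) |>.congr
            (fun n => by simp)
        have h5 := (h4.comp hφ.tendsto_atTop).const_sub M
        simpa using h5
      filter_upwards [h3.eventually (lt_mem_nhds hc')] with n hn
      exact fun x hx => hn.le.trans (hz2 (φ n) x hx)
    refine ⟨w, ?_, fun g' c h => ⟨?_, fun x hx => ?_⟩⟩
    · intro h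
      rw [h, abs_zero] at hwdet
      exact zero_ne_one hwdet
    · intro h
      rw [h, abs_zero] at hwdet
      exact zero_ne_one hwdet
    · rw [hwdet, mul_one]
      apply (hle g' c h).trans
      apply le_of_forall_lt
      intro c' hc'
      obtain ⟨c'', h6, h7⟩ := exists_between hc'
      exact h6.trans_le (hwP c'' h7 x hx)

/-- the statement for one dimension -/
theorem summary {d : ℕ} (hd : 3 ≤ d) {B D : ℝ} (hB : 0 < B) (hD : 0 < D) (hDB : D ≤ B)
    (h : ∀ g : Matrix (Fin d) (Fin d) ℝ, g.det ≠ 0 → ¬ Integral g →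
      ∃ x : Fin d → ℤ, x ≠ 0 ∧ |∏ i : Fin d, ∑ j : Fin d, g i j * (x j : ℝ)| < |g.det| / B)
    (g0 : Matrix (Fin d) (Fin d) ℝ) (hg0 : AtLeast (1 / D) g0) :
    (∃ S : Finset (Matrix (Fin d) (Fin d) ℝ), (∀ h ∈ S, AtLeast (1 / B) h) ∧
      ∀ g : Matrix (Fin d) (Fin d) ℝ, AtLeast (1 / B) g → Integral g ∧ ∃ h ∈ S, Equivalent g h) ∧
    (∃ g : Matrix (Fin d) (Fin d) ℝ, g.det ≠ 0 ∧
      ∀ (g' : Matrix (Fin d) (Fin d) ℝ) (c : ℝ), AtLeast c g' → AtLeast c g) ∧
    ∀ g : Matrix (Fin d) (Fin d) ℝ, g.det ≠ 0 →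
      (∀ (g' : Matrix (Fin d) (Fin d) ℝ) (c : ℝ), AtLeast c g' → AtLeast c g) → Integral g := by
  have hI : ∀ g : Matrix (Fin d) (Fin d) ℝ, AtLeast (1 / B) g → Integral g := by
    intro g hg
    by_contra hcon
    obtain ⟨x, hx, hlt⟩ := h g hg.1 hcon
    have h1 := hg.2 x hx
    rw [one_div, inv_mul_eq_div] at h1
    linarith
  refine ⟨classes hd (by positivity) hI, extremal (by omega), fun g hg hext => ?_⟩
  exact hI g (AtLeast.mono (hext g0 _ hg0) (one_div_le_one_div_of_le hD hDB))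

end H49.SG
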