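import Pool.Agent.H49.SG.Act

/-!
# Module REDB: the average of the test function

Let `κ = x_0² + x_1² > 0`, `z_i = |x_(i+2)| > 0`, `ρ = x_0²/κ`, `p = (√π)^(n+2) κ ∏ z_i`.  Substitute
`v_i = 2 u_i + log (π z_i²)` in the integral over `u` (`Measure.integral_comp_smul` and translation, as in
`K_eq_En` of `Pool/Agent/H81/LP/EnK.lean`): `exp (v_i) = π z_i² exp (2 u_i)`, and
`p exp (-(∑ v_i)/2) = p exp (-∑ u_i) ∏ (√π z_i)⁻¹ = π κ exp (-∑ u_i)`.  With `X = exp (-(∑ u)/2)`: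
`π (act u x 0)² = π x_0² exp (-∑ u) = ρ p exp (-(∑ v)/2)`,
`π (act u x 1)² = (1 - ρ) p exp (-(∑ v)/2)`, and by `act_sq`
`π ∑ (act u x i)² = p exp (-(∑ v)/2) + ∑ exp (v_i)`.  So the integral over `u` is `2^(-n)` times `Jn n … p`.
-/

namespace H49.SG

open MeasureTheory H81.LP

private theorem rb_log {z : ℝ} (hz : 0 < |z|) :
    Real.exp (-Real.log (Real.pi * z ^ 2) / 2) = (√Real.pi * |z|)⁻¹ := by
  have hpi := Real.pi_pos
  have h1 : Real.pi * z ^ 2 = (√Real.pi * |z|) ^ 2 := by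
    rw [mul_pow, Real.sq_sqrt hpi.le, sq_abs]
  have h2 : 0 < √Real.pi * |z| := mul_pos (Real.sqrt_pos.2 hpi) hz
  rw [h1, Real.log_pow]
  have h3 : -(((2 : ℕ) : ℝ) * Real.log (√Real.pi * |z|)) / 2 = -Real.log (√Real.pi * |z|) := by
    push_cast
    ring
  rw [h3, Real.exp_neg, Real.exp_log h2]

theorem fq_avg {n : ℕ} (K : ℕ) (h : ℕ → ℕ → ℚ) (x : Fin (n + 1 + 1) → ℝ)
    (hx : 0 < (x 0 ^ 2 + x 1 ^ 2) * ∏ i : Fin n, |x i.succ.succ|) :
    ∫ u : Fin n → ℝ, fq K h (act u x) = (1 / 2) ^ n *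
      Jn n (fun z => qf K h (x 0 ^ 2 / (x 0 ^ 2 + x 1 ^ 2) * z) (x 1 ^ 2 / (x 0 ^ 2 + x 1 ^ 2) * z) *
        Real.exp (-z))
        ((√Real.pi) ^ (n + 2) * ((x 0 ^ 2 + x 1 ^ 2) * ∏ i : Fin n, |x i.succ.succ|)) := by
  have hpi := Real.pi_pos
  have hsp : 0 < √Real.pi := Real.sqrt_pos.2 hpi
  obtain ⟨κ, hκ⟩ : ∃ κ, κ = x 0 ^ 2 + x 1 ^ 2 := ⟨_, rfl⟩
  rw [← hκ] at hx ⊢
  have hP0 : 0 ≤ ∏ i : Fin n, |x i.succ.succ| := Finset.prod_nonneg fun i _ => abs_nonneg _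
  have hκ0 : 0 < κ := by
    have h1 : 0 ≤ κ := by
      rw [hκ]
      positivity
    rcases h1.lt_or_eq with h2 | h2
    · exact h2
    · rw [← h2, zero_mul] at hx
      exact absurd hx (lt_irrefl _)
  have hz : ∀ i : Fin n, 0 < |x i.succ.succ| := by
    intro i
    rw [abs_pos]
    intro h0
    have h1 : ∏ i : Fin n, |x i.succ.succ| = 0 :=
      Finset.prod_eq_zero (Finset.mem_univ i) (by rw [h0, abs_zero])
    rw [h1, mul_zero] at hx
    exact lt_irrefl _ hx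
  obtain ⟨φ, hφ⟩ : ∃ φ : ℝ → ℝ, φ = fun z => qf K h (x 0 ^ 2 / κ * z) (x 1 ^ 2 / κ * z) *
    Real.exp (-z) := ⟨_, rfl⟩
  rw [← hφ]
  obtain ⟨p, hp⟩ : ∃ p : ℝ, p = (√Real.pi) ^ (n + 2) * (κ * ∏ i : Fin n, |x i.succ.succ|) :=
    ⟨_, rfl⟩
  rw [← hp]
  obtain ⟨F, hF⟩ : ∃ F : (Fin n → ℝ) → ℝ, F = fun v =>
    Real.exp (-∑ i, Real.exp (v i)) * φ (p * Real.exp (-(∑ i, v i) / 2)) := ⟨_, rfl⟩
  have hJ : Jn n φ p = ∫ v, F v := by
    rw [hF]
    rfl
  obtain ⟨c, hc⟩ : ∃ c : Fin n → ℝ, c = fun i => Real.log (Real.pi * x i.succ.succ ^ 2) :=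
    ⟨_, rfl⟩
  have h1 : ∫ u : Fin n → ℝ, F ((2 : ℝ) • u + c) = |((2 : ℝ) ^ n)⁻¹| * ∫ v, F v := by
    have h := Measure.integral_comp_smul (volume : Measure (Fin n → ℝ))
      (fun v => F (v + c)) 2
    rw [Module.finrank_fin_fun, smul_eq_mul] at h
    rw [h]
    congr 1
    exact integral_add_right_eq_self (μ := (volume : Measure (Fin n → ℝ))) F _
  have h2 : ∀ u : Fin n → ℝ, F ((2 : ℝ) • u + c) = fq K h (act u x) := by
    intro u
    have e1 : ∀ i, Real.exp (((2 : ℝ) • u + c) i) =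
        Real.pi * (Real.exp (2 * u i) * x i.succ.succ ^ 2) := by
      intro i
      rw [Pi.add_apply, Pi.smul_apply, smul_eq_mul, Real.exp_add, hc]
      have h3 : 0 < Real.pi * x i.succ.succ ^ 2 := by
        have := hz i
        rw [← sq_abs]
        positivity
      rw [Real.exp_log h3]
      ring
    have e2 : p * Real.exp (-(∑ i, ((2 : ℝ) • u + c) i) / 2) =
        Real.pi * κ * Real.exp (-∑ i, u i) := by
      have h3 : -(∑ i, ((2 : ℝ) • u + c) i) / 2 =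
          -∑ i, u i + ∑ i, (-c i / 2) := by
        simp only [Pi.add_apply, Pi.smul_apply, smul_eq_mul]
        rw [Finset.sum_add_distrib, ← Finset.mul_sum, ← Finset.sum_div, Finset.sum_neg_distrib]
        ring
      rw [h3, Real.exp_add, Real.exp_sum]
      have h4 : ∏ i, Real.exp (-c i / 2) = ((√Real.pi) ^ n)⁻¹ * (∏ i : Fin n, |x i.succ.succ|)⁻¹ := by
        rw [← Finset.prod_inv_distrib]
        have h5 : ((√Real.pi) ^ n)⁻¹ = ∏ _i : Fin n, (√Real.pi)⁻¹ := by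
          rw [Finset.prod_const, Finset.card_univ, Fintype.card_fin, inv_pow]
        rw [h5, ← Finset.prod_mul_distrib]
        refine Finset.prod_congr rfl fun i _ => ?_
        rw [hc, rb_log (hz i), mul_inv]
      rw [h4, hp]
      have h6 : (√Real.pi) ^ (n + 2) = (√Real.pi) ^ n * Real.pi := by
        rw [pow_add, Real.sq_sqrt hpi.le]
      rw [h6]
      have h7 : (√Real.pi) ^ n ≠ 0 := by positivity
      have h8 : ∏ i : Fin n, |x i.succ.succ| ≠ 0 :=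
        (Finset.prod_pos fun i _ => hz i).ne'
      field_simp
    have e3 : (Real.exp (-(∑ i, u i) / 2)) ^ 2 = Real.exp (-∑ i, u i) := by
      rw [← Real.exp_nat_mul]
      congr 1
      push_cast
      ring
    rw [hF]
    show Real.exp (-∑ i, Real.exp (((2 : ℝ) • u + c) i)) *
      φ (p * Real.exp (-(∑ i, ((2 : ℝ) • u + c) i) / 2)) = _
    simp only [e1]
    rw [e2, hφ]
    unfold fq
    rw [act_sq, act_zero_apply, act_one_apply, mul_pow, mul_pow, e3, ← hκ]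
    have a1 : x 0 ^ 2 / κ * (Real.pi * κ * Real.exp (-∑ i, u i)) =
        Real.pi * (Real.exp (-∑ i, u i) * x 0 ^ 2) := by
      field_simp
    have a2 : x 1 ^ 2 / κ * (Real.pi * κ * Real.exp (-∑ i, u i)) =
        Real.pi * (Real.exp (-∑ i, u i) * x 1 ^ 2) := by
      field_simp
    show Real.exp (-∑ i, Real.pi * (Real.exp (2 * u i) * x i.succ.succ ^ 2)) *
      (qf K h (x 0 ^ 2 / κ * (Real.pi * κ * Real.exp (-∑ i, u i)))
        (x 1 ^ 2 / κ * (Real.pi * κ * Real.exp (-∑ i, u i))) *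
        Real.exp (-(Real.pi * κ * Real.exp (-∑ i, u i)))) = _
    rw [a1, a2, mul_left_comm, ← Real.exp_add]
    congr 2
    rw [← Finset.mul_sum]
    ring
  simp only [h2] at h1
  rw [h1, hJ, abs_of_pos (by positivity)]
  congr 1
  rw [one_div, inv_pow]

end H49.SG
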