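import Pool.Agent.H49.SG.MainB
import Pool.Agent.H49.SG.RedB

/-!
# Module CONDUSE: the linear programming inequality for shear-admissible lattices

Let `s = (√π)^(n+2)`, `α = √(A/(2 s))`, `β = √(B/(2 s))`, and let `L` be the matrix
`diag (2 α, β, 1, …, 1) (1 + (1/2) e_{01})` (`Matrix.diagonal (Fin.cons (2 * α) (Fin.cons β fun _ => 1)) *
(1 + Matrix.single 0 1 (1 / 2))`): `Blk L (2 α) α 0 β`, `det L = 2 α β`
(`Matrix.det_transvection_of_ne`), `(L⁻¹)ᵀ = diag (1/(2α), 1/β, 1, …) (1 - (1/2) e_{10})` is a block with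
`(1/(2α), 0, -1/(2β), 1/β)`.  The lattice `G = L * g` has
`(G⁻¹)ᵀ = (L⁻¹)ᵀ * (g⁻¹)ᵀ`.  `Bd2`, `Adm2` for both: `blk_bd`, `blk_adm`, `bd_of_adm`, `bd_dual`, `adm_dual`.
`mainB` for `G` gives `hat K h 0 0 ≤ |det G| h 0 0 = 2 α β |det g| h 0 0 = √(A B)/s |det g| h 0 0`.

`hP`: let `x, y, z_i` be the coordinates of `g m`, `m ≠ 0`, `R = ∏ |z_i|`; by `hadm`, `hadm2`:
`|x| |y| R ≥ 1` and `|x + y| |y| R ≥ 1`, all nonzero.  The coordinates of `G m` are
`X0 = α (2 x + y)`, `X1 = β y`, `z_i`.  Let `r = |2 x + y|/|y|`.  Then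
`|r - 1| |y| = ||2x + y| - |y|| = 2 min (|x|, |x + y|)` (cases of signs; or
`(2x+y)² - y² = 4 x (x + y)`, `||a| - |b|| = min (|a-b|, |a+b|)`), so `|r - 1| y² R ≥ 2`, `r ≠ 1`, and
`p = s (X0² + X1²) R = (1/2)(A r² + B) y² R ≥ (A r² + B)/|r - 1|`;
`X0²/(X0² + X1²) = A r²/(A r² + B)`.  So `fq_avg` and `h.prim` give `hP`.
`hD`: `fq_avg` and `h.dual` with `ρ = x_0²/(x_0² + x_1²)`.
-/

namespace H49.SG

open MeasureTheory H81.LP

/-- the diagonal -/
private noncomputable def cu_d {n : ℕ} (a b : ℝ) : Fin (n + 1 + 1) → ℝ :=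
  Fin.cons a (Fin.cons b fun _ => 1)

/-- the upper block -/
private noncomputable def cu_L (n : ℕ) (a b c : ℝ) :
    Matrix (Fin (n + 1 + 1)) (Fin (n + 1 + 1)) ℝ :=
  Matrix.diagonal (cu_d a b) * Matrix.transvection 0 1 c

/-- the lower block -/
private noncomputable def cu_R (n : ℕ) (a b c : ℝ) :
    Matrix (Fin (n + 1 + 1)) (Fin (n + 1 + 1)) ℝ :=
  Matrix.diagonal (cu_d a b) * Matrix.transvection 1 0 c

private theorem cu_d_prod {n : ℕ} (a b : ℝ) : ∏ i, cu_d (n := n) a b i = a * b := by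
  rw [Fin.prod_univ_succ, Fin.prod_univ_succ]
  simp [cu_d]

private theorem cu_L_blk (n : ℕ) (a b c : ℝ) : Blk (cu_L n a b c) a (a * c) 0 b := by
  intro y
  have h1 : (cu_L n a b c).mulVec y = fun i => cu_d a b i *
      (y i + Function.update (0 : Fin (n + 1 + 1) → ℝ) 0 (c * y 1) i) := by
    unfold cu_L Matrix.transvection
    rw [← Matrix.mulVec_mulVec, Matrix.add_mulVec, Matrix.one_mulVec, Matrix.single_mulVec]
    ext i
    rw [Matrix.mulVec_diagonal]
    rfl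
  rw [h1]
  refine ⟨?_, ?_, fun i => ?_⟩
  · simp [cu_d]
    ring
  · have h2 : (1 : Fin (n + 1 + 1)) = Fin.succ 0 := rfl
    have h3 : Function.update (0 : Fin (n + 1 + 1) → ℝ) 0 (c * y 1) 1 = 0 := by
      rw [Function.update_of_ne (by rw [h2]; exact Fin.succ_ne_zero _)]
      rfl
    have h4 : cu_d (n := n) a b 1 = b := by
      rw [h2]
      simp [cu_d]
    show cu_d a b 1 * (y 1 + Function.update (0 : Fin (n + 1 + 1) → ℝ) 0 (c * y 1) 1) = _
    rw [h3, h4]
    ring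
  · have h3 : Function.update (0 : Fin (n + 1 + 1) → ℝ) 0 (c * y 1) i.succ.succ = 0 := by
      rw [Function.update_of_ne (Fin.succ_ne_zero _)]
      rfl
    have h4 : cu_d (n := n) a b i.succ.succ = 1 := by
      simp [cu_d]
    show cu_d a b i.succ.succ *
      (y i.succ.succ + Function.update (0 : Fin (n + 1 + 1) → ℝ) 0 (c * y 1) i.succ.succ) = _
    rw [h3, h4]
    ring

private theorem cu_R_blk (n : ℕ) (a b c : ℝ) : Blk (cu_R n a b c) a 0 (b * c) b := by
  intro y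
  have h1 : (cu_R n a b c).mulVec y = fun i => cu_d a b i *
      (y i + Function.update (0 : Fin (n + 1 + 1) → ℝ) 1 (c * y 0) i) := by
    unfold cu_R Matrix.transvection
    rw [← Matrix.mulVec_mulVec, Matrix.add_mulVec, Matrix.one_mulVec, Matrix.single_mulVec]
    ext i
    rw [Matrix.mulVec_diagonal]
    rfl
  rw [h1]
  have h2 : (1 : Fin (n + 1 + 1)) = Fin.succ 0 := rfl
  refine ⟨?_, ?_, fun i => ?_⟩
  · have h3 : Function.update (0 : Fin (n + 1 + 1) → ℝ) 1 (c * y 0) 0 = 0 := by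
      rw [Function.update_of_ne (by rw [h2]; exact (Fin.succ_ne_zero _).symm)]
      rfl
    have h4 : cu_d (n := n) a b 0 = a := by
      simp [cu_d]
    show cu_d a b 0 * (y 0 + Function.update (0 : Fin (n + 1 + 1) → ℝ) 1 (c * y 0) 0) = _
    rw [h3, h4]
    ring
  · have h4 : cu_d (n := n) a b 1 = b := by
      rw [h2]
      simp [cu_d]
    show cu_d a b 1 * (y 1 + Function.update (0 : Fin (n + 1 + 1) → ℝ) 1 (c * y 0) 1) = _
    rw [Function.update_self, h4]
    ring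
  · have h3 : Function.update (0 : Fin (n + 1 + 1) → ℝ) 1 (c * y 0) i.succ.succ = 0 := by
      rw [Function.update_of_ne (by rw [h2]; exact fun h => Fin.succ_ne_zero _ (Fin.succ_injective _ h))]
      rfl
    have h4 : cu_d (n := n) a b i.succ.succ = 1 := by
      simp [cu_d]
    show cu_d a b i.succ.succ *
      (y i.succ.succ + Function.update (0 : Fin (n + 1 + 1) → ℝ) 1 (c * y 0) i.succ.succ) = _
    rw [h3, h4]
    ring

private theorem cu_L_det (n : ℕ) (a b c : ℝ) : (cu_L n a b c).det = a * b := by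
  unfold cu_L
  rw [Matrix.det_mul, Matrix.det_diagonal, cu_d_prod,
    Matrix.det_transvection_of_ne _ _ (by
      have h2 : (1 : Fin (n + 1 + 1)) = Fin.succ 0 := rfl
      rw [h2]
      exact (Fin.succ_ne_zero _).symm), mul_one]

private theorem cu_L_inv (n : ℕ) {a b : ℝ} (ha : a ≠ 0) (hb : b ≠ 0) (c : ℝ) :
    ((cu_L n a b c)⁻¹).transpose = cu_R n a⁻¹ b⁻¹ (-c) := by
  have h01 : (0 : Fin (n + 1 + 1)) ≠ 1 := by
    have h2 : (1 : Fin (n + 1 + 1)) = Fin.succ 0 := rfl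
    rw [h2]
    exact (Fin.succ_ne_zero _).symm
  have h1 : cu_L n a b c * (Matrix.transvection 0 1 (-c) * Matrix.diagonal (cu_d a⁻¹ b⁻¹)) = 1 := by
    unfold cu_L
    rw [Matrix.mul_assoc, ← Matrix.mul_assoc (Matrix.transvection 0 1 c),
      Matrix.transvection_mul_transvection_same _ _ h01, add_neg_cancel,
      Matrix.transvection_zero, Matrix.one_mul, Matrix.diagonal_mul_diagonal]
    rw [← Matrix.diagonal_one]
    congr 1
    funext i
    refine Fin.cases ?_ (fun i => ?_) i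
    · simp [cu_d, ha]
    · refine Fin.cases ?_ (fun i => ?_) i
      · simp [cu_d, hb]
      · simp [cu_d]
  rw [Matrix.inv_eq_right_inv h1, Matrix.transpose_mul, Matrix.diagonal_transpose]
  unfold cu_R Matrix.transvection
  rw [Matrix.transpose_add, Matrix.transpose_one, Matrix.transpose_single]

private theorem cu_gv {d : ℕ} (L g : Matrix (Fin d) (Fin d) ℝ) (m : Fin d → ℤ) :
    gv (L * g) m = L.mulVec (gv g m) := by
  unfold gv
  rw [Matrix.mulVec_mulVec]

/-- the geometric fact -/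
private theorem cu_min {x y R : ℝ} (hR : 0 ≤ R) (h1 : 1 ≤ |x| * |y| * R)
    (h2 : 1 ≤ |x + y| * |y| * R) : 2 ≤ |(|2 * x + y| - |y|)| * |y| * R := by
  have h3 : 2 * |x| ≤ |(|2 * x + y| - |y|)| ∨ 2 * |x + y| ≤ |(|2 * x + y| - |y|)| := by
    rcases le_total 0 (2 * x + y) with a | a <;> rcases le_total 0 y with b | b
    · left
      rw [abs_of_nonneg a, abs_of_nonneg b]
      have : 2 * x + y - y = 2 * x := by ring
      rw [this, abs_mul, abs_two]
    · right
      rw [abs_of_nonneg a, abs_of_nonpos b]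
      have : 2 * x + y - -y = 2 * (x + y) := by ring
      rw [this, abs_mul, abs_two]
    · right
      rw [abs_of_nonpos a, abs_of_nonneg b]
      have : -(2 * x + y) - y = -(2 * (x + y)) := by ring
      rw [this, abs_neg, abs_mul, abs_two]
    · left
      rw [abs_of_nonpos a, abs_of_nonpos b]
      have : -(2 * x + y) - -y = -(2 * x) := by ring
      rw [this, abs_neg, abs_mul, abs_two]
  have hyR : 0 ≤ |y| * R := mul_nonneg (abs_nonneg _) hR
  rcases h3 with h3 | h3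
  · have := mul_le_mul_of_nonneg_right h3 hyR
    nlinarith
  · have := mul_le_mul_of_nonneg_right h3 hyR
    nlinarith

theorem cond_ineq {n K : ℕ} {h : ℕ → ℕ → ℚ} {A B : ℝ} (hc : CondB n K h A B)
    (g : Matrix (Fin (n + 1 + 1)) (Fin (n + 1 + 1)) ℝ) (hg : g.det ≠ 0)
    (hadm : ∀ m : Fin (n + 1 + 1) → ℤ, m ≠ 0 → 1 ≤ |∏ i, gv g m i|)
    (hadm2 : ∀ m : Fin (n + 1 + 1) → ℤ, m ≠ 0 →
      1 ≤ |(gv g m 0 + gv g m 1) * ∏ i : Fin (n + 1), gv g m i.succ|) :
    (hat K h 0 0 : ℝ) * (√Real.pi) ^ (n + 2) ≤ |g.det| * √(A * B) * (h 0 0 : ℝ) := by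
  have hA := hc.hA
  have hB := hc.hB
  have hpi := Real.pi_pos
  obtain ⟨s, hs⟩ : ∃ s : ℝ, s = (√Real.pi) ^ (n + 2) := ⟨_, rfl⟩
  have hs0 : 0 < s := by
    rw [hs]
    positivity
  obtain ⟨α, hα⟩ : ∃ α : ℝ, α = √(A / (2 * s)) := ⟨_, rfl⟩
  obtain ⟨β, hβ⟩ : ∃ β : ℝ, β = √(B / (2 * s)) := ⟨_, rfl⟩
  have hα0 : 0 < α := by
    rw [hα]
    positivity
  have hβ0 : 0 < β := by
    rw [hβ]
    positivity
  have hα2 : α ^ 2 = A / (2 * s) := by
    rw [hα]
    exact Real.sq_sqrt (by positivity)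
  have hβ2 : β ^ 2 = B / (2 * s) := by
    rw [hβ]
    exact Real.sq_sqrt (by positivity)
  obtain ⟨L, hL⟩ : ∃ L, L = cu_L n (2 * α) β (1 / 2) := ⟨_, rfl⟩
  have hLb : Blk L (2 * α) (2 * α * (1 / 2)) 0 β := by
    rw [hL]
    exact cu_L_blk n _ _ _
  have hLdet : L.det = 2 * α * β := by
    rw [hL]
    exact cu_L_det n _ _ _
  have hLi : (L⁻¹).transpose = cu_R n (2 * α)⁻¹ β⁻¹ (-(1 / 2)) := by
    rw [hL]
    exact cu_L_inv n (by positivity) hβ0.ne' _
  have hRb : Blk ((L⁻¹).transpose) (2 * α)⁻¹ 0 (β⁻¹ * (-(1 / 2))) β⁻¹ := by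
    rw [hLi]
    exact cu_R_blk n _ _ _
  have hd1 : 2 * α * β - 2 * α * (1 / 2) * 0 ≠ 0 := by
    have : 0 < α * β := mul_pos hα0 hβ0
    intro h0
    nlinarith
  have hd2 : (2 * α)⁻¹ * β⁻¹ - 0 * (β⁻¹ * (-(1 / 2))) ≠ 0 := by
    have : 0 < (2 * α)⁻¹ * β⁻¹ := by positivity
    intro h0
    rw [zero_mul, sub_zero] at h0
    exact this.ne' h0
  have hbd := bd_of_adm g hadm
  have hbd' := bd_dual g hg hbd
  have hG : (L * g).det ≠ 0 := by
    rw [Matrix.det_mul, hLdet]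
    have : 0 < 2 * α * β := by positivity
    exact mul_ne_zero this.ne' hg
  have hGi : ((L * g)⁻¹).transpose = (L⁻¹).transpose * (g⁻¹).transpose := by
    rw [Matrix.mul_inv_rev, Matrix.transpose_mul]
  have hB1 : Bd2 (L * g) := blk_bd g L hd1 hLb hbd
  have hA1 : Adm2 (L * g) := blk_adm g L hd1 hLb ⟨1, one_pos, hadm⟩
  have hB2 : Bd2 ((L * g)⁻¹).transpose := by
    rw [hGi]
    exact blk_bd _ _ hd2 hRb hbd'
  have hA2 : Adm2 ((L * g)⁻¹).transpose := by
    rw [hGi]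
    exact blk_adm _ _ hd2 hRb (adm_dual _ hbd')
  have hmain := mainB (L * g) hG hB1 hA1 hB2 hA2 K h ?_ ?_
  · rw [Matrix.det_mul, hLdet, abs_mul, abs_of_pos (show (0 : ℝ) < 2 * α * β by positivity)]
      at hmain
    have hαβ : 2 * α * β * s = √(A * B) := by
      have h1 : 0 ≤ 2 * α * β * s := by positivity
      have h2 : (2 * α * β * s) ^ 2 = A * B := by
        have : (2 * α * β * s) ^ 2 = 4 * α ^ 2 * β ^ 2 * s ^ 2 := by ring
        rw [this, hα2, hβ2]
        field_simp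
        ring
      rw [← h2, Real.sqrt_sq h1]
    rw [← hs, ← hαβ]
    calc (hat K h 0 0 : ℝ) * s ≤ (2 * α * β * |g.det| * (h 0 0 : ℝ)) * s :=
          mul_le_mul_of_nonneg_right hmain hs0.le
      _ = _ := by ring
  · intro m hm
    obtain ⟨b1, b2, b3⟩ := hLb (gv g m)
    obtain ⟨x, hx⟩ : ∃ x, x = gv g m 0 := ⟨_, rfl⟩
    obtain ⟨y, hy⟩ : ∃ y, y = gv g m 1 := ⟨_, rfl⟩
    obtain ⟨R, hR⟩ : ∃ R, R = ∏ i : Fin n, |gv g m i.succ.succ| := ⟨_, rfl⟩
    have hR0 : 0 ≤ R := by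
      rw [hR]
      exact Finset.prod_nonneg fun i _ => abs_nonneg _
    rw [← hx, ← hy] at b1 b2
    have a1 : 1 ≤ |x| * |y| * R := by
      have h1 := hadm m hm
      rw [Finset.abs_prod, Fin.prod_univ_succ, Fin.prod_univ_succ, ← hR, ← hx] at h1
      have h2 : (Fin.succ 0 : Fin (n + 1 + 1)) = 1 := rfl
      rw [h2, ← hy] at h1
      linarith [mul_assoc |x| |y| R]
    have a2 : 1 ≤ |x + y| * |y| * R := by
      have h1 := hadm2 m hm
      rw [abs_mul, Finset.abs_prod, Fin.prod_univ_succ, ← hR, ← hx] at h1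
      have h2 : (Fin.succ 0 : Fin (n + 1 + 1)) = 1 := rfl
      rw [h2, ← hy] at h1
      linarith [mul_assoc |x + y| |y| R]
    have hy0 : 0 < |y| := by
      rcases (abs_nonneg y).lt_or_eq with h1 | h1
      · exact h1
      · rw [← h1] at a1
        norm_num at a1
    have hRp : 0 < R := by
      rcases hR0.lt_or_eq with h1 | h1
      · exact h1
      · rw [← h1] at a1
        norm_num at a1
    have hgm : gv (L * g) m = L.mulVec (gv g m) := cu_gv L g m
    have hX0 : gv (L * g) m 0 = α * (2 * x + y) := by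
      rw [hgm, b1]
      ring
    have hX1 : gv (L * g) m 1 = β * y := by
      rw [hgm, b2]
      ring
    have hXR : ∏ i : Fin n, |gv (L * g) m i.succ.succ| = R := by
      rw [hR, hgm]
      exact Finset.prod_congr rfl fun i _ => by rw [b3]
    have hy2 : 0 < y ^ 2 := by
      rw [← sq_abs]
      positivity
    have hX2 : gv (L * g) m 0 ^ 2 + gv (L * g) m 1 ^ 2 =
        (A * (2 * x + y) ^ 2 + B * y ^ 2) / (2 * s) := by
      rw [hX0, hX1, mul_pow, mul_pow, hα2, hβ2]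
      field_simp
    have hnum : 0 < A * (2 * x + y) ^ 2 + B * y ^ 2 := by positivity
    obtain ⟨r, hr⟩ : ∃ r, r = |2 * x + y| / |y| := ⟨_, rfl⟩
    have hr0 : 0 ≤ r := by
      rw [hr]
      positivity
    have hr2 : r ^ 2 * y ^ 2 = (2 * x + y) ^ 2 := by
      rw [hr, div_pow, sq_abs, sq_abs]
      exact div_mul_cancel₀ _ hy2.ne'
    have hr1 : 2 ≤ |r - 1| * y ^ 2 * R := by
      have h1 := cu_min hR0 a1 a2
      have h2 : |r - 1| * y ^ 2 = |(|2 * x + y| - |y|)| * |y| := by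
        have h3 : |2 * x + y| - |y| = (r - 1) * |y| := by
          rw [hr]
          field_simp
        rw [h3, abs_mul, abs_abs, mul_assoc, ← sq, sq_abs]
      rw [h2]
      exact h1
    have hr1p : 0 < |r - 1| := by
      rcases (abs_nonneg (r - 1)).lt_or_eq with h1 | h1
      · exact h1
      · rw [← h1] at hr1
        norm_num at hr1
    have hrne : r ≠ 1 := by
      intro h1
      rw [h1, sub_self, abs_zero] at hr1p
      exact lt_irrefl _ hr1p
    have hpos : 0 < (gv (L * g) m 0 ^ 2 + gv (L * g) m 1 ^ 2) *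
        ∏ i : Fin n, |gv (L * g) m i.succ.succ| := by
      rw [hX2, hXR]
      positivity
    rw [fq_avg K h _ hpos, hXR, ← hs]
    have e1 : gv (L * g) m 0 ^ 2 / (gv (L * g) m 0 ^ 2 + gv (L * g) m 1 ^ 2) =
        A * r ^ 2 / (A * r ^ 2 + B) := by
      have h1 : 0 < A * r ^ 2 + B := by positivity
      rw [hX2, hX0, mul_pow, hα2, div_eq_div_iff (by positivity) h1.ne', ← hr2]
      field_simp
    have e2 : gv (L * g) m 1 ^ 2 / (gv (L * g) m 0 ^ 2 + gv (L * g) m 1 ^ 2) =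
        B / (A * r ^ 2 + B) := by
      have h1 : 0 < A * r ^ 2 + B := by positivity
      rw [hX2, hX1, mul_pow, hβ2, div_eq_div_iff (by positivity) h1.ne', ← hr2]
      field_simp
    rw [e1, e2, hX2]
    refine mul_nonpos_of_nonneg_of_nonpos (by positivity) ?_
    refine hc.prim r _ hr0 hrne ?_
    rw [div_le_iff₀ hr1p, ← hr2]
    have e3 : s * ((A * (r ^ 2 * y ^ 2) + B * y ^ 2) / (2 * s) * R) * |r - 1| =
        (A * r ^ 2 + B) * (|r - 1| * y ^ 2 * R) / 2 := by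
      field_simp
    rw [e3]
    have h1 : 0 < A * r ^ 2 + B := by positivity
    have := mul_le_mul_of_nonneg_left hr1 h1.le
    linarith
  · intro x hx
    rw [fq_avg K (hat K h) x hx]
    have hκ : 0 < x 0 ^ 2 + x 1 ^ 2 := by
      have h1 : 0 ≤ x 0 ^ 2 + x 1 ^ 2 := by positivity
      rcases h1.lt_or_eq with h2 | h2
      · exact h2
      · rw [← h2, zero_mul] at hx
        exact absurd hx (lt_irrefl _)
    have e1 : x 1 ^ 2 / (x 0 ^ 2 + x 1 ^ 2) = 1 - x 0 ^ 2 / (x 0 ^ 2 + x 1 ^ 2) := by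
      field_simp
      ring
    rw [e1]
    refine mul_nonneg (by positivity) (hc.dual _ _ (by positivity) ?_ ?_)
    · rw [div_le_one hκ]
      have : 0 ≤ x 1 ^ 2 := sq_nonneg _
      linarith
    · rw [← hs]
      exact mul_pos hs0 hx

end H49.SG
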