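import Pool.Agent.H81.LP.Defs

/-!
# Linear programming bounds for pairs of forms which differ by a shear: definitions

Let `d = n + 2`.  The test function is
`f(v) = q(π v_0², π v_1²) exp (-π |v|²)`, `q(X, Y) = ∑_{a, b ≤ K} h a b X^a Y^b`, on `ℝ^(n+2)`; its Fourier
transform has the same form with the coefficients `hat K h`.  The averaging group is
`act u v = (exp (-(∑ u)/2) v_0, exp (-(∑ u)/2) v_1, exp (u_i) v_(i+2))`, `u ∈ ℝ^n`; it commutes with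
shears of the first two coordinates.  `Jn` is the transform which expresses the averages.
-/

namespace H49.SG

open MeasureTheory H81.LP

/-- the transform: `Jn 0 φ p = φ p`, `Jn n (exp (-·))` has Mellin transform `Γ(s) Γ(s/2)^n` -/
noncomputable def Jn (n : ℕ) (φ : ℝ → ℝ) (p : ℝ) : ℝ :=
  ∫ v : Fin n → ℝ, Real.exp (-∑ i, Real.exp (v i)) * φ (p * Real.exp (-(∑ i, v i) / 2))

/-- the energy -/
noncomputable def E1 {n : ℕ} (v : Fin n → ℝ) : ℝ :=
  Real.exp (-∑ i, v i) + ∑ i, Real.exp (2 * v i)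

/-- coefficients of the transform of `(π x²)^a exp (-π x²)`:
it is `(∑ i, (-1)^i lc a i (π x²)^i) exp (-π x²)` -/
def lc : ℕ → ℕ → ℚ
  | 0, 0 => 1
  | 0, _ + 1 => 0
  | a + 1, 0 => (a + 1 / 2) * lc a 0
  | a + 1, i + 1 => lc a i + (a + (i + 1) + 1 / 2) * lc a (i + 1)

/-- the polynomial `q` with coefficients `h` -/
noncomputable def qf (K : ℕ) (h : ℕ → ℕ → ℚ) (X Y : ℝ) : ℝ :=
  ∑ a ∈ Finset.range (K + 1), ∑ b ∈ Finset.range (K + 1), (h a b : ℝ) * X ^ a * Y ^ b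

/-- coefficients of the Fourier transform -/
def hat (K : ℕ) (h : ℕ → ℕ → ℚ) (i j : ℕ) : ℚ :=
  ∑ a ∈ Finset.range (K + 1), ∑ b ∈ Finset.range (K + 1),
    h a b * ((-1) ^ i * lc a i) * ((-1) ^ j * lc b j)

/-- the test function -/
noncomputable def fq {n : ℕ} (K : ℕ) (h : ℕ → ℕ → ℚ) (v : Fin (n + 1 + 1) → ℝ) : ℝ :=
  qf K h (Real.pi * v 0 ^ 2) (Real.pi * v 1 ^ 2) * Real.exp (-(Real.pi * ∑ i, v i ^ 2))

/-- the parameters of the full diagonal group -/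
noncomputable def up {n : ℕ} (u : Fin n → ℝ) : Fin (n + 1) → ℝ := Fin.cons (-(∑ i, u i) / 2) u

/-- the averaging group -/
noncomputable def act {n : ℕ} (u : Fin n → ℝ) (v : Fin (n + 1 + 1) → ℝ) : Fin (n + 1 + 1) → ℝ :=
  fun i => Real.exp (w (up u) i) * v i

/-- THE SIGN CONDITIONS (certificate): `A = a²`, `B = b²`, `a, b > 0` rational -/
structure CondB (n K : ℕ) (h : ℕ → ℕ → ℚ) (A B : ℝ) : Prop where
  hA : 0 < A
  hB : 0 < B
  prim : ∀ r p : ℝ, 0 ≤ r → r ≠ 1 → (A * r ^ 2 + B) / |r - 1| ≤ p →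
    Jn n (fun z => qf K h (A * r ^ 2 / (A * r ^ 2 + B) * z) (B / (A * r ^ 2 + B) * z) *
      Real.exp (-z)) p ≤ 0
  dual : ∀ ρ p : ℝ, 0 ≤ ρ → ρ ≤ 1 → 0 < p →
    0 ≤ Jn n (fun z => qf K (hat K h) (ρ * z) ((1 - ρ) * z) * Real.exp (-z)) p

end H49.SG
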