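import Pool.Agent.H49.SG.ShearB
import Pool.Agent.H46.SB.Cert6

/-!
# Dimension six: the bound from the certificate
-/

namespace H49.SG

open H46.SB

theorem hat6 : hat 7 h6 0 0 = 2254137537 / 1280000000 := by
  decide +kernel

theorem sqrt_pi_low2 : (1.77245 : ℝ) < √Real.pi := by
  apply Real.lt_sqrt_of_sq_lt
  have := Real.pi_gt_d6
  norm_num
  linarith

theorem bound6 (hc : CondB 4 7 h6 ((a6 : ℝ) ^ 2) ((b6 : ℝ) ^ 2))
    (g : Matrix (Fin 6) (Fin 6) ℝ) (hg : g.det ≠ 0)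
    (hni : ¬ ∃ κ : ℝ, κ ≠ 0 ∧ ∀ m : Fin 6 →₀ ℕ, ∃ z : ℤ,
      MvPolynomial.coeff m (κ • (∏ i : Fin 6, ∑ j : Fin 6,
        MvPolynomial.C (g i j) * MvPolynomial.X j : MvPolynomial (Fin 6) ℝ)) = (z : ℝ)) :
    ∃ x : Fin 6 → ℤ, x ≠ 0 ∧
      |∏ i : Fin 6, ∑ j : Fin 6, g i j * (x j : ℝ)| < |g.det| / 564 := by
  refine nonint_bound (n := 4) hc (by norm_num) ?_ g hg hni
  have h1 : √(((a6 : ℚ) : ℝ) ^ 2 * ((b6 : ℚ) : ℝ) ^ 2) = 11 / 50 * (11 / 25) := by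
    rw [← mul_pow, Real.sqrt_sq (by unfold a6 b6; norm_num)]
    unfold a6 b6
    norm_num
  have h2 : h6 0 0 = 1 := by decide +kernel
  rw [h1, hat6, h2]
  have h3 := sqrt_pi_low2
  have h4 : (1.77245 : ℝ) ^ 6 ≤ (√Real.pi) ^ (4 + 2) := pow_le_pow_left₀ (by norm_num) h3.le 6
  push_cast
  norm_num at h4 ⊢
  linarith

end H49.SG
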