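import Pool.Agent.H49.SG.ShearB
import Pool.Agent.H49.SG.Six
import Pool.Agent.H46.SB.Cert4

/-!
# Dimension four: the bound from the certificate
-/

namespace H49.SG

open H46.SB

theorem hat4 : hat 7 h4 0 0 = 234338261 / 160000000 := by
  decide +kernel

theorem bound4 (hc : CondB 2 7 h4 ((a4 : ℝ) ^ 2) ((b4 : ℝ) ^ 2))
    (g : Matrix (Fin 4) (Fin 4) ℝ) (hg : g.det ≠ 0)
    (hni : ¬ ∃ κ : ℝ, κ ≠ 0 ∧ ∀ m : Fin 4 →₀ ℕ, ∃ z : ℤ,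
      MvPolynomial.coeff m (κ • (∏ i : Fin 4, ∑ j : Fin 4,
        MvPolynomial.C (g i j) * MvPolynomial.X j : MvPolynomial (Fin 4) ℝ)) = (z : ℝ)) :
    ∃ x : Fin 4 → ℤ, x ≠ 0 ∧
      |∏ i : Fin 4, ∑ j : Fin 4, g i j * (x j : ℝ)| < |g.det| / 31.58 := by
  refine nonint_bound (n := 2) hc (by norm_num) ?_ g hg hni
  have h1 : √(((a4 : ℚ) : ℝ) ^ 2 * ((b4 : ℚ) : ℝ) ^ 2) = 13 / 25 * (22 / 25) := by
    rw [← mul_pow, Real.sqrt_sq (by unfold a4 b4; norm_num)]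
    unfold a4 b4
    norm_num
  have h2 : h4 0 0 = 1 := by decide +kernel
  rw [h1, hat4, h2]
  have h3 := sqrt_pi_low2
  have h5 : (1.77245 : ℝ) ^ 4 ≤ (√Real.pi) ^ (2 + 2) := pow_le_pow_left₀ (by norm_num) h3.le 4
  push_cast
  norm_num at h5 ⊢
  linarith

end H49.SG
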