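import Pool.Agent.H49.SG.PoisAB
import Pool.Agent.H49.SG.Act

/-!
# Module POIS: Poisson summation for the test function

`fq K h v = ∑_{a,b ≤ K} h a b tm a b 1 1 v`, and
`fq K (hat K h) v = ∑_{a,b ≤ K} h a b tm' a b 1 1 v` because
`tm' a b 1 1 v = Lag a (π v_0²) Lag b (π v_1²) exp (-π |v|²)` and for `a ≤ K` the sum defining `Lag a` may
be extended to `i ≤ K` (`lc_zero`).  So `fq_summable` and `fq_pois` follow from `pois_sum`, `pois_ab` with
`s = t = 1` (finite linear combinations of summable families).  `fq_pois_act`: apply `fq_pois` to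
`actM u g` (`actM_det`, `actM_gv`, `actM_inv_gv`).
-/

namespace H49.SG

open MeasureTheory H81.LP

theorem fq_eq_tm {n : ℕ} (K : ℕ) (h : ℕ → ℕ → ℚ) (v : Fin (n + 1 + 1) → ℝ) :
    fq K h v = ∑ a ∈ Finset.range (K + 1), ∑ b ∈ Finset.range (K + 1), (h a b : ℝ) * tm a b 1 1 v := by
  unfold fq qf tm ga
  rw [Fin.sum_univ_succ, Fin.sum_univ_succ, Finset.sum_mul]
  refine Finset.sum_congr rfl fun a _ => ?_
  rw [Finset.sum_mul]
  refine Finset.sum_congr rfl fun b _ => ?_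
  have h3 : v (Fin.succ 0) = v 1 := rfl
  rw [h3]
  have h4 : Real.exp (-(Real.pi * (v 0 ^ 2 + (v 1 ^ 2 + ∑ i : Fin n, v i.succ.succ ^ 2)))) =
      Real.exp (-(Real.pi * 1 * v 0 ^ 2)) * Real.exp (-(Real.pi * 1 * v 1 ^ 2)) *
        Real.exp (-(Real.pi * ∑ i : Fin n, v i.succ.succ ^ 2)) := by
    rw [← Real.exp_add, ← Real.exp_add]
    congr 1
    ring
  rw [h4]
  ring

theorem fq_hat_eq_tm {n : ℕ} (K : ℕ) (h : ℕ → ℕ → ℚ) (v : Fin (n + 1 + 1) → ℝ) :
    fq K (hat K h) v =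
      ∑ a ∈ Finset.range (K + 1), ∑ b ∈ Finset.range (K + 1), (h a b : ℝ) * tm' a b 1 1 v := by
  have hLag : ∀ a ∈ Finset.range (K + 1), ∀ X : ℝ, Lag a X =
      ∑ i ∈ Finset.range (K + 1), (-1) ^ i * (lc a i : ℝ) * X ^ i := by
    intro a ha X
    unfold Lag
    rw [Finset.mem_range] at ha
    refine Finset.sum_subset (fun i hi => ?_) fun i _ hi => ?_
    · rw [Finset.mem_range] at hi ⊢
      omega
    · rw [Finset.mem_range, not_lt] at hi
      rw [lc_zero (by omega : a < i)]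
      simp
  have hexp : Real.exp (-(Real.pi * ∑ i, v i ^ 2)) =
      Real.exp (-(Real.pi * v 0 ^ 2)) * Real.exp (-(Real.pi * v 1 ^ 2)) *
        Real.exp (-(Real.pi * ∑ i : Fin n, v i.succ.succ ^ 2)) := by
    rw [Fin.sum_univ_succ, Fin.sum_univ_succ, ← Real.exp_add, ← Real.exp_add]
    have h3 : v (Fin.succ 0) = v 1 := rfl
    rw [h3]
    congr 1
    ring
  have htm : ∀ a ∈ Finset.range (K + 1), ∀ b ∈ Finset.range (K + 1), tm' a b 1 1 v =
      (∑ i ∈ Finset.range (K + 1), (-1) ^ i * (lc a i : ℝ) * (Real.pi * v 0 ^ 2) ^ i) *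
      (∑ j ∈ Finset.range (K + 1), (-1) ^ j * (lc b j : ℝ) * (Real.pi * v 1 ^ 2) ^ j) *
        Real.exp (-(Real.pi * ∑ i, v i ^ 2)) := by
    intro a ha b hb
    unfold tm' Hd
    rw [hexp, ← hLag a ha, ← hLag b hb]
    simp only [Real.sqrt_one, inv_one, one_pow, one_mul, div_one]
    ring
  unfold fq
  rw [Finset.sum_congr rfl fun a ha => Finset.sum_congr rfl fun b hb => by rw [htm a ha b hb]]
  unfold qf hat
  push_cast
  simp only [Finset.sum_mul, Finset.mul_sum]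
  -- reorder the four sums
  have e1 : ∀ F : ℕ → ℕ → ℕ → ℕ → ℝ, ∑ i ∈ Finset.range (K + 1), ∑ j ∈ Finset.range (K + 1),
      ∑ a ∈ Finset.range (K + 1), ∑ b ∈ Finset.range (K + 1), F a b i j =
      ∑ a ∈ Finset.range (K + 1), ∑ b ∈ Finset.range (K + 1),
      ∑ i ∈ Finset.range (K + 1), ∑ j ∈ Finset.range (K + 1), F a b i j := by
    intro F
    calc ∑ i ∈ Finset.range (K + 1), ∑ j ∈ Finset.range (K + 1),
          ∑ a ∈ Finset.range (K + 1), ∑ b ∈ Finset.range (K + 1), F a b i j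
        = ∑ i ∈ Finset.range (K + 1), ∑ a ∈ Finset.range (K + 1),
          ∑ j ∈ Finset.range (K + 1), ∑ b ∈ Finset.range (K + 1), F a b i j :=
          Finset.sum_congr rfl fun i _ => Finset.sum_comm
      _ = ∑ a ∈ Finset.range (K + 1), ∑ i ∈ Finset.range (K + 1),
          ∑ j ∈ Finset.range (K + 1), ∑ b ∈ Finset.range (K + 1), F a b i j := Finset.sum_comm
      _ = ∑ a ∈ Finset.range (K + 1), ∑ i ∈ Finset.range (K + 1),
          ∑ b ∈ Finset.range (K + 1), ∑ j ∈ Finset.range (K + 1), F a b i j :=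
          Finset.sum_congr rfl fun a _ => Finset.sum_congr rfl fun i _ => Finset.sum_comm
      _ = _ := Finset.sum_congr rfl fun a _ => Finset.sum_comm
  rw [e1]
  refine Finset.sum_congr rfl fun a _ => Finset.sum_congr rfl fun b _ => ?_
  rw [Finset.sum_comm]
  refine Finset.sum_congr rfl fun j _ => Finset.sum_congr rfl fun i _ => ?_
  ring

theorem fq_summable {n : ℕ} (g : Matrix (Fin (n + 1 + 1)) (Fin (n + 1 + 1)) ℝ) (hg : g.det ≠ 0)
    (K : ℕ) (h : ℕ → ℕ → ℚ) : Summable (fun m : Fin (n + 1 + 1) → ℤ => fq K h (gv g m)) := by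
  simp only [fq_eq_tm]
  exact summable_sum fun a _ => summable_sum fun b _ =>
    (pois_sum g hg a b one_pos one_pos).mul_left _

theorem fq_pois {n : ℕ} (g : Matrix (Fin (n + 1 + 1)) (Fin (n + 1 + 1)) ℝ) (hg : g.det ≠ 0)
    (K : ℕ) (h : ℕ → ℕ → ℚ) :
    ∑' m : Fin (n + 1 + 1) → ℤ, fq K h (gv g m) =
      |g.det|⁻¹ * ∑' m : Fin (n + 1 + 1) → ℤ, fq K (hat K h) (gv (g⁻¹).transpose m) := by
  have hg' := det_inv_ne hg
  simp only [fq_hat_eq_tm]
  simp only [fq_eq_tm]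
  rw [Summable.tsum_finsetSum fun a _ => summable_sum fun b _ =>
    (pois_sum g hg a b one_pos one_pos).mul_left _]
  rw [Summable.tsum_finsetSum fun a _ => summable_sum fun b _ =>
    (pois_sum' (g⁻¹).transpose hg' a b one_pos one_pos).mul_left _]
  rw [Finset.mul_sum]
  refine Finset.sum_congr rfl fun a _ => ?_
  rw [Summable.tsum_finsetSum fun b _ => (pois_sum g hg a b one_pos one_pos).mul_left _]
  rw [Summable.tsum_finsetSum fun b _ =>
    (pois_sum' (g⁻¹).transpose hg' a b one_pos one_pos).mul_left _]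
  rw [Finset.mul_sum]
  refine Finset.sum_congr rfl fun b _ => ?_
  rw [tsum_mul_left, tsum_mul_left, pois_ab g hg a b one_pos one_pos]
  ring

theorem fq_pois_act {n : ℕ} (g : Matrix (Fin (n + 1 + 1)) (Fin (n + 1 + 1)) ℝ) (hg : g.det ≠ 0)
    (K : ℕ) (h : ℕ → ℕ → ℚ) (u : Fin n → ℝ) :
    ∑' m : Fin (n + 1 + 1) → ℤ, fq K h (act u (gv g m)) =
      |g.det|⁻¹ * ∑' m : Fin (n + 1 + 1) → ℤ,
        fq K (hat K h) (act (-u) (gv (g⁻¹).transpose m)) := by
  have h := fq_pois (actM u g) (by rw [actM_det]; exact hg) K h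
  simp only [actM_gv, actM_inv_gv u g hg, actM_det] at h
  exact h

end H49.SG
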