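import Pool.Agent.H49.SG.Avg
import Pool.Agent.H49.SG.Pois

/-!
# Module MAINB: the linear programming inequality

Let `D = |det g|`, `g' = (g⁻¹)ᵀ`, `W(u) = exp (-(ε ∑ |u_i|))`, `I = ∫ W > 0` (`W_integrable`,
`integral_exp_pos`).
* `avg` for `g` and `f = fq K h` (`fq_continuous`, `fq_bound`): `∫ W Θ ≤ (fq K h 0 + ε C') I`.
* `avg` for `g'` and `f = -fq K (hat K h)` (for `m ≠ 0` the integral of `fq K (hat K h) (act u (gv g' m))` is
  `≥ 0` by `hD`, as `Adm2 g'` gives the positivity of the invariant):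
  `∫ W Θ' ≥ (fq K (hat K h) 0 - ε C'') I`.
* `fq_pois_act`: `Θ(u) = D⁻¹ Θ'(-u)`, and `W(-u) = W(u)`, `integral_neg_eq_self`:
  `∫ W Θ = D⁻¹ ∫ W Θ'`.
So `D⁻¹ (fq K (hat K h) 0 - ε C'') ≤ fq K h 0 + ε C'` for all `0 < ε ≤ 1`; let `ε → 0`
(`le_of_forall_pos_le_add` or a limit).
-/

namespace H49.SG

open MeasureTheory H81.LP

theorem mainB {n : ℕ} (g : Matrix (Fin (n + 1 + 1)) (Fin (n + 1 + 1)) ℝ) (hg : g.det ≠ 0)
    (hB : Bd2 g) (hA : Adm2 g) (hB' : Bd2 (g⁻¹).transpose) (hA' : Adm2 (g⁻¹).transpose)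
    (K : ℕ) (h : ℕ → ℕ → ℚ)
    (hP : ∀ m : Fin (n + 1 + 1) → ℤ, m ≠ 0 → ∫ u : Fin n → ℝ, fq K h (act u (gv g m)) ≤ 0)
    (hD : ∀ x : Fin (n + 1 + 1) → ℝ, 0 < (x 0 ^ 2 + x 1 ^ 2) * ∏ i : Fin n, |x i.succ.succ| →
      0 ≤ ∫ u : Fin n → ℝ, fq K (hat K h) (act u x)) :
    (hat K h 0 0 : ℝ) ≤ |g.det| * (h 0 0 : ℝ) := by
  have hpi := Real.pi_pos
  have hDpos : 0 < |g.det| := abs_pos.mpr hg
  obtain ⟨C1, hC1, hb1⟩ := fq_bound n K h
  obtain ⟨C2, hC2, hb2⟩ := fq_bound n K (hat K h)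
  obtain ⟨C', hC', HP⟩ := avg g hB hA (c1 := Real.pi / 2) (C := C1) (by positivity) hC1
    (fun v => fq K h v) (fq_continuous K h) hb1 hP
  obtain ⟨cA, hcA, hA''⟩ := hA'
  obtain ⟨C'', hC'', HD⟩ := avg (g⁻¹).transpose hB' ⟨cA, hcA, hA''⟩ (c1 := Real.pi / 2) (C := C2)
    (by positivity) hC2 (fun v => -fq K (hat K h) v) (fq_continuous K _).neg
    (fun v => by rw [abs_neg]; exact hb2 v) (by
      intro m hm
      have h1 := hD (gv (g⁻¹).transpose m) (lt_of_lt_of_le hcA (hA'' m hm))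
      have h2 : ∫ u : Fin n → ℝ, -(fq K (hat K h) (act u (gv (g⁻¹).transpose m))) =
          -∫ u : Fin n → ℝ, fq K (hat K h) (act u (gv (g⁻¹).transpose m)) := integral_neg _
      exact h2.le.trans (by linarith))
  have key : ∀ ε : ℝ, 0 < ε → ε ≤ 1 →
      (hat K h 0 0 : ℝ) - ε * C'' ≤ |g.det| * ((h 0 0 : ℝ) + ε * C') := by
    intro ε hε hε1
    have h1 := HP ε hε hε1
    have h2 := HD ε hε hε1
    have hIpos : 0 < ∫ u : Fin n → ℝ, Real.exp (-(ε * ∑ i, |u i|)) :=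
      integral_exp_pos (W_integrable hε)
    have h3 : ∫ u : Fin n → ℝ, Real.exp (-(ε * ∑ i, |u i|)) *
        ∑' m : Fin (n + 1 + 1) → ℤ, -fq K (hat K h) (act u (gv (g⁻¹).transpose m)) =
        -∫ u : Fin n → ℝ, Real.exp (-(ε * ∑ i, |u i|)) *
          ∑' m : Fin (n + 1 + 1) → ℤ, fq K (hat K h) (act u (gv (g⁻¹).transpose m)) := by
      rw [← integral_neg]
      refine integral_congr_ae (Filter.Eventually.of_forall fun u => ?_)
      simp only
      rw [tsum_neg]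
      ring
    have h4 : ∫ u : Fin n → ℝ, Real.exp (-(ε * ∑ i, |u i|)) *
        ∑' m : Fin (n + 1 + 1) → ℤ, fq K h (act u (gv g m)) =
        |g.det|⁻¹ * ∫ u : Fin n → ℝ, Real.exp (-(ε * ∑ i, |u i|)) *
          ∑' m : Fin (n + 1 + 1) → ℤ, fq K (hat K h) (act u (gv (g⁻¹).transpose m)) := by
      rw [← integral_const_mul, ← integral_neg_eq_self (fun u : Fin n → ℝ =>
        |g.det|⁻¹ * (Real.exp (-(ε * ∑ i, |u i|)) *
          ∑' m : Fin (n + 1 + 1) → ℤ, fq K (hat K h) (act u (gv (g⁻¹).transpose m))))]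
      refine integral_congr_ae (Filter.Eventually.of_forall fun u => ?_)
      simp only [Pi.neg_apply, abs_neg]
      rw [fq_pois_act g hg K h u]
      ring
    rw [fq_zero] at h1 h2
    rw [h3] at h2
    rw [h4] at h1
    generalize (∫ u : Fin n → ℝ, Real.exp (-(ε * ∑ i, |u i|))) = I at h1 h2 hIpos
    generalize (∫ u : Fin n → ℝ, Real.exp (-(ε * ∑ i, |u i|)) *
          ∑' m : Fin (n + 1 + 1) → ℤ, fq K (hat K h) (act u (gv (g⁻¹).transpose m))) = J at h1 h2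
    have h7 : ((hat K h 0 0 : ℝ) - ε * C'') * I ≤ J := by linarith
    have h8 : J ≤ |g.det| * (((h 0 0 : ℝ) + ε * C') * I) := by
      have h9 := mul_le_mul_of_nonneg_left h1 hDpos.le
      rw [← mul_assoc, mul_inv_cancel₀ hDpos.ne', one_mul] at h9
      exact h9
    have h10 : ((hat K h 0 0 : ℝ) - ε * C'') * I ≤ (|g.det| * ((h 0 0 : ℝ) + ε * C')) * I := by
      rw [mul_assoc]
      exact h7.trans h8
    exact le_of_mul_le_mul_right h10 hIpos
  apply le_of_forall_pos_le_add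
  intro δ hδ
  have hM : 0 < C'' + |g.det| * C' + 1 := by positivity
  have h1 := key (min 1 (δ / (C'' + |g.det| * C' + 1))) (lt_min one_pos (div_pos hδ hM))
    (min_le_left _ _)
  have h2 : min 1 (δ / (C'' + |g.det| * C' + 1)) * (C'' + |g.det| * C' + 1) ≤ δ := by
    have h3 := mul_le_mul_of_nonneg_right (min_le_right 1 (δ / (C'' + |g.det| * C' + 1))) hM.le
    rw [div_mul_cancel₀ _ hM.ne'] at h3
    exact h3
  have h3 : 0 < min 1 (δ / (C'' + |g.det| * C' + 1)) := lt_min one_pos (div_pos hδ hM)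
  nlinarith

end H49.SG
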