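import Pool.Agent.H49.SG.NormF

/-!
# Module NORM4: the norm form of the field of discriminant 725

`f = x^4 - x^3 - 3 x^2 + x + 1`.  Signs: `f(-2) = 11`, `f(-1) = -1`, `f(0) = 1`, `f(1) = -1`,
`f(2) = -1`, `f(3) = 31`: four real roots, one in each of the intervals `(-2,-1)`, `(-1,0)`, `(0,1)`,
`(2,3)`, so distinct.
`F_2[x]/(f)` has 16 elements; the inverses of its nonzero elements are in the table `tz4`.  The
determinant of the matrix of the power sums `4, 1, 7, 7, 23, 36, 91` is 725.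
-/

namespace H49.SG

/-- the companion matrix -/
def C4 : Matrix (Fin 4) (Fin 4) ℤ :=
  !![0,0,0,-1; 1,0,0,-1; 0,1,0,3; 0,0,1,1]

/-- multiplication by `a + b x + c x² + d x³` modulo 2 -/
def P4 (a b c d : ZMod 2) : Matrix (Fin 4) (Fin 4) (ZMod 2) :=
  !![a, d, c + d, b + c;
     b, a + d, c, b + d;
     c, b + d, a + c, b;
     d, c + d, b + c, a + b]

/-- table of inverses -/
def tz4 (a b c d : ZMod 2) : ℕ :=
  [0, 1, 15, 10, 8, 6, 5, 9, 4, 7, 3, 14, 13, 12, 11, 2].getD (a.val + 2 * b.val + 4 * c.val + 8 * d.val) 0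

/-- binary digits -/
def zb4 (k i : ℕ) : ZMod 2 := ((k / 2 ^ i) % 2 : ℕ)

set_option maxRecDepth 100000 in
theorem n4_inv : ∀ a b c d : ZMod 2, (a = 0 ∧ b = 0 ∧ c = 0 ∧ d = 0) ∨
    P4 a b c d * P4 (zb4 (tz4 a b c d) 0) (zb4 (tz4 a b c d) 1) (zb4 (tz4 a b c d) 2)
      (zb4 (tz4 a b c d) 3) = 1 := by
  decide

theorem n4_mulM (y : Fin 4 → ZMod 2) : mulM (C4.map (Int.cast : ℤ → ZMod 2)) y =
    P4 (y 0) (y 1) (y 2) (y 3) := by
  have h1 : C4.map (Int.cast : ℤ → ZMod 2) = P4 0 1 0 0 := by decide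
  have h2 : P4 0 1 0 0 ^ 2 = P4 0 0 1 0 := by rw [pow_two]; decide
  have h3 : P4 0 1 0 0 ^ 3 = P4 0 0 0 1 := by rw [pow_succ, h2]; decide
  have h0 : (1 : Matrix (Fin 4) (Fin 4) (ZMod 2)) = P4 1 0 0 0 := by decide
  unfold mulM
  rw [h1, Fin.sum_univ_four]
  have e0 : ((0 : Fin 4) : ℕ) = 0 := rfl
  have e1 : ((1 : Fin 4) : ℕ) = 1 := rfl
  have e2 : ((2 : Fin 4) : ℕ) = 2 := rfl
  have e3 : ((3 : Fin 4) : ℕ) = 3 := rfl
  rw [e0, e1, e2, e3, pow_zero, pow_one, h2, h3, h0]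
  ext i j
  fin_cases i <;> fin_cases j <;> simp [P4]

theorem n4_h2 (y : Fin 4 → ZMod 2) (hy : y ≠ 0) : ∃ z : Fin 4 → ZMod 2,
    mulM (C4.map (Int.cast : ℤ → ZMod 2)) y * mulM (C4.map (Int.cast : ℤ → ZMod 2)) z = 1 := by
  rcases n4_inv (y 0) (y 1) (y 2) (y 3) with h | h
  · exfalso
    apply hy
    obtain ⟨h0, h1, h2, h3⟩ := h
    ext i
    fin_cases i <;> simp [h0, h1, h2, h3]
  · refine ⟨fun i => zb4 (tz4 (y 0) (y 1) (y 2) (y 3)) i, ?_⟩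
    rw [n4_mulM, n4_mulM]
    exact h

theorem n4_hD : (Matrix.of fun i j : Fin 4 => (C4 ^ ((i : ℕ) + (j : ℕ))).trace).det =
    ((725 : ℕ) : ℤ) := by
  have h : (Matrix.of fun i j : Fin 4 => (C4 ^ ((i : ℕ) + (j : ℕ))).trace) =
    !![4, 1, 7, 7; 1, 7, 7, 23; 7, 7, 23, 36; 7, 23, 36, 91] := by
    decide
  rw [h]
  simp [Matrix.det_succ_row_zero, Fin.sum_univ_succ, Fin.succAbove]

/-- the polynomial -/
def f4 (x : ℝ) : ℝ := x ^ 4 - x ^ 3 - 3 * x ^ 2 + x + 1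

theorem n4_cont : Continuous f4 := by
  unfold f4
  fun_prop

theorem n4_root {a b : ℝ} (hab : a ≤ b) (h : f4 a < 0 ∧ 0 < f4 b ∨ 0 < f4 a ∧ f4 b < 0) :
    ∃ r, a < r ∧ r < b ∧ f4 r = 0 := by
  obtain ⟨r, hr, h0⟩ : ∃ r ∈ Set.Icc a b, f4 r = 0 := by
    rcases h with h | h
    · exact intermediate_value_Icc hab n4_cont.continuousOn ⟨h.1.le, h.2.le⟩
    · exact intermediate_value_Icc' hab n4_cont.continuousOn ⟨h.2.le, h.1.le⟩
  refine ⟨r, lt_of_le_of_ne hr.1 ?_, lt_of_le_of_ne hr.2 ?_, h0⟩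
  · intro e
    rw [← e] at h0
    rcases h with h | h
    · linarith
    · linarith
  · intro e
    rw [e] at h0
    rcases h with h | h
    · linarith
    · linarith

theorem n4_roots : ∃ α : Fin 4 → ℝ, Function.Injective α ∧ ∀ i, f4 (α i) = 0 := by
  obtain ⟨r0, a0, b0, c0⟩ := n4_root (a := -2) (b := -1) (by norm_num)
    (Or.inr (by unfold f4; norm_num))
  obtain ⟨r1, a1, b1, c1⟩ := n4_root (a := -1) (b := 0) (by norm_num)
    (Or.inl (by unfold f4; norm_num))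
  obtain ⟨r2, a2, b2, c2⟩ := n4_root (a := 0) (b := 1) (by norm_num)
    (Or.inr (by unfold f4; norm_num))
  obtain ⟨r3, a3, b3, c3⟩ := n4_root (a := 2) (b := 3) (by norm_num)
    (Or.inl (by unfold f4; norm_num))
  refine ⟨![r0, r1, r2, r3], ?_, ?_⟩
  · apply StrictMono.injective
    rw [Fin.strictMono_iff_lt_succ]
    intro i
    fin_cases i <;> simp [Fin.castSucc, Fin.succ] <;> linarith
  · intro i
    fin_cases i <;> simp <;> assumption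

theorem norm4 : ∃ g : Matrix (Fin 4) (Fin 4) ℝ, g.det ≠ 0 ∧ |g.det| = √725 ∧
    (∃ κ : ℝ, κ ≠ 0 ∧ ∀ m : Fin 4 →₀ ℕ, ∃ z : ℤ,
      MvPolynomial.coeff m (κ • (∏ i : Fin 4, ∑ j : Fin 4,
        MvPolynomial.C (g i j) * MvPolynomial.X j : MvPolynomial (Fin 4) ℝ)) = (z : ℝ)) ∧
    ∀ x : Fin 4 → ℤ, x ≠ 0 → 1 ≤ |∏ i : Fin 4, ∑ j : Fin 4, g i j * (x j : ℝ)| := by
  obtain ⟨α, hα, hf⟩ := n4_roots
  obtain ⟨g, h1, h2, h3, h4⟩ := norm_form C4 α hα (by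
    intro i
    have h := hf i
    unfold f4 at h
    ext j
    rw [Matrix.vecMul, dotProduct, Fin.sum_univ_four]
    fin_cases j <;> simp [C4, Matrix.vandermonde_apply] <;> first | ring1 | linarith) n4_h2
    725 n4_hD
  refine ⟨g, h1, ?_, h3, h4⟩
  rw [h2]
  norm_num

end H49.SG
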