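import Pool.Agent.H49.SG.NormF

/-!
# Module NORM5: the norm form of the field of discriminant 14641

`f = x^5 + x^4 - 4 x^3 - 3 x^2 + 3 x + 1` (the field `ℚ(ζ_11)⁺`).  Signs: `f(-2) = -1`,
`f(-3/2) = 23/32 > 0`, `f(-1) = -1`, `f(0) = 1`, `f(1) = -1`, `f(2) = 11`: five real roots, one in each
of the intervals `(-2,-3/2)`, `(-3/2,-1)`, `(-1,0)`, `(0,1)`, `(1,2)`, so distinct.
`F_2[x]/(f)` has 32 elements; the inverses of its nonzero elements are in the table `tz5`.  The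
determinant of the matrix of the power sums `5, -1, 9, -4, 25, -16, 78, -64, 257` is 14641.
-/

namespace H49.SG

/-- the companion matrix -/
def C5 : Matrix (Fin 5) (Fin 5) ℤ :=
  !![0,0,0,0,-1; 1,0,0,0,-3; 0,1,0,0,3; 0,0,1,0,4; 0,0,0,1,-1]

/-- multiplication by `a + b x + c x² + d x³ + e x⁴` modulo 2 -/
def P5 (a b c d e : ZMod 2) : Matrix (Fin 5) (Fin 5) (ZMod 2) :=
  !![a, e, d + e, c + d + e, b + c + d;
     b, a + e, d, c, b + e;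
     c, b + e, a + d, c + e, b + d;
     d, c, b + e, a + d, c + e;
     e, d + e, c + d + e, b + c + d, a + b + c]

/-- table of inverses -/
def tz5 (a b c d e : ZMod 2) : ℕ :=
  [0, 1, 27, 18, 22, 14, 9, 10, 11, 6, 7, 8, 31, 17, 5, 23, 30, 13, 3, 26, 24, 29, 4, 15, 20, 28,
    19, 2, 25, 21, 16, 12].getD (a.val + 2 * b.val + 4 * c.val + 8 * d.val + 16 * e.val) 0

/-- binary digits -/
def zb5 (k i : ℕ) : ZMod 2 := ((k / 2 ^ i) % 2 : ℕ)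

set_option maxRecDepth 100000 in
theorem n5_inv : ∀ a b c d e : ZMod 2, (a = 0 ∧ b = 0 ∧ c = 0 ∧ d = 0 ∧ e = 0) ∨
    P5 a b c d e * P5 (zb5 (tz5 a b c d e) 0) (zb5 (tz5 a b c d e) 1) (zb5 (tz5 a b c d e) 2)
      (zb5 (tz5 a b c d e) 3) (zb5 (tz5 a b c d e) 4) = 1 := by
  decide

theorem n5_mulM (y : Fin 5 → ZMod 2) : mulM (C5.map (Int.cast : ℤ → ZMod 2)) y =
    P5 (y 0) (y 1) (y 2) (y 3) (y 4) := by
  have h1 : C5.map (Int.cast : ℤ → ZMod 2) = P5 0 1 0 0 0 := by decide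
  have h2 : P5 0 1 0 0 0 ^ 2 = P5 0 0 1 0 0 := by rw [pow_two]; decide
  have h3 : P5 0 1 0 0 0 ^ 3 = P5 0 0 0 1 0 := by rw [pow_succ, h2]; decide
  have h4 : P5 0 1 0 0 0 ^ 4 = P5 0 0 0 0 1 := by rw [pow_succ, h3]; decide
  have h0 : (1 : Matrix (Fin 5) (Fin 5) (ZMod 2)) = P5 1 0 0 0 0 := by decide
  unfold mulM
  rw [h1, Fin.sum_univ_five]
  have e0 : ((0 : Fin 5) : ℕ) = 0 := rfl
  have e1 : ((1 : Fin 5) : ℕ) = 1 := rfl
  have e2 : ((2 : Fin 5) : ℕ) = 2 := rfl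
  have e3 : ((3 : Fin 5) : ℕ) = 3 := rfl
  have e4 : ((4 : Fin 5) : ℕ) = 4 := rfl
  rw [e0, e1, e2, e3, e4, pow_zero, pow_one, h2, h3, h4, h0]
  ext i j
  fin_cases i <;> fin_cases j <;> simp [P5]

theorem n5_h2 (y : Fin 5 → ZMod 2) (hy : y ≠ 0) : ∃ z : Fin 5 → ZMod 2,
    mulM (C5.map (Int.cast : ℤ → ZMod 2)) y * mulM (C5.map (Int.cast : ℤ → ZMod 2)) z = 1 := by
  rcases n5_inv (y 0) (y 1) (y 2) (y 3) (y 4) with h | h
  · exfalso
    apply hy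
    obtain ⟨h0, h1, h2, h3, h4⟩ := h
    ext i
    fin_cases i <;> simp [h0, h1, h2, h3, h4]
  · refine ⟨fun i => zb5 (tz5 (y 0) (y 1) (y 2) (y 3) (y 4)) i, ?_⟩
    rw [n5_mulM, n5_mulM]
    exact h

theorem n5_hD : (Matrix.of fun i j : Fin 5 => (C5 ^ ((i : ℕ) + (j : ℕ))).trace).det =
    ((14641 : ℕ) : ℤ) := by
  have h : (Matrix.of fun i j : Fin 5 => (C5 ^ ((i : ℕ) + (j : ℕ))).trace) =
    !![5, -1, 9, -4, 25; -1, 9, -4, 25, -16; 9, -4, 25, -16, 78; -4, 25, -16, 78, -64;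
       25, -16, 78, -64, 257] := by
    decide
  rw [h]
  simp [Matrix.det_succ_row_zero, Fin.sum_univ_succ, Fin.succAbove]

/-- the polynomial -/
def f5 (x : ℝ) : ℝ := x ^ 5 + x ^ 4 - 4 * x ^ 3 - 3 * x ^ 2 + 3 * x + 1

theorem n5_cont : Continuous f5 := by
  unfold f5
  fun_prop

theorem n5_root {a b : ℝ} (hab : a ≤ b) (h : f5 a < 0 ∧ 0 < f5 b ∨ 0 < f5 a ∧ f5 b < 0) :
    ∃ r, a < r ∧ r < b ∧ f5 r = 0 := by
  obtain ⟨r, hr, h0⟩ : ∃ r ∈ Set.Icc a b, f5 r = 0 := by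
    rcases h with h | h
    · exact intermediate_value_Icc hab n5_cont.continuousOn ⟨h.1.le, h.2.le⟩
    · exact intermediate_value_Icc' hab n5_cont.continuousOn ⟨h.2.le, h.1.le⟩
  refine ⟨r, lt_of_le_of_ne hr.1 ?_, lt_of_le_of_ne hr.2 ?_, h0⟩
  · intro e
    rw [← e] at h0
    rcases h with h | h
    · linarith
    · linarith
  · intro e
    rw [e] at h0
    rcases h with h | h
    · linarith
    · linarith

theorem n5_roots : ∃ α : Fin 5 → ℝ, Function.Injective α ∧ ∀ i, f5 (α i) = 0 := by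
  obtain ⟨r0, a0, b0, c0⟩ := n5_root (a := -2) (b := -3 / 2) (by norm_num)
    (Or.inl (by unfold f5; norm_num))
  obtain ⟨r1, a1, b1, c1⟩ := n5_root (a := -3 / 2) (b := -1) (by norm_num)
    (Or.inr (by unfold f5; norm_num))
  obtain ⟨r2, a2, b2, c2⟩ := n5_root (a := -1) (b := 0) (by norm_num)
    (Or.inl (by unfold f5; norm_num))
  obtain ⟨r3, a3, b3, c3⟩ := n5_root (a := 0) (b := 1) (by norm_num)
    (Or.inr (by unfold f5; norm_num))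
  obtain ⟨r4, a4, b4, c4⟩ := n5_root (a := 1) (b := 2) (by norm_num)
    (Or.inl (by unfold f5; norm_num))
  refine ⟨![r0, r1, r2, r3, r4], ?_, ?_⟩
  · apply StrictMono.injective
    rw [Fin.strictMono_iff_lt_succ]
    intro i
    fin_cases i <;> simp [Fin.castSucc, Fin.succ] <;> linarith
  · intro i
    fin_cases i <;> simp <;> assumption

theorem norm5 : ∃ g : Matrix (Fin 5) (Fin 5) ℝ, g.det ≠ 0 ∧ |g.det| = 121 ∧
    (∃ κ : ℝ, κ ≠ 0 ∧ ∀ m : Fin 5 →₀ ℕ, ∃ z : ℤ,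
      MvPolynomial.coeff m (κ • (∏ i : Fin 5, ∑ j : Fin 5,
        MvPolynomial.C (g i j) * MvPolynomial.X j : MvPolynomial (Fin 5) ℝ)) = (z : ℝ)) ∧
    ∀ x : Fin 5 → ℤ, x ≠ 0 → 1 ≤ |∏ i : Fin 5, ∑ j : Fin 5, g i j * (x j : ℝ)| := by
  obtain ⟨α, hα, hf⟩ := n5_roots
  obtain ⟨g, h1, h2, h3, h4⟩ := norm_form C5 α hα (by
    intro i
    have h := hf i
    unfold f5 at h
    ext j
    rw [Matrix.vecMul, dotProduct, Fin.sum_univ_five]
    fin_cases j <;> simp [C5, Matrix.vandermonde_apply] <;> first | ring1 | linarith) n5_h2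
    14641 n5_hD
  refine ⟨g, h1, ?_, h3, h4⟩
  rw [h2]
  have : ((14641 : ℕ) : ℝ) = 121 ^ 2 := by norm_num
  rw [this, Real.sqrt_sq (by norm_num)]

end H49.SG
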