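import Pool.Agent.H49.SG.NormF

/-!
# Module NORM6: the norm form of the field of discriminant 300125

`f = x^6 - x^5 - 7 x^4 + 2 x^3 + 7 x^2 - 2 x - 1` (discriminant `300125 = 5³ 7⁴`).  Signs:
`f(-3) = 419`, `f(-2) = -1`, `f(-1) = 1`, `f(0) = -1`, `f(3/4) = 29/4096 > 0`, `f(1) = -1`, `f(3) = 29`: six
real roots, one in each of `(-3,-2)`, `(-2,-1)`, `(-1,0)`, `(0,3/4)`, `(3/4,1)`, `(1,3)`
(`intermediate_value_Icc`), so distinct.  `C` = companion matrix (column `j < 5`: `x · x^j = x^(j+1)`; last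
column: `x^6 = 1 + 2 x - 7 x² - 2 x³ + 7 x^4 + x^5`).
`h2`: the reduction of `f` mod 2 is irreducible (2 is inert), so `F_2[x]/(f)` has 64 elements; a table of
the inverses is given.  `hD`: the determinant of the matrix of traces is `300125`.
-/

namespace H49.SG

open Matrix

/-- the companion matrix -/
def c6 : Matrix (Fin 6) (Fin 6) ℤ :=
  !![0, 0, 0, 0, 0, 1; 1, 0, 0, 0, 0, 2; 0, 1, 0, 0, 0, -7; 0, 0, 1, 0, 0, -2; 0, 0, 0, 1, 0, 7; 0, 0, 0, 0, 1, 1]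

/-- the power 2 -/
def c6p2 : Matrix (Fin 6) (Fin 6) ℤ :=
  !![0, 0, 0, 0, 1, 1; 0, 0, 0, 0, 2, 3; 1, 0, 0, 0, -7, -5; 0, 1, 0, 0, -2, -9; 0, 0, 1, 0, 7, 5; 0, 0, 0, 1, 1, 8]

/-- the power 3 -/
def c6p3 : Matrix (Fin 6) (Fin 6) ℤ :=
  !![0, 0, 0, 1, 1, 8; 0, 0, 0, 2, 3, 17; 0, 0, 0, -7, -5, -53; 1, 0, 0, -2, -9, -21; 0, 1, 0, 7, 5, 47; 0, 0, 1, 1, 8, 13]

/-- the power 4 -/
def c6p4 : Matrix (Fin 6) (Fin 6) ℤ :=
  !![0, 0, 1, 1, 8, 13; 0, 0, 2, 3, 17, 34; 0, 0, -7, -5, -53, -74; 0, 0, -2, -9, -21, -79; 1, 0, 7, 5, 47, 70; 0, 1, 1, 8, 13, 60]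

/-- the power 5 -/
def c6p5 : Matrix (Fin 6) (Fin 6) ℤ :=
  !![0, 1, 1, 8, 13, 60; 0, 2, 3, 17, 34, 133; 0, -7, -5, -53, -74, -386; 0, -2, -9, -21, -79, -194; 0, 7, 5, 47, 70, 341; 1, 1, 8, 13, 60, 130]

/-- the power 6 -/
def c6p6 : Matrix (Fin 6) (Fin 6) ℤ :=
  !![1, 1, 8, 13, 60, 130; 2, 3, 17, 34, 133, 320; -7, -5, -53, -74, -386, -777; -2, -9, -21, -79, -194, -646; 7, 5, 47, 70, 341, 716; 1, 8, 13, 60, 130, 471]

/-- the power 7 -/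
def c6p7 : Matrix (Fin 6) (Fin 6) ℤ :=
  !![1, 8, 13, 60, 130, 471; 3, 17, 34, 133, 320, 1072; -5, -53, -74, -386, -777, -2977; -9, -21, -79, -194, -646, -1719; 5, 47, 70, 341, 716, 2651; 8, 13, 60, 130, 471, 1187]

/-- the power 8 -/
def c6p8 : Matrix (Fin 6) (Fin 6) ℤ :=
  !![8, 13, 60, 130, 471, 1187; 17, 34, 133, 320, 1072, 2845; -53, -74, -386, -777, -2977, -7237; -21, -79, -194, -646, -1719, -5351; 47, 70, 341, 716, 2651, 6590; 13, 60, 130, 471, 1187, 3838]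

/-- the power 9 -/
def c6p9 : Matrix (Fin 6) (Fin 6) ℤ :=
  !![13, 60, 130, 471, 1187, 3838; 34, 133, 320, 1072, 2845, 8863; -74, -386, -777, -2977, -7237, -24021; -79, -194, -646, -1719, -5351, -14913; 70, 341, 716, 2651, 6590, 21515; 60, 130, 471, 1187, 3838, 10428]

/-- the power 10 -/
def c6p10 : Matrix (Fin 6) (Fin 6) ℤ :=
  !![60, 130, 471, 1187, 3838, 10428; 133, 320, 1072, 2845, 8863, 24694; -386, -777, -2977, -7237, -24021, -64133; -194, -646, -1719, -5351, -14913, -44877; 341, 716, 2651, 6590, 21515, 58083; 130, 471, 1187, 3838, 10428, 31943]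

set_option maxRecDepth 10000 in
theorem c6_mul2 : c6 * c6 = c6p2 := by decide

set_option maxRecDepth 10000 in
theorem c6_mul3 : c6p2 * c6 = c6p3 := by decide

set_option maxRecDepth 10000 in
theorem c6_mul4 : c6p3 * c6 = c6p4 := by decide

set_option maxRecDepth 10000 in
theorem c6_mul5 : c6p4 * c6 = c6p5 := by decide

set_option maxRecDepth 10000 in
theorem c6_mul6 : c6p5 * c6 = c6p6 := by decide

set_option maxRecDepth 10000 in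
theorem c6_mul7 : c6p6 * c6 = c6p7 := by decide

set_option maxRecDepth 10000 in
theorem c6_mul8 : c6p7 * c6 = c6p8 := by decide

set_option maxRecDepth 10000 in
theorem c6_mul9 : c6p8 * c6 = c6p9 := by decide

set_option maxRecDepth 10000 in
theorem c6_mul10 : c6p9 * c6 = c6p10 := by decide

theorem c6_pow2 : c6 ^ 2 = c6p2 := by rw [pow_two, c6_mul2]

theorem c6_pow3 : c6 ^ 3 = c6p3 := by rw [pow_succ, c6_pow2, c6_mul3]

theorem c6_pow4 : c6 ^ 4 = c6p4 := by rw [pow_succ, c6_pow3, c6_mul4]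

theorem c6_pow5 : c6 ^ 5 = c6p5 := by rw [pow_succ, c6_pow4, c6_mul5]

theorem c6_pow6 : c6 ^ 6 = c6p6 := by rw [pow_succ, c6_pow5, c6_mul6]

theorem c6_pow7 : c6 ^ 7 = c6p7 := by rw [pow_succ, c6_pow6, c6_mul7]

theorem c6_pow8 : c6 ^ 8 = c6p8 := by rw [pow_succ, c6_pow7, c6_mul8]

theorem c6_pow9 : c6 ^ 9 = c6p9 := by rw [pow_succ, c6_pow8, c6_mul9]

theorem c6_pow10 : c6 ^ 10 = c6p10 := by rw [pow_succ, c6_pow9, c6_mul10]

theorem tr6_0 : (c6 ^ 0).trace = 6 := by simp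

theorem tr6_1 : (c6 ^ 1).trace = 1 := by rw [pow_one]; decide

theorem tr6_2 : (c6 ^ 2).trace = 15 := by rw [c6_pow2]; decide

theorem tr6_3 : (c6 ^ 3).trace = 16 := by rw [c6_pow3]; decide

theorem tr6_4 : (c6 ^ 4).trace = 91 := by rw [c6_pow4]; decide

theorem tr6_5 : (c6 ^ 5).trace = 176 := by rw [c6_pow5]; decide

theorem tr6_6 : (c6 ^ 6).trace = 684 := by rw [c6_pow6]; decide

theorem tr6_7 : (c6 ^ 7).trace = 1653 := by rw [c6_pow7]; decide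

theorem tr6_8 : (c6 ^ 8).trace = 5499 := by rw [c6_pow8]; decide

theorem tr6_9 : (c6 ^ 9).trace = 14668 := by rw [c6_pow9]; decide

theorem tr6_10 : (c6 ^ 10).trace = 45510 := by rw [c6_pow10]; decide

/-- the matrix of the traces -/
def S6 : Matrix (Fin 6) (Fin 6) ℤ :=
  !![6, 1, 15, 16, 91, 176; 1, 15, 16, 91, 176, 684; 15, 16, 91, 176, 684, 1653; 16, 91, 176, 684, 1653, 5499; 91, 176, 684, 1653, 5499, 14668; 176, 684, 1653, 5499, 14668, 45510]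

def L6 : Matrix (Fin 6) (Fin 6) ℤ := !![1, 0, 0, 0, 0, 0; -1, 6, 0, 0, 0, 0; -209, -81, 89, 0, 0, 0; 783, -2477, -707, 524, 0, 0; 1836, 7, -3848, -511, 603, 0; 280, 965, -702, -1537, -57, 214]

def U6 : Matrix (Fin 6) (Fin 6) ℤ := !![6, 1, 15, 16, 91, 176; 0, 89, 81, 530, 965, 3928; 0, 0, 3668, 4949, 27601, 54929; 0, 0, 0, 21105, 17885, 156345; 0, 0, 0, 0, 7490, 1995; 0, 0, 0, 0, 0, 35]

set_option maxRecDepth 10000 in
theorem L6_mul : L6 * S6 = U6 := by decide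

theorem det_L6 : L6.det = 36108016272 := by
  rw [Matrix.det_of_isLowerTriangular L6 (by
    intro i j h
    revert i j
    decide)]
  simp [L6, Fin.prod_univ_succ]

theorem det_U6 : U6.det = 10836918383634000 := by
  rw [Matrix.det_of_isUpperTriangular (M := U6) (by
    intro i j h
    revert i j
    decide)]
  simp [U6, Fin.prod_univ_succ]

theorem det_S6 : S6.det = 300125 := by
  have h := congrArg Matrix.det L6_mul
  rw [Matrix.det_mul, det_L6, det_U6] at h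
  omega

theorem S6_eq : (Matrix.of fun i j : Fin 6 => (c6 ^ ((i : ℕ) + (j : ℕ))).trace) = S6 := by
  ext i j
  rw [Matrix.of_apply]
  fin_cases i <;> fin_cases j <;>
    simp only [Fin.zero_eta, Fin.mk_one, Fin.reduceFinMk, Fin.coe_ofNat_eq_mod, Nat.reduceMod, Nat.reduceAdd, Nat.zero_mod, Nat.one_mod,
      tr6_0, tr6_1, tr6_2, tr6_3, tr6_4, tr6_5, tr6_6, tr6_7, tr6_8, tr6_9, tr6_10] <;> rfl

/-- the companion matrix modulo 2 -/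
def a6 : Matrix (Fin 6) (Fin 6) (ZMod 2) :=
  !![0, 0, 0, 0, 0, 1; 1, 0, 0, 0, 0, 0; 0, 1, 0, 0, 0, 1; 0, 0, 1, 0, 0, 0; 0, 0, 0, 1, 0, 1; 0, 0, 0, 0, 1, 1]

/-- the power 2 modulo 2 -/
def a6p2 : Matrix (Fin 6) (Fin 6) (ZMod 2) :=
  !![0, 0, 0, 0, 1, 1; 0, 0, 0, 0, 0, 1; 1, 0, 0, 0, 1, 1; 0, 1, 0, 0, 0, 1; 0, 0, 1, 0, 1, 1; 0, 0, 0, 1, 1, 0]

/-- the power 3 modulo 2 -/
def a6p3 : Matrix (Fin 6) (Fin 6) (ZMod 2) :=
  !![0, 0, 0, 1, 1, 0; 0, 0, 0, 0, 1, 1; 0, 0, 0, 1, 1, 1; 1, 0, 0, 0, 1, 1; 0, 1, 0, 1, 1, 1; 0, 0, 1, 1, 0, 1]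

/-- the power 4 modulo 2 -/
def a6p4 : Matrix (Fin 6) (Fin 6) (ZMod 2) :=
  !![0, 0, 1, 1, 0, 1; 0, 0, 0, 1, 1, 0; 0, 0, 1, 1, 1, 0; 0, 0, 0, 1, 1, 1; 1, 0, 1, 1, 1, 0; 0, 1, 1, 0, 1, 0]

/-- the power 5 modulo 2 -/
def a6p5 : Matrix (Fin 6) (Fin 6) (ZMod 2) :=
  !![0, 1, 1, 0, 1, 0; 0, 0, 1, 1, 0, 1; 0, 1, 1, 1, 0, 0; 0, 0, 1, 1, 1, 0; 0, 1, 1, 1, 0, 1; 1, 1, 0, 1, 0, 0]

set_option maxRecDepth 10000 in
theorem a6_mul2 : a6 * a6 = a6p2 := by decide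

set_option maxRecDepth 10000 in
theorem a6_mul3 : a6p2 * a6 = a6p3 := by decide

set_option maxRecDepth 10000 in
theorem a6_mul4 : a6p3 * a6 = a6p4 := by decide

set_option maxRecDepth 10000 in
theorem a6_mul5 : a6p4 * a6 = a6p5 := by decide

theorem a6_pow2 : a6 ^ 2 = a6p2 := by rw [pow_two, a6_mul2]

theorem a6_pow3 : a6 ^ 3 = a6p3 := by rw [pow_succ, a6_pow2, a6_mul3]

theorem a6_pow4 : a6 ^ 4 = a6p4 := by rw [pow_succ, a6_pow3, a6_mul4]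

theorem a6_pow5 : a6 ^ 5 = a6p5 := by rw [pow_succ, a6_pow4, a6_mul5]

/-- the multiplication matrix modulo 2 -/
def m6 (y : Fin 6 → ZMod 2) : Matrix (Fin 6) (Fin 6) (ZMod 2) :=
  !![y 0, y 5, y 4 + y 5, y 3 + y 4, y 2 + y 3 + y 5, y 1 + y 2 + y 4;
    y 1, y 0, y 5, y 4 + y 5, y 3 + y 4, y 2 + y 3 + y 5;
    y 2, y 1 + y 5, y 0 + y 4 + y 5, y 3 + y 4 + y 5, y 2 + y 3 + y 4, y 1 + y 2 + y 3;
    y 3, y 2, y 1 + y 5, y 0 + y 4 + y 5, y 3 + y 4 + y 5, y 2 + y 3 + y 4;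
    y 4, y 3 + y 5, y 2 + y 4 + y 5, y 1 + y 3 + y 4 + y 5, y 0 + y 2 + y 3 + y 4, y 1 + y 2 + y 3 + y 5;
    y 5, y 4 + y 5, y 3 + y 4, y 2 + y 3 + y 5, y 1 + y 2 + y 4, y 0 + y 1 + y 3]

theorem mulM_a6 (y : Fin 6 → ZMod 2) : mulM a6 y = m6 y := by
  unfold mulM
  rw [Fin.sum_univ_six]
  simp only [Fin.coe_ofNat_eq_mod, Nat.reduceMod,
    pow_zero, pow_one, a6_pow2, a6_pow3, a6_pow4, a6_pow5]
  ext i j
  fin_cases i <;> fin_cases j <;>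
    simp [m6, a6, a6p2, a6p3, a6p4, a6p5]

/-- the table of inverses -/
def t6 : List ℕ := [0, 1, 58, 44, 29, 55, 22, 50, 52, 61, 33, 12, 11, 32, 25, 62, 26, 57, 36, 49, 42, 40, 6, 51, 63, 14, 16, 56, 54, 4, 31, 30, 13, 10, 38, 46, 18, 48, 34, 47, 21, 43, 20, 41, 3, 59, 35, 39, 37, 19, 7, 23, 8, 60, 28, 5, 27, 17, 2, 45, 53, 9, 15, 24]

/-- the number of a vector -/
def n6 (a b c d e f : ZMod 2) : ℕ :=
  a.val + 2 * b.val + 4 * c.val + 8 * d.val + 16 * e.val + 32 * f.val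

/-- the inverse of a vector -/
def i6 (a b c d e f : ZMod 2) : Fin 6 → ZMod 2 := fun j =>
  if (t6.getD (n6 a b c d e f) 0).testBit j then 1 else 0

set_option maxRecDepth 100000 in
theorem m6_inv : ∀ a b c d e f : ZMod 2, ¬ (a = 0 ∧ b = 0 ∧ c = 0 ∧ d = 0 ∧ e = 0 ∧ f = 0) →
    m6 ![a, b, c, d, e, f] * m6 (i6 a b c d e f) = 1 := by decide

theorem c6_map : c6.map (Int.cast : ℤ → ZMod 2) = a6 := by decide

theorem vec6 {R : Type} (y : Fin 6 → R) : y = ![y 0, y 1, y 2, y 3, y 4, y 5] := by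
  ext i
  fin_cases i <;> rfl

theorem c6_h2 (y : Fin 6 → ZMod 2) (hy : y ≠ 0) : ∃ z : Fin 6 → ZMod 2,
    mulM (c6.map (Int.cast : ℤ → ZMod 2)) y * mulM (c6.map (Int.cast : ℤ → ZMod 2)) z = 1 := by
  refine ⟨i6 (y 0) (y 1) (y 2) (y 3) (y 4) (y 5), ?_⟩
  rw [c6_map, mulM_a6, mulM_a6]
  have h := m6_inv (y 0) (y 1) (y 2) (y 3) (y 4) (y 5) ?_
  · rwa [← vec6 y] at h
  · rintro ⟨h0, h1, h2, h3, h4, h5⟩
    refine hy ?_
    rw [vec6 y, h0, h1, h2, h3, h4, h5]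
    ext i
    fin_cases i <;> rfl

/-- the polynomial -/
def f6 (x : ℝ) : ℝ := x ^ 6 - x ^ 5 - 7 * x ^ 4 + 2 * x ^ 3 + 7 * x ^ 2 - 2 * x - 1

theorem f6_cont : Continuous f6 := by
  unfold f6
  fun_prop

theorem f6_down {a b : ℝ} (hab : a ≤ b) (ha : 0 < f6 a) (hb : f6 b < 0) :
    ∃ x, a < x ∧ x < b ∧ f6 x = 0 := by
  obtain ⟨x, hx, h⟩ := intermediate_value_Ioo' hab f6_cont.continuousOn ⟨hb, ha⟩
  exact ⟨x, hx.1, hx.2, h⟩

theorem f6_up {a b : ℝ} (hab : a ≤ b) (ha : f6 a < 0) (hb : 0 < f6 b) :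
    ∃ x, a < x ∧ x < b ∧ f6 x = 0 := by
  obtain ⟨x, hx, h⟩ := intermediate_value_Ioo hab f6_cont.continuousOn ⟨ha, hb⟩
  exact ⟨x, hx.1, hx.2, h⟩

theorem c6_vec (x : ℝ) (h : f6 x = 0) :
    Matrix.vecMul (fun j : Fin 6 => x ^ (j : ℕ)) (c6.map (Int.cast : ℤ → ℝ)) =
      x • (fun j : Fin 6 => x ^ (j : ℕ)) := by
  unfold f6 at h
  ext j
  fin_cases j <;> simp [Matrix.vecMul, dotProduct, Fin.sum_univ_six, c6] <;> nlinarith [h]

theorem roots6 : ∃ α : Fin 6 → ℝ, Function.Injective α ∧ ∀ i, f6 (α i) = 0 := by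
  obtain ⟨x0, h0, h0', e0⟩ := f6_down (a := -3) (b := -2) (by norm_num) (by norm_num [f6])
    (by norm_num [f6])
  obtain ⟨x1, h1, h1', e1⟩ := f6_up (a := -2) (b := -1) (by norm_num) (by norm_num [f6])
    (by norm_num [f6])
  obtain ⟨x2, h2, h2', e2⟩ := f6_down (a := -1) (b := 0) (by norm_num) (by norm_num [f6])
    (by norm_num [f6])
  obtain ⟨x3, h3, h3', e3⟩ := f6_up (a := 0) (b := 3 / 4) (by norm_num) (by norm_num [f6])
    (by norm_num [f6])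
  obtain ⟨x4, h4, h4', e4⟩ := f6_down (a := 3 / 4) (b := 1) (by norm_num) (by norm_num [f6])
    (by norm_num [f6])
  obtain ⟨x5, h5, h5', e5⟩ := f6_up (a := 1) (b := 3) (by norm_num) (by norm_num [f6])
    (by norm_num [f6])
  refine ⟨![x0, x1, x2, x3, x4, x5], StrictMono.injective (Fin.strictMono_iff_lt_succ.2 ?_), ?_⟩
  · intro i
    fin_cases i <;> simp <;> linarith
  · intro i
    fin_cases i <;> simp [e0, e1, e2, e3, e4, e5]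

theorem norm6 : ∃ g : Matrix (Fin 6) (Fin 6) ℝ, g.det ≠ 0 ∧ |g.det| = √300125 ∧
    (∃ κ : ℝ, κ ≠ 0 ∧ ∀ m : Fin 6 →₀ ℕ, ∃ z : ℤ,
      MvPolynomial.coeff m (κ • (∏ i : Fin 6, ∑ j : Fin 6,
        MvPolynomial.C (g i j) * MvPolynomial.X j : MvPolynomial (Fin 6) ℝ)) = (z : ℝ)) ∧
    ∀ x : Fin 6 → ℤ, x ≠ 0 → 1 ≤ |∏ i : Fin 6, ∑ j : Fin 6, g i j * (x j : ℝ)| := by
  obtain ⟨α, hα, hf⟩ := roots6
  have h := norm_form c6 α hα (fun i => c6_vec (α i) (hf i)) c6_h2 300125 (by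
    rw [S6_eq, det_S6]
    norm_num)
  simpa using h

end H49.SG
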