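import Mathlib
import Pool.Agent.H46.Integral

/-!
# Module NORMF: norm forms of monogenic totally real rings in which 2 is inert

`g = vandermonde α` (`g i j = α_i^j`), `C` the companion matrix (`g C = diag(α) g`: hypothesis `hC`).
* `det g ≠ 0` by `hα` (`Matrix.det_vandermonde_ne_zero_iff`).
* Let `CR` be `C` mapped to `ℝ`.  `g CR^k = diag(α)^k g`, so
  `g * ∑ j, x_j CR^j = diag (∑ j, x_j α_i^j) * g`; determinants and cancelling `det g ≠ 0`:
  `det (∑ j, x_j C^j) = ∏ i, ∑ j, g i j x_j` (the left side is the cast of an integer).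
* Nonvanishing: let `x ≠ 0` be an integer vector; write `x = 2^k x'` with `x'` not divisible by `2`
  (strong induction on `∑ |x_j|`, or: if all `x_j` are even halve them; the determinant is homogeneous
  of degree `d`).  The reduction `y` of `x'` mod 2 is nonzero, so by `h2` the reduction of
  `∑ j, x'_j C^j` is invertible, so its determinant is not zero in `ZMod 2`, hence
  `det (∑ j, x'_j C^j) ≠ 0`.  So `|∏| ≥ 1`.
* Determinant: `gᵀ g` has the entries `∑_k α_k^(i+j) = trace (diag(α)^(i+j)) = trace (CR^(i+j))` because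
  `CR^m = g⁻¹ diag(α)^m g`; so `(det g)² = det (trace C^(i+j))_{ij} = D` and `|det g| = √D`.
* Proportional to an integral form: `Pool.Agent.H46.integral_of_eigen` with `T = C`, `lam = α`.
-/

namespace H49.SG

/-- the matrix of the multiplication by `∑ x_j α^j` -/
def mulM {d : ℕ} {R : Type} [CommRing R] (C : Matrix (Fin d) (Fin d) R) (x : Fin d → R) :
    Matrix (Fin d) (Fin d) R := ∑ j : Fin d, x j • C ^ (j : ℕ)

theorem mulM_cast {d : ℕ} {R : Type} [CommRing R] (C : Matrix (Fin d) (Fin d) ℤ)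
    (x : Fin d → ℤ) : (((mulM C x).det : ℤ) : R) =
      (mulM (C.map (Int.cast : ℤ → R)) (fun j => (x j : R))).det := by
  have h1 : (((mulM C x).det : ℤ) : R) = ((Int.castRingHom R).mapMatrix (mulM C x)).det := by
    rw [← RingHom.map_det]
    rfl
  rw [h1]
  congr 1
  unfold mulM
  rw [map_sum]
  apply Finset.sum_congr rfl
  intro j _
  have h2 : C.map (Int.cast : ℤ → R) = (Int.castRingHom R).mapMatrix C := rfl
  rw [h2, ← map_pow]
  ext a b
  show ((x j • (C ^ (j : ℕ)) a b : ℤ) : R) = (x j : R) • (((C ^ (j : ℕ)) a b : ℤ) : R)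
  rw [smul_eq_mul, smul_eq_mul, Int.cast_mul]

theorem mulM_det_ne {d : ℕ} (C : Matrix (Fin d) (Fin d) ℤ)
    (h2 : ∀ y : Fin d → ZMod 2, y ≠ 0 → ∃ z : Fin d → ZMod 2,
      mulM (C.map (Int.cast : ℤ → ZMod 2)) y * mulM (C.map (Int.cast : ℤ → ZMod 2)) z = 1) :
    ∀ N : ℕ, ∀ x : Fin d → ℤ, x ≠ 0 → ∑ j, (x j).natAbs ≤ N → (mulM C x).det ≠ 0 := by
  intro N
  induction N with
  | zero =>
    intro x hx hN
    exfalso
    apply hx
    funext j
    have h3 := Finset.sum_eq_zero_iff.mp (Nat.le_zero.mp hN) j (Finset.mem_univ j)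
    exact Int.natAbs_eq_zero.mp h3
  | succ N ih =>
    intro x hx hN
    by_cases hev : ∀ j, (2 : ℤ) ∣ x j
    · choose x' hx' using hev
      have hx'0 : x' ≠ 0 := by
        intro h0
        apply hx
        funext j
        rw [hx' j, h0]
        simp
      have hlt : ∑ j, (x' j).natAbs ≤ N := by
        have h4 : ∑ j, (x j).natAbs = 2 * ∑ j, (x' j).natAbs := by
          rw [Finset.mul_sum]
          apply Finset.sum_congr rfl
          intro j _
          rw [hx' j, Int.natAbs_mul]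
          rfl
        have h5 : ∑ j, (x' j).natAbs ≠ 0 := by
          intro hc
          apply hx'0
          funext j
          have h3 := Finset.sum_eq_zero_iff.mp hc j (Finset.mem_univ j)
          exact Int.natAbs_eq_zero.mp h3
        omega
      have h6 := ih x' hx'0 hlt
      have h7 : mulM C x = (2 : ℤ) • mulM C x' := by
        unfold mulM
        rw [Finset.smul_sum]
        apply Finset.sum_congr rfl
        intro j _
        rw [hx' j, smul_smul]
      rw [h7, Matrix.det_smul]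
      exact mul_ne_zero (pow_ne_zero _ two_ne_zero) h6
    · push Not at hev
      obtain ⟨j0, hj0⟩ := hev
      intro hdet
      obtain ⟨z, hz⟩ := h2 (fun j => (x j : ZMod 2)) (by
        intro h0
        have h3 : ((x j0 : ℤ) : ZMod 2) = 0 := congrFun h0 j0
        exact hj0 ((ZMod.intCast_zmod_eq_zero_iff_dvd (x j0) 2).mp h3))
      have h8 := mulM_cast (R := ZMod 2) C x
      have h9 := congrArg Matrix.det hz
      rw [Matrix.det_mul, ← h8, hdet, Matrix.det_one, Int.cast_zero, zero_mul] at h9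
      exact zero_ne_one h9

theorem norm_form {d : ℕ} (C : Matrix (Fin d) (Fin d) ℤ) (α : Fin d → ℝ)
    (hα : Function.Injective α)
    (hC : ∀ i, Matrix.vecMul (Matrix.vandermonde α i) (C.map (Int.cast : ℤ → ℝ)) =
      α i • Matrix.vandermonde α i)
    (h2 : ∀ y : Fin d → ZMod 2, y ≠ 0 → ∃ z : Fin d → ZMod 2,
      mulM (C.map (Int.cast : ℤ → ZMod 2)) y * mulM (C.map (Int.cast : ℤ → ZMod 2)) z = 1)
    (D : ℕ) (hD : (Matrix.of fun i j : Fin d => (C ^ ((i : ℕ) + (j : ℕ))).trace).det = (D : ℤ)) :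
    ∃ g : Matrix (Fin d) (Fin d) ℝ, g.det ≠ 0 ∧ |g.det| = √(D : ℝ) ∧
      (∃ κ : ℝ, κ ≠ 0 ∧ ∀ m : Fin d →₀ ℕ, ∃ z : ℤ,
        MvPolynomial.coeff m (κ • (∏ i : Fin d, ∑ j : Fin d,
          MvPolynomial.C (g i j) * MvPolynomial.X j : MvPolynomial (Fin d) ℝ)) = (z : ℝ)) ∧
      ∀ x : Fin d → ℤ, x ≠ 0 → 1 ≤ |∏ i : Fin d, ∑ j : Fin d, g i j * (x j : ℝ)| := by
  classical
  set CR : Matrix (Fin d) (Fin d) ℝ := C.map (Int.cast : ℤ → ℝ) with hCR
  set g : Matrix (Fin d) (Fin d) ℝ := Matrix.vandermonde α with hgdef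
  have hg : g.det ≠ 0 := Matrix.det_vandermonde_ne_zero_iff.mpr hα
  have hCpow : ∀ n : ℕ, (C ^ n).map (Int.cast : ℤ → ℝ) = CR ^ n := by
    intro n
    have h1 : ∀ A : Matrix (Fin d) (Fin d) ℤ, A.map (Int.cast : ℤ → ℝ)
        = (Int.castRingHom ℝ).mapMatrix A := fun A => rfl
    rw [hCR, h1, h1, map_pow]
  have hgC : g * CR = Matrix.diagonal α * g := by
    ext i j
    rw [Matrix.diagonal_mul]
    exact congrFun (hC i) j
  have hgCn : ∀ n : ℕ, g * CR ^ n = Matrix.diagonal (fun i => α i ^ n) * g := by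
    intro n
    induction n with
    | zero =>
      have h1 : Matrix.diagonal (fun i => α i ^ 0) = (1 : Matrix (Fin d) (Fin d) ℝ) := by
        simp
      rw [h1, pow_zero, Matrix.mul_one, Matrix.one_mul]
    | succ n ih =>
      rw [pow_succ, ← Matrix.mul_assoc, ih, Matrix.mul_assoc, hgC, ← Matrix.mul_assoc,
        Matrix.diagonal_mul_diagonal]
      congr 2
  have hprod : ∀ x : Fin d → ℤ, ((mulM C x).det : ℝ) = ∏ i, ∑ j, g i j * (x j : ℝ) := by
    intro x
    have h1 := mulM_cast (R := ℝ) C x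
    rw [← hCR] at h1
    have h3 : g * mulM CR (fun j => (x j : ℝ)) =
        Matrix.diagonal (fun i => ∑ j, g i j * (x j : ℝ)) * g := by
      unfold mulM
      rw [Matrix.mul_sum]
      have h4 : ∀ j : Fin d, g * ((x j : ℝ) • CR ^ (j : ℕ)) =
          Matrix.diagonal (fun i => g i j * (x j : ℝ)) * g := by
        intro j
        rw [Matrix.mul_smul, hgCn]
        ext a b
        rw [Matrix.smul_apply, Matrix.diagonal_mul, Matrix.diagonal_mul, smul_eq_mul]
        have h5 : g a j = α a ^ (j : ℕ) := Matrix.vandermonde_apply α a j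
        rw [h5]
        ring
      rw [Finset.sum_congr rfl (fun j _ => h4 j), ← Matrix.sum_mul]
      congr 1
      ext a b
      rw [Matrix.sum_apply]
      by_cases hab : a = b
      · subst hab
        simp
      · simp [Matrix.diagonal_apply_ne _ hab]
    have h5 := congrArg Matrix.det h3
    rw [Matrix.det_mul, Matrix.det_mul, Matrix.det_diagonal, mul_comm] at h5
    rw [h1]
    exact mul_right_cancel₀ hg h5
  have htr : ∀ n : ℕ, (((C ^ n).trace : ℤ) : ℝ) = ∑ k, α k ^ n := by
    intro n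
    have h1 : (((C ^ n).trace : ℤ) : ℝ) = (CR ^ n).trace := by
      rw [← hCpow]
      unfold Matrix.trace
      push_cast
      rfl
    rw [h1]
    have h3 : CR ^ n = g⁻¹ * (Matrix.diagonal (fun i => α i ^ n) * g) := by
      rw [← hgCn, ← Matrix.mul_assoc, Matrix.nonsing_inv_mul g (isUnit_iff_ne_zero.mpr hg),
        Matrix.one_mul]
    rw [h3, Matrix.trace_mul_comm, Matrix.mul_assoc,
      Matrix.mul_nonsing_inv g (isUnit_iff_ne_zero.mpr hg), Matrix.mul_one, Matrix.trace_diagonal]
  have hdet2 : g.det ^ 2 = (D : ℝ) := by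
    have h1 : g.transpose * g =
        (Int.castRingHom ℝ).mapMatrix (Matrix.of fun i j : Fin d => (C ^ ((i : ℕ) + (j : ℕ))).trace) := by
      ext i j
      rw [Matrix.mul_apply]
      have h3 : (Int.castRingHom ℝ).mapMatrix
          (Matrix.of fun i j : Fin d => (C ^ ((i : ℕ) + (j : ℕ))).trace) i j =
          (((C ^ ((i : ℕ) + (j : ℕ))).trace : ℤ) : ℝ) := rfl
      rw [h3, htr]
      apply Finset.sum_congr rfl
      intro k _
      have h5 : g k i = α k ^ (i : ℕ) := Matrix.vandermonde_apply α k i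
      have h6 : g k j = α k ^ (j : ℕ) := Matrix.vandermonde_apply α k j
      rw [Matrix.transpose_apply, h5, h6, pow_add]
    have h3 := congrArg Matrix.det h1
    rw [Matrix.det_mul, Matrix.det_transpose, ← RingHom.map_det, hD] at h3
    rw [pow_two, h3]
    simp
  refine ⟨g, hg, ?_, ?_, ?_⟩
  · rw [← hdet2, Real.sqrt_sq_eq_abs]
  · exact Pool.Agent.H46.integral_of_eigen d g hg C α hα hC
  · intro x hx
    rw [← hprod]
    have h1 := mulM_det_ne C h2 _ x hx le_rfl
    have h3 : (1 : ℤ) ≤ |(mulM C x).det| := Int.one_le_abs h1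
    exact_mod_cast h3

end H49.SG
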