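import Pool.Agent.H49.SG.Defs
import Pool.Agent.H81.LP.ThetaFE

/-!
# Module POISG: the Gaussian identity with two parameters

Apply `poisson_gauss` (`Pool/Agent/H81/LP/PoissonG.lean`; imported through `ThetaFE`) to
`M = diag (√s, √t, 1, …, 1) g` (`Fin.cons (√s) (Fin.cons (√t) fun _ => 1)`): `∑ (gv M m i)² = s x² + t y² + ∑ z_i²`,
`|det M| = √s √t |det g|`, `(M⁻¹)ᵀ = diag (1/√s, 1/√t, 1, …, 1) (g⁻¹)ᵀ` (see `feM_inv_gv`).
`gauss_sum`: `gauss_summable` for the matrix `√(c/π) • g` (or `thTerm_summable g hg` with `lam = c/π`, `u = 0`,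
as `w 0 = 0`).
-/

namespace H49.SG

open MeasureTheory H81.LP

private theorem dg_gv {d : ℕ} (g : Matrix (Fin d) (Fin d) ℝ) (D : Fin d → ℝ)
    (m : Fin d → ℤ) (i : Fin d) : gv (Matrix.diagonal D * g) m i = D i * gv g m i := by
  unfold gv
  rw [← Matrix.mulVec_mulVec, Matrix.mulVec_diagonal]

private theorem dg_inv_gv {d : ℕ} (g : Matrix (Fin d) (Fin d) ℝ) (hg : g.det ≠ 0) (D : Fin d → ℝ)
    (hD : ∀ i, D i ≠ 0) (m : Fin d → ℤ) (i : Fin d) :
    gv ((Matrix.diagonal D * g)⁻¹).transpose m i = (D i)⁻¹ * gv (g⁻¹).transpose m i := by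
  have hinv : (Matrix.diagonal D * g)⁻¹ = g⁻¹ * Matrix.diagonal (fun i => (D i)⁻¹) := by
    apply Matrix.inv_eq_right_inv
    rw [Matrix.mul_assoc, ← Matrix.mul_assoc g, Matrix.mul_nonsing_inv g (isUnit_iff_ne_zero.2 hg),
      Matrix.one_mul, Matrix.diagonal_mul_diagonal]
    rw [← Matrix.diagonal_one]
    congr 1
    funext i
    exact mul_inv_cancel₀ (hD i)
  rw [hinv, Matrix.transpose_mul, Matrix.diagonal_transpose]
  unfold gv
  rw [← Matrix.mulVec_mulVec, Matrix.mulVec_diagonal]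

theorem gauss_sum {d : ℕ} (g : Matrix (Fin (d + 1)) (Fin (d + 1)) ℝ) (hg : g.det ≠ 0) {c : ℝ}
    (hc : 0 < c) : Summable (fun m : Fin (d + 1) → ℤ => Real.exp (-(c * ∑ i, gv g m i ^ 2))) := by
  have hpi := Real.pi_pos
  have hcp : 0 < c / Real.pi := by positivity
  have hs : 0 < √(c / Real.pi) := Real.sqrt_pos.2 hcp
  have h := gauss_summable (Matrix.diagonal (fun _ : Fin (d + 1) => √(c / Real.pi)) * g) (by
    rw [Matrix.det_mul, Matrix.det_diagonal]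
    refine mul_ne_zero ?_ hg
    rw [Finset.prod_const]
    exact pow_ne_zero _ hs.ne')
  refine h.congr (fun m => ?_)
  congr 2
  rw [Finset.mul_sum, Finset.mul_sum]
  refine Finset.sum_congr rfl (fun i _ => ?_)
  rw [dg_gv, mul_pow, Real.sq_sqrt hcp.le]
  field_simp

theorem pois_gauss2 {n : ℕ} (g : Matrix (Fin (n + 1 + 1)) (Fin (n + 1 + 1)) ℝ) (hg : g.det ≠ 0)
    {s t : ℝ} (hs : 0 < s) (ht : 0 < t) :
    ∑' m : Fin (n + 1 + 1) → ℤ, Real.exp (-(Real.pi * s * gv g m 0 ^ 2)) *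
        Real.exp (-(Real.pi * t * gv g m 1 ^ 2)) *
        Real.exp (-(Real.pi * ∑ i : Fin n, gv g m i.succ.succ ^ 2)) =
      |g.det|⁻¹ * ∑' m : Fin (n + 1 + 1) → ℤ,
        ((√s)⁻¹ * Real.exp (-(Real.pi * gv (g⁻¹).transpose m 0 ^ 2 / s))) *
        ((√t)⁻¹ * Real.exp (-(Real.pi * gv (g⁻¹).transpose m 1 ^ 2 / t))) *
        Real.exp (-(Real.pi * ∑ i : Fin n, gv (g⁻¹).transpose m i.succ.succ ^ 2)) := by
  have hs' : 0 < √s := Real.sqrt_pos.2 hs
  have ht' : 0 < √t := Real.sqrt_pos.2 ht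
  set D : Fin (n + 1 + 1) → ℝ := Fin.cons (√s) (Fin.cons (√t) fun _ => 1) with hD
  have hD0 : D 0 = √s := rfl
  have hD1 : D (Fin.succ 0) = √t := rfl
  have hD2 : ∀ i : Fin n, D i.succ.succ = 1 := fun i => rfl
  have hDne : ∀ i, D i ≠ 0 := by
    intro i
    refine Fin.cases ?_ (fun i => ?_) i
    · rw [hD0]; exact hs'.ne'
    · refine Fin.cases ?_ (fun i => ?_) i
      · rw [hD1]; exact ht'.ne'
      · rw [hD2]; exact one_ne_zero
  have hdet : (Matrix.diagonal D * g).det = √s * √t * g.det := by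
    rw [Matrix.det_mul, Matrix.det_diagonal, Fin.prod_univ_succ, Fin.prod_univ_succ, hD0, hD1]
    simp [hD2]
  have h := poisson_gauss (Matrix.diagonal D * g) (by
    rw [hdet]
    exact mul_ne_zero (mul_ne_zero hs'.ne' ht'.ne') hg)
  have hL : ∀ m : Fin (n + 1 + 1) → ℤ,
      Real.exp (-(Real.pi * ∑ i, gv (Matrix.diagonal D * g) m i ^ 2)) =
      Real.exp (-(Real.pi * s * gv g m 0 ^ 2)) * Real.exp (-(Real.pi * t * gv g m 1 ^ 2)) *
        Real.exp (-(Real.pi * ∑ i : Fin n, gv g m i.succ.succ ^ 2)) := by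
    intro m
    rw [← Real.exp_add, ← Real.exp_add, Fin.sum_univ_succ, Fin.sum_univ_succ, dg_gv, dg_gv, hD0,
      hD1, mul_pow, mul_pow, Real.sq_sqrt hs.le, Real.sq_sqrt ht.le]
    have : ∀ i : Fin n, gv (Matrix.diagonal D * g) m i.succ.succ ^ 2 = gv g m i.succ.succ ^ 2 := by
      intro i
      rw [dg_gv, hD2, one_mul]
    simp only [this]
    congr 1
    have h01 : (1 : Fin (n + 1 + 1)) = Fin.succ 0 := rfl
    rw [h01]
    ring
  have hR : ∀ m : Fin (n + 1 + 1) → ℤ,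
      Real.exp (-(Real.pi * ∑ i, gv ((Matrix.diagonal D * g)⁻¹).transpose m i ^ 2)) =
      Real.exp (-(Real.pi * gv (g⁻¹).transpose m 0 ^ 2 / s)) *
      Real.exp (-(Real.pi * gv (g⁻¹).transpose m 1 ^ 2 / t)) *
        Real.exp (-(Real.pi * ∑ i : Fin n, gv (g⁻¹).transpose m i.succ.succ ^ 2)) := by
    intro m
    rw [← Real.exp_add, ← Real.exp_add, Fin.sum_univ_succ, Fin.sum_univ_succ,
      dg_inv_gv g hg D hDne, dg_inv_gv g hg D hDne, hD0,
      hD1, mul_pow, mul_pow, inv_pow, inv_pow, Real.sq_sqrt hs.le, Real.sq_sqrt ht.le]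
    have : ∀ i : Fin n, gv ((Matrix.diagonal D * g)⁻¹).transpose m i.succ.succ ^ 2 =
        gv (g⁻¹).transpose m i.succ.succ ^ 2 := by
      intro i
      rw [dg_inv_gv g hg D hDne, hD2, inv_one, one_mul]
    simp only [this]
    congr 1
    have h01 : (1 : Fin (n + 1 + 1)) = Fin.succ 0 := rfl
    rw [h01]
    field_simp
    ring
  simp only [hL, hR] at h
  rw [h, hdet, abs_mul, abs_of_pos (mul_pos hs' ht'), mul_inv]
  have hT : ∀ m : Fin (n + 1 + 1) → ℤ,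
      ((√s)⁻¹ * Real.exp (-(Real.pi * gv (g⁻¹).transpose m 0 ^ 2 / s))) *
        ((√t)⁻¹ * Real.exp (-(Real.pi * gv (g⁻¹).transpose m 1 ^ 2 / t))) *
        Real.exp (-(Real.pi * ∑ i : Fin n, gv (g⁻¹).transpose m i.succ.succ ^ 2)) =
      (√s * √t)⁻¹ * (Real.exp (-(Real.pi * gv (g⁻¹).transpose m 0 ^ 2 / s)) *
      Real.exp (-(Real.pi * gv (g⁻¹).transpose m 1 ^ 2 / t)) *
        Real.exp (-(Real.pi * ∑ i : Fin n, gv (g⁻¹).transpose m i.succ.succ ^ 2))) := by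
    intro m
    rw [mul_inv]
    ring
  simp only [hT]
  rw [tsum_mul_left]
  ring

end H49.SG
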