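import Pool.Agent.H49.SG.PoisD
import Pool.Agent.H49.SG.PoisG

/-!
# Module POISAB: Poisson summation for monomials times a Gaussian

Write `R m = exp (-(π ∑ z_i²))` for the factor of the last coordinates.  `pois_sum`, `pois_sum'`: by
`ga_le` (`Hd_le`) with `s0 = s` (`t`) every term is at most
`C C' exp (-(c ∑_i gv g m i²))`, `c = π min (s/4, t/4, 1)` (resp. `1/(4s)`, `1/(4t)`), summable by `gauss_sum`
(for the dual: `det (g⁻¹)ᵀ ≠ 0`).
`pois_ab`: induction.  `a = b = 0`: `pois_gauss2` (`ga 0 s x = exp (-(π s x²))`,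
`Hd 0 s x = (√s)⁻¹ exp (-(π x²/s))` since `Lag 0 X = 1`).  Step `a → a + 1` (`b` and `t` fixed):
`deriv_identity` with `f m s = ga a s x * ga b t y * R m`, `f' m s = -ga (a+1) s x * ga b t y * R m`, and
similarly for the dual side; the bounds for `s0/2 < s < 2 s0` come from `ga_le (a+1)`, `Hd_le (a+1)` and
`gauss_sum`.  Cancel the signs.  Step `b → b + 1`: the same in `t`.
-/

namespace H49.SG

open MeasureTheory H81.LP

/-- the term -/
noncomputable def tm {n : ℕ} (a b : ℕ) (s t : ℝ) (v : Fin (n + 1 + 1) → ℝ) : ℝ :=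
  ga a s (v 0) * ga b t (v 1) * Real.exp (-(Real.pi * ∑ i : Fin n, v i.succ.succ ^ 2))

/-- the dual term -/
noncomputable def tm' {n : ℕ} (a b : ℕ) (s t : ℝ) (v : Fin (n + 1 + 1) → ℝ) : ℝ :=
  Hd a s (v 0) * Hd b t (v 1) * Real.exp (-(Real.pi * ∑ i : Fin n, v i.succ.succ ^ 2))

/-- a product of three Gaussian bounds is a Gaussian bound -/
theorem gbd {n : ℕ} {A B : ℝ → ℝ} {C C' α β : ℝ} (hC : 0 ≤ C)
    (hA : ∀ x, |A x| ≤ C * Real.exp (-(Real.pi * α * x ^ 2)))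
    (hB : ∀ x, |B x| ≤ C' * Real.exp (-(Real.pi * β * x ^ 2))) (v : Fin (n + 1 + 1) → ℝ) :
    |A (v 0) * B (v 1) * Real.exp (-(Real.pi * ∑ i : Fin n, v i.succ.succ ^ 2))| ≤
      C * C' * Real.exp (-(Real.pi * min α (min β 1) * ∑ i, v i ^ 2)) := by
  have h1 : |A (v 0) * B (v 1) * Real.exp (-(Real.pi * ∑ i : Fin n, v i.succ.succ ^ 2))| ≤
      (C * Real.exp (-(Real.pi * α * v 0 ^ 2))) * (C' * Real.exp (-(Real.pi * β * v 1 ^ 2))) *
        Real.exp (-(Real.pi * ∑ i : Fin n, v i.succ.succ ^ 2)) := by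
    rw [abs_mul, abs_mul, abs_of_pos (Real.exp_pos _)]
    refine mul_le_mul_of_nonneg_right ?_ (Real.exp_pos _).le
    exact mul_le_mul (hA _) (hB _) (abs_nonneg _) (mul_nonneg hC (Real.exp_pos _).le)
  have hC' : 0 ≤ C' := by
    have h2 := (abs_nonneg _).trans (hB 0)
    exact nonneg_of_mul_nonneg_left h2 (Real.exp_pos _)
  refine h1.trans ?_
  have h2 : (C * Real.exp (-(Real.pi * α * v 0 ^ 2))) * (C' * Real.exp (-(Real.pi * β * v 1 ^ 2))) *
        Real.exp (-(Real.pi * ∑ i : Fin n, v i.succ.succ ^ 2)) =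
      C * C' * Real.exp (-(Real.pi * α * v 0 ^ 2) + -(Real.pi * β * v 1 ^ 2) +
        -(Real.pi * ∑ i : Fin n, v i.succ.succ ^ 2)) := by
    rw [Real.exp_add, Real.exp_add]
    ring
  rw [h2]
  refine mul_le_mul_of_nonneg_left (Real.exp_le_exp.2 ?_) (mul_nonneg hC hC')
  rw [Fin.sum_univ_succ, Fin.sum_univ_succ]
  have h3 : v (Fin.succ 0) = v 1 := rfl
  rw [h3]
  set μ : ℝ := min α (min β 1) with hμ
  have hμ1 : μ ≤ α := min_le_left _ _
  have hμ2 : μ ≤ β := (min_le_right _ _).trans (min_le_left _ _)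
  have hμ3 : μ ≤ 1 := (min_le_right _ _).trans (min_le_right _ _)
  have h4 : 0 ≤ ∑ i : Fin n, v i.succ.succ ^ 2 := Finset.sum_nonneg fun i _ => sq_nonneg _
  have e1 : Real.pi * μ * v 0 ^ 2 ≤ Real.pi * α * v 0 ^ 2 := by gcongr
  have e2 : Real.pi * μ * v 1 ^ 2 ≤ Real.pi * β * v 1 ^ 2 := by gcongr
  have e3 : Real.pi * μ * ∑ i : Fin n, v i.succ.succ ^ 2 ≤
      Real.pi * 1 * ∑ i : Fin n, v i.succ.succ ^ 2 := by gcongr
  linarith

theorem gbd_sum {n : ℕ} (g : Matrix (Fin (n + 1 + 1)) (Fin (n + 1 + 1)) ℝ) (hg : g.det ≠ 0)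
    {α β : ℝ} (D : ℝ) (hα : 0 < α) (hβ : 0 < β) :
    Summable (fun m : Fin (n + 1 + 1) → ℤ =>
      D * Real.exp (-(Real.pi * min α (min β 1) * ∑ i, gv g m i ^ 2))) :=
  (gauss_sum g hg (by
    have : 0 < min α (min β 1) := lt_min hα (lt_min hβ one_pos)
    positivity)).mul_left D

theorem det_inv_ne {n : ℕ} {g : Matrix (Fin (n + 1 + 1)) (Fin (n + 1 + 1)) ℝ} (hg : g.det ≠ 0) :
    ((g⁻¹).transpose).det ≠ 0 := by
  rw [Matrix.det_transpose, Matrix.det_nonsing_inv]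
  simpa using hg

theorem pois_sum {n : ℕ} (g : Matrix (Fin (n + 1 + 1)) (Fin (n + 1 + 1)) ℝ) (hg : g.det ≠ 0)
    (a b : ℕ) {s t : ℝ} (hs : 0 < s) (ht : 0 < t) :
    Summable (fun m : Fin (n + 1 + 1) → ℤ => tm a b s t (gv g m)) := by
  obtain ⟨C, hC, hCb⟩ := ga_le a hs
  obtain ⟨C', hC', hCb'⟩ := ga_le b ht
  refine Summable.of_norm_bounded (gbd_sum g hg (α := s / 4) (β := t / 4) (C * C')
    (by positivity) (by positivity)) fun m => ?_
  rw [Real.norm_eq_abs]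
  exact gbd hC (fun x => hCb s x (by linarith)) (fun x => hCb' t x (by linarith)) (gv g m)

theorem pois_sum' {n : ℕ} (g : Matrix (Fin (n + 1 + 1)) (Fin (n + 1 + 1)) ℝ) (hg : g.det ≠ 0)
    (a b : ℕ) {s t : ℝ} (hs : 0 < s) (ht : 0 < t) :
    Summable (fun m : Fin (n + 1 + 1) → ℤ => tm' a b s t (gv g m)) := by
  obtain ⟨C, hC, hCb⟩ := Hd_le a hs
  obtain ⟨C', hC', hCb'⟩ := Hd_le b ht
  refine Summable.of_norm_bounded (gbd_sum g hg (α := 1 / (4 * s)) (β := 1 / (4 * t)) (C * C')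
    (by positivity) (by positivity)) fun m => ?_
  rw [Real.norm_eq_abs]
  exact gbd hC (fun x => hCb s x (by linarith) (by linarith))
    (fun x => hCb' t x (by linarith) (by linarith)) (gv g m)

theorem pois_ab {n : ℕ} (g : Matrix (Fin (n + 1 + 1)) (Fin (n + 1 + 1)) ℝ) (hg : g.det ≠ 0)
    (a b : ℕ) {s t : ℝ} (hs : 0 < s) (ht : 0 < t) :
    ∑' m : Fin (n + 1 + 1) → ℤ, tm a b s t (gv g m) =
      |g.det|⁻¹ * ∑' m : Fin (n + 1 + 1) → ℤ, tm' a b s t (gv (g⁻¹).transpose m) := by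
  have hg' := det_inv_ne hg
  have step1 : ∀ a b : ℕ, (∀ s t : ℝ, 0 < s → 0 < t →
      ∑' m : Fin (n + 1 + 1) → ℤ, tm a b s t (gv g m) =
        |g.det|⁻¹ * ∑' m : Fin (n + 1 + 1) → ℤ, tm' a b s t (gv (g⁻¹).transpose m)) →
      ∀ s t : ℝ, 0 < s → 0 < t → ∑' m : Fin (n + 1 + 1) → ℤ, tm (a + 1) b s t (gv g m) =
        |g.det|⁻¹ * ∑' m : Fin (n + 1 + 1) → ℤ, tm' (a + 1) b s t (gv (g⁻¹).transpose m) := by
    intro a b h s t hs ht
    have h1 := deriv_identity (ι := Fin (n + 1 + 1) → ℤ)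
      (fun m s => tm a b s t (gv g m)) (fun m s => -tm (a + 1) b s t (gv g m))
      (fun m s => tm' a b s t (gv (g⁻¹).transpose m))
      (fun m s => -tm' (a + 1) b s t (gv (g⁻¹).transpose m)) |g.det|⁻¹ ?_ ?_ ?_ ?_ ?_ ?_
      (fun s hs => h s t hs ht) s hs
    · rw [tsum_neg, tsum_neg, mul_neg, neg_inj] at h1
      exact h1
    · intro m s hs
      have h2 := ((ga_deriv a (gv g m 0) s).mul_const (ga b t (gv g m 1))).mul_const
        (Real.exp (-(Real.pi * ∑ i : Fin n, gv g m i.succ.succ ^ 2)))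
      refine h2.congr_deriv ?_
      unfold tm
      ring
    · intro m s hs
      have h2 := ((Hd_deriv a (gv (g⁻¹).transpose m 0) hs).mul_const
        (Hd b t (gv (g⁻¹).transpose m 1))).mul_const
        (Real.exp (-(Real.pi * ∑ i : Fin n, gv (g⁻¹).transpose m i.succ.succ ^ 2)))
      refine h2.congr_deriv ?_
      unfold tm'
      ring
    · intro s0 hs0
      obtain ⟨C, hC, hCb⟩ := ga_le (a + 1) hs0
      obtain ⟨C', hC', hCb'⟩ := ga_le b ht
      refine ⟨_, gbd_sum g hg (α := s0 / 4) (β := t / 4) (C * C')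
        (by positivity) (by positivity), fun m s hs1 hs2 => ?_⟩
      rw [abs_neg]
      exact gbd hC (fun x => hCb s x hs1) (fun x => hCb' t x (by linarith)) (gv g m)
    · intro s0 hs0
      obtain ⟨C, hC, hCb⟩ := Hd_le (a + 1) hs0
      obtain ⟨C', hC', hCb'⟩ := Hd_le b ht
      refine ⟨_, gbd_sum (g⁻¹).transpose hg' (α := 1 / (4 * s0)) (β := 1 / (4 * t)) (C * C')
        (by positivity) (by positivity), fun m s hs1 hs2 => ?_⟩
      rw [abs_neg]
      exact gbd hC (fun x => hCb s x hs1 hs2) (fun x => hCb' t x (by linarith) (by linarith))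
        (gv (g⁻¹).transpose m)
    · exact fun s hs => pois_sum g hg a b hs ht
    · exact fun s hs => pois_sum' (g⁻¹).transpose hg' a b hs ht
  have step2 : ∀ a b : ℕ, (∀ s t : ℝ, 0 < s → 0 < t →
      ∑' m : Fin (n + 1 + 1) → ℤ, tm a b s t (gv g m) =
        |g.det|⁻¹ * ∑' m : Fin (n + 1 + 1) → ℤ, tm' a b s t (gv (g⁻¹).transpose m)) →
      ∀ s t : ℝ, 0 < s → 0 < t → ∑' m : Fin (n + 1 + 1) → ℤ, tm a (b + 1) s t (gv g m) =
        |g.det|⁻¹ * ∑' m : Fin (n + 1 + 1) → ℤ, tm' a (b + 1) s t (gv (g⁻¹).transpose m) := by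
    intro a b h s t hs ht
    have h1 := deriv_identity (ι := Fin (n + 1 + 1) → ℤ)
      (fun m t => tm a b s t (gv g m)) (fun m t => -tm a (b + 1) s t (gv g m))
      (fun m t => tm' a b s t (gv (g⁻¹).transpose m))
      (fun m t => -tm' a (b + 1) s t (gv (g⁻¹).transpose m)) |g.det|⁻¹ ?_ ?_ ?_ ?_ ?_ ?_
      (fun t ht => h s t hs ht) t ht
    · rw [tsum_neg, tsum_neg, mul_neg, neg_inj] at h1
      exact h1
    · intro m t ht
      have h2 := ((ga_deriv b (gv g m 1) t).const_mul (ga a s (gv g m 0))).mul_const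
        (Real.exp (-(Real.pi * ∑ i : Fin n, gv g m i.succ.succ ^ 2)))
      refine h2.congr_deriv ?_
      unfold tm
      ring
    · intro m t ht
      have h2 := ((Hd_deriv b (gv (g⁻¹).transpose m 1) ht).const_mul
        (Hd a s (gv (g⁻¹).transpose m 0))).mul_const
        (Real.exp (-(Real.pi * ∑ i : Fin n, gv (g⁻¹).transpose m i.succ.succ ^ 2)))
      refine h2.congr_deriv ?_
      unfold tm'
      ring
    · intro t0 ht0
      obtain ⟨C, hC, hCb⟩ := ga_le a hs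
      obtain ⟨C', hC', hCb'⟩ := ga_le (b + 1) ht0
      refine ⟨_, gbd_sum g hg (α := s / 4) (β := t0 / 4) (C * C')
        (by positivity) (by positivity), fun m t ht1 ht2 => ?_⟩
      rw [abs_neg]
      exact gbd hC (fun x => hCb s x (by linarith)) (fun x => hCb' t x ht1) (gv g m)
    · intro t0 ht0
      obtain ⟨C, hC, hCb⟩ := Hd_le a hs
      obtain ⟨C', hC', hCb'⟩ := Hd_le (b + 1) ht0
      refine ⟨_, gbd_sum (g⁻¹).transpose hg' (α := 1 / (4 * s)) (β := 1 / (4 * t0)) (C * C')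
        (by positivity) (by positivity), fun m t ht1 ht2 => ?_⟩
      rw [abs_neg]
      exact gbd hC (fun x => hCb s x (by linarith) (by linarith)) (fun x => hCb' t x ht1 ht2)
        (gv (g⁻¹).transpose m)
    · exact fun t ht => pois_sum g hg a b hs ht
    · exact fun t ht => pois_sum' (g⁻¹).transpose hg' a b hs ht
  have base : ∀ s t : ℝ, 0 < s → 0 < t →
      ∑' m : Fin (n + 1 + 1) → ℤ, tm 0 0 s t (gv g m) =
        |g.det|⁻¹ * ∑' m : Fin (n + 1 + 1) → ℤ, tm' 0 0 s t (gv (g⁻¹).transpose m) := by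
    intro s t hs ht
    have h1 := pois_gauss2 g hg hs ht
    have e1 : ∀ s x : ℝ, ga 0 s x = Real.exp (-(Real.pi * s * x ^ 2)) := by
      intro s x
      unfold ga
      rw [pow_zero, one_mul]
    have e2 : ∀ s x : ℝ, Hd 0 s x = (√s)⁻¹ * Real.exp (-(Real.pi * x ^ 2 / s)) := by
      intro s x
      unfold Hd Lag
      simp [lc]
    unfold tm tm'
    simp only [e1, e2]
    exact h1
  have all : ∀ a b : ℕ, ∀ s t : ℝ, 0 < s → 0 < t →
      ∑' m : Fin (n + 1 + 1) → ℤ, tm a b s t (gv g m) =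
        |g.det|⁻¹ * ∑' m : Fin (n + 1 + 1) → ℤ, tm' a b s t (gv (g⁻¹).transpose m) := by
    intro a b
    induction b with
    | zero =>
      induction a with
      | zero => exact base
      | succ a ih => exact step1 a 0 ih
    | succ b ih => exact step2 a b ih
  exact all a b s t hs ht

end H49.SG
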