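import Pool.Agent.H49.SG.Defs

/-!
# Module POISD: derivatives in the parameter, termwise differentiation

`ga a s x = (π x²)^a exp (-(π s x²))`, `Hd a s x = (√s)⁻¹ (s⁻¹)^a Lag a (π x²/s) exp (-(π x²/s))`,
`Lag a X = ∑_{i ≤ a} (-1)^i (lc a i) X^i`.

* `ga_deriv`: direct.
* `Hd_deriv`: with `X = π x²/s`, `dX/ds = -X/s`, and
  `-d/ds [(√s)⁻¹ s^(-a) X^i exp (-X)] = (√s)⁻¹ s^(-(a+1)) ((a + i + 1/2) X^i - X^(i+1)) exp (-X)`.  The
  recursion of `lc` (with `lc a i = 0` for `i > a`, `lc_zero`) gives `Lag (a+1) X`: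
  coefficient of `X^i`: `(-1)^i ((a + i + 1/2) lc a i + lc a (i-1))`.
* `ga_le`, `Hd_le`: for `s0/2 < s < 2 s0`: `(π x²)^a exp (-(π s x²)) ≤ (π x²)^a exp (-(π (s0/2) x²))`,
  which is at most `C exp (-(π (s0/4) x²))` because `y^a exp (-c y)` is bounded for `y ≥ 0`, `c > 0`.
  Likewise for `Hd`, with `1/s > 1/(2 s0)`, `X = π x²/s`, `|Lag a X| exp (-X/2) ≤ C`,
  `exp (-X/2) ≤ exp (-(π x²/(4 s0)))`, `(√s)⁻¹ (s⁻¹)^a ≤ (√(s0/2))⁻¹ ((s0/2)⁻¹)^a`.
* `deriv_identity`: `hasDerivAt_tsum_of_isPreconnected` on the interval `(s0/2, 2 s0)` for both sides,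
  and uniqueness of derivatives (the two functions agree on a neighbourhood).
-/

namespace H49.SG

/-- one factor of the term -/
noncomputable def ga (a : ℕ) (s x : ℝ) : ℝ := (Real.pi * x ^ 2) ^ a * Real.exp (-(Real.pi * s * x ^ 2))

/-- Laguerre polynomials -/
noncomputable def Lag (a : ℕ) (X : ℝ) : ℝ :=
  ∑ i ∈ Finset.range (a + 1), (-1) ^ i * (lc a i : ℝ) * X ^ i

/-- one factor of the dual term -/
noncomputable def Hd (a : ℕ) (s x : ℝ) : ℝ :=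
  (√s)⁻¹ * (s⁻¹) ^ a * Lag a (Real.pi * x ^ 2 / s) * Real.exp (-(Real.pi * x ^ 2 / s))

theorem lc_succ_zero (a : ℕ) : lc (a + 1) 0 = (a + 1 / 2) * lc a 0 := by
  simp only [lc]

theorem lc_succ_succ (a i : ℕ) :
    lc (a + 1) (i + 1) = lc a i + (a + (i + 1) + 1 / 2) * lc a (i + 1) := by
  simp only [lc]

/-- powers are dominated by exponentials -/
theorem pow_le_exp (k : ℕ) {c y : ℝ} (hc : 0 < c) (hy : 0 ≤ y) :
    y ^ k ≤ (k.factorial / c ^ k) * Real.exp (c * y) := by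
  have h1 := Real.pow_div_factorial_le_exp (c * y) (mul_nonneg hc.le hy) k
  rw [div_le_iff₀ (by positivity), mul_pow] at h1
  rw [div_mul_eq_mul_div, le_div_iff₀ (by positivity)]
  linarith

/-- the building block of `Hd` -/
noncomputable def Pk (k : ℕ) (c s : ℝ) : ℝ := (√s)⁻¹ * (s⁻¹) ^ k * Real.exp (-(c / s))

theorem Pk_deriv (k : ℕ) (c : ℝ) {s : ℝ} (hs : 0 < s) :
    HasDerivAt (fun s => Pk k c s) (-((k + 1 / 2) * Pk (k + 1) c s - c * Pk (k + 2) c s)) s := by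
  have hq : 0 < √s := Real.sqrt_pos.2 hs
  have h1 : HasDerivAt (fun s => (√s)⁻¹) (-(1 / (2 * √s)) / (√s) ^ 2) s :=
    (Real.hasDerivAt_sqrt hs.ne').inv hq.ne'
  have h2 : HasDerivAt (fun s : ℝ => (s⁻¹) ^ k) ((k : ℝ) * (s⁻¹) ^ (k - 1) * (-(s ^ 2)⁻¹)) s :=
    (hasDerivAt_inv hs.ne').pow k
  have h3 : HasDerivAt (fun s : ℝ => Real.exp (-(c / s)))
      (Real.exp (-(c / s)) * (-(c * (-(s ^ 2)⁻¹)))) s := by
    have h4 : HasDerivAt (fun s : ℝ => -(c / s)) (-(c * (-(s ^ 2)⁻¹))) s := by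
      have h5 := ((hasDerivAt_inv hs.ne').const_mul c).neg
      exact h5
    exact h4.exp
  have h4 := (h1.mul h2).mul h3
  refine h4.congr_deriv ?_
  unfold Pk
  rw [Real.sq_sqrt hs.le]
  simp only [Pi.mul_apply]
  have h5 : (k : ℝ) * (s⁻¹) ^ (k - 1) * (-(s ^ 2)⁻¹) = -(k * (s⁻¹) ^ (k + 1)) := by
    rcases Nat.eq_zero_or_pos k with rfl | hk
    · simp
    · have h6 : (s⁻¹) ^ (k + 1) = (s⁻¹) ^ (k - 1) * (s ^ 2)⁻¹ := by
        rw [← inv_pow, ← pow_add]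
        congr 1
        omega
      rw [h6]
      ring
  rw [h5]
  have h6 : (s ^ 2)⁻¹ = s⁻¹ ^ 2 := by rw [inv_pow]
  have h7 : -(1 / (2 * √s)) / s = -(1 / 2) * ((√s)⁻¹ * s⁻¹) := by
    field_simp
  rw [h6, h7]
  ring

theorem Hd_eq_sum (a : ℕ) (s x : ℝ) : Hd a s x = ∑ i ∈ Finset.range (a + 1),
    ((-1) ^ i * (lc a i : ℝ) * (Real.pi * x ^ 2) ^ i) * Pk (a + i) (Real.pi * x ^ 2) s := by
  unfold Hd Lag Pk
  rw [Finset.mul_sum, Finset.sum_mul]
  refine Finset.sum_congr rfl fun i _ => ?_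
  rw [pow_add, div_pow, inv_pow s i]
  ring

theorem lc_zero {a i : ℕ} (h : a < i) : lc a i = 0 := by
  induction a generalizing i with
  | zero =>
    obtain ⟨j, rfl⟩ : ∃ j, i = j + 1 := ⟨i - 1, by omega⟩
    simp only [lc]
  | succ a ih =>
    obtain ⟨j, rfl⟩ : ∃ j, i = j + 1 := ⟨i - 1, by omega⟩
    rw [lc_succ_succ, ih (by omega), ih (by omega), mul_zero, add_zero]

theorem ga_deriv (a : ℕ) (x s : ℝ) : HasDerivAt (fun s => ga a s x) (-ga (a + 1) s x) s := by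
  unfold ga
  have h1 : HasDerivAt (fun s : ℝ => -(Real.pi * s * x ^ 2)) (-(Real.pi * 1 * x ^ 2)) s :=
    (((hasDerivAt_id s).const_mul Real.pi).mul_const (x ^ 2)).neg
  have h2 := (h1.exp).const_mul ((Real.pi * x ^ 2) ^ a)
  refine h2.congr_deriv ?_
  rw [pow_succ]
  ring

theorem Hd_deriv (a : ℕ) (x : ℝ) {s : ℝ} (hs : 0 < s) :
    HasDerivAt (fun s => Hd a s x) (-Hd (a + 1) s x) s := by
  have h0 : (fun s => Hd a s x) = fun s => ∑ i ∈ Finset.range (a + 1),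
      ((-1) ^ i * (lc a i : ℝ) * (Real.pi * x ^ 2) ^ i) * Pk (a + i) (Real.pi * x ^ 2) s := by
    funext s
    exact Hd_eq_sum a s x
  rw [h0]
  set c : ℝ := Real.pi * x ^ 2 with hc
  have h1 : HasDerivAt (fun s => ∑ i ∈ Finset.range (a + 1),
      ((-1) ^ i * (lc a i : ℝ) * c ^ i) * Pk (a + i) c s)
      (∑ i ∈ Finset.range (a + 1), ((-1) ^ i * (lc a i : ℝ) * c ^ i) *
        (-(((a + i : ℕ) + 1 / 2) * Pk (a + i + 1) c s - c * Pk (a + i + 2) c s))) s :=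
    HasDerivAt.fun_sum fun i _ => (Pk_deriv (a + i) c hs).const_mul _
  refine h1.congr_deriv ?_
  rw [Hd_eq_sum (a + 1) s x, ← hc, Finset.sum_range_succ' (fun i : ℕ =>
    ((-1) ^ i * (lc (a + 1) i : ℝ) * c ^ i) * Pk (a + 1 + i) c s) (a + 1)]
  have h2 : ∀ i ∈ Finset.range (a + 1), ((-1) ^ (i + 1) * (lc (a + 1) (i + 1) : ℝ) * c ^ (i + 1)) *
      Pk (a + 1 + (i + 1)) c s =
      ((-1) ^ (i + 1) * (lc a i : ℝ) * c ^ (i + 1)) * Pk (a + i + 2) c s +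
      ((-1) ^ (i + 1) * ((a + (i + 1) + 1 / 2) * (lc a (i + 1) : ℝ)) * c ^ (i + 1)) *
        Pk (a + (i + 1) + 1) c s := by
    intro i _
    rw [lc_succ_succ]
    push_cast
    have h3 : a + 1 + (i + 1) = a + i + 2 := by ring
    have h4 : a + (i + 1) + 1 = a + i + 2 := by ring
    rw [h3, h4]
    ring
  rw [Finset.sum_congr rfl h2, Finset.sum_add_distrib]
  have h5 : (∑ i ∈ Finset.range (a + 1),
      ((-1) ^ (i + 1) * ((a + (i + 1) + 1 / 2) * (lc a (i + 1) : ℝ)) * c ^ (i + 1)) *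
        Pk (a + (i + 1) + 1) c s) +
      ((-1) ^ 0 * (lc (a + 1) 0 : ℝ) * c ^ 0) * Pk (a + 1 + 0) c s =
      ∑ i ∈ Finset.range (a + 1), ((-1) ^ i * ((a + i + 1 / 2) * (lc a i : ℝ)) * c ^ i) *
        Pk (a + i + 1) c s := by
    have h6 := Finset.sum_range_succ' (fun i : ℕ =>
      ((-1) ^ i * ((a + i + 1 / 2) * (lc a i : ℝ)) * c ^ i) * Pk (a + i + 1) c s) (a + 1)
    rw [Finset.sum_range_succ] at h6
    have h7 : lc a (a + 1) = 0 := lc_zero (Nat.lt_succ_self a)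
    rw [h7] at h6
    push_cast at h6
    rw [lc_succ_zero]
    push_cast
    simp only [mul_zero, zero_mul, add_zero] at h6 ⊢
    rw [h6]
  rw [add_assoc, h5, ← Finset.sum_add_distrib, ← Finset.sum_neg_distrib]
  refine Finset.sum_congr rfl fun i _ => ?_
  push_cast
  ring

theorem ga_le (a : ℕ) {s0 : ℝ} (h0 : 0 < s0) : ∃ C : ℝ, 0 ≤ C ∧ ∀ s x : ℝ, s0 / 2 < s →
    |ga a s x| ≤ C * Real.exp (-(Real.pi * (s0 / 4) * x ^ 2)) := by
  refine ⟨a.factorial / (s0 / 4) ^ a, by positivity, fun s x hs => ?_⟩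
  have hy : 0 ≤ Real.pi * x ^ 2 := by positivity
  unfold ga
  rw [abs_mul, abs_of_nonneg (pow_nonneg hy a), abs_of_pos (Real.exp_pos _)]
  have h1 := pow_le_exp a (c := s0 / 4) (by positivity) hy
  calc (Real.pi * x ^ 2) ^ a * Real.exp (-(Real.pi * s * x ^ 2))
      ≤ (a.factorial / (s0 / 4) ^ a * Real.exp (s0 / 4 * (Real.pi * x ^ 2))) *
        Real.exp (-(Real.pi * s * x ^ 2)) := mul_le_mul_of_nonneg_right h1 (Real.exp_pos _).le
    _ = a.factorial / (s0 / 4) ^ a *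
        Real.exp (s0 / 4 * (Real.pi * x ^ 2) + -(Real.pi * s * x ^ 2)) := by
        rw [mul_assoc, ← Real.exp_add]
    _ ≤ _ := by
        refine mul_le_mul_of_nonneg_left (Real.exp_le_exp.2 ?_) (by positivity)
        have h2 := mul_le_mul_of_nonneg_right hs.le hy
        linarith

theorem Hd_le (a : ℕ) {s0 : ℝ} (h0 : 0 < s0) : ∃ C : ℝ, 0 ≤ C ∧ ∀ s x : ℝ, s0 / 2 < s → s < 2 * s0 →
    |Hd a s x| ≤ C * Real.exp (-(Real.pi * (1 / (4 * s0)) * x ^ 2)) := by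
  refine ⟨(√(s0 / 2))⁻¹ * ((s0 / 2)⁻¹) ^ a * ∑ i ∈ Finset.range (a + 1),
    |(lc a i : ℝ)| * (i.factorial / (1 / 2) ^ i), by positivity, fun s x hs hs' => ?_⟩
  have hs0 : 0 < s := by linarith
  have hy : 0 ≤ Real.pi * x ^ 2 := by positivity
  set X : ℝ := Real.pi * x ^ 2 / s with hX
  have hX0 : 0 ≤ X := by positivity
  have hL : |Lag a X| ≤ (∑ i ∈ Finset.range (a + 1),
      |(lc a i : ℝ)| * (i.factorial / (1 / 2) ^ i)) * Real.exp (1 / 2 * X) := by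
    unfold Lag
    refine (Finset.abs_sum_le_sum_abs _ _).trans ?_
    rw [Finset.sum_mul]
    refine Finset.sum_le_sum fun i _ => ?_
    rw [abs_mul, abs_mul, abs_pow, abs_neg, abs_one, one_pow, one_mul,
      abs_of_nonneg (pow_nonneg hX0 i), mul_assoc]
    exact mul_le_mul_of_nonneg_left (pow_le_exp i (c := 1 / 2) (by norm_num) hX0) (abs_nonneg _)
  have hsq : (√s)⁻¹ ≤ (√(s0 / 2))⁻¹ := by
    apply inv_anti₀ (Real.sqrt_pos.2 (by positivity))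
    exact Real.sqrt_le_sqrt hs.le
  have hin : (s⁻¹) ^ a ≤ ((s0 / 2)⁻¹) ^ a := by
    apply pow_le_pow_left₀ (by positivity)
    exact inv_anti₀ (by positivity) hs.le
  unfold Hd
  rw [← hX, abs_mul, abs_mul, abs_mul, abs_of_pos (Real.exp_pos _),
    abs_of_nonneg (by positivity : (0 : ℝ) ≤ (√s)⁻¹),
    abs_of_nonneg (by positivity : (0 : ℝ) ≤ (s⁻¹) ^ a)]
  have h1 : (√s)⁻¹ * (s⁻¹) ^ a * |Lag a X| ≤ (√(s0 / 2))⁻¹ * ((s0 / 2)⁻¹) ^ a *
      ((∑ i ∈ Finset.range (a + 1),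
      |(lc a i : ℝ)| * (i.factorial / (1 / 2) ^ i)) * Real.exp (1 / 2 * X)) :=
    mul_le_mul (mul_le_mul hsq hin (by positivity) (by positivity)) hL (abs_nonneg _)
      (by positivity)
  calc (√s)⁻¹ * (s⁻¹) ^ a * |Lag a X| * Real.exp (-X)
      ≤ (√(s0 / 2))⁻¹ * ((s0 / 2)⁻¹) ^ a * ((∑ i ∈ Finset.range (a + 1),
        |(lc a i : ℝ)| * (i.factorial / (1 / 2) ^ i)) * Real.exp (1 / 2 * X)) * Real.exp (-X) :=
        mul_le_mul_of_nonneg_right h1 (Real.exp_pos _).le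
    _ = (√(s0 / 2))⁻¹ * ((s0 / 2)⁻¹) ^ a * (∑ i ∈ Finset.range (a + 1),
        |(lc a i : ℝ)| * (i.factorial / (1 / 2) ^ i)) * Real.exp (1 / 2 * X + -X) := by
        rw [Real.exp_add]
        ring
    _ ≤ _ := by
        refine mul_le_mul_of_nonneg_left (Real.exp_le_exp.2 ?_) (by positivity)
        have h2 : Real.pi * x ^ 2 / (2 * s0) ≤ X := by
          rw [hX]
          exact div_le_div_of_nonneg_left hy hs0 hs'.le
        have h3 : Real.pi * (1 / (4 * s0)) * x ^ 2 = 1 / 2 * (Real.pi * x ^ 2 / (2 * s0)) := by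
          field_simp
          ring
        rw [h3]
        linarith

theorem deriv_identity {ι : Type} (f f' g g' : ι → ℝ → ℝ) (c : ℝ)
    (hf : ∀ i s, 0 < s → HasDerivAt (f i) (f' i s) s)
    (hg : ∀ i s, 0 < s → HasDerivAt (g i) (g' i s) s)
    (hfb : ∀ s0 : ℝ, 0 < s0 → ∃ U : ι → ℝ, Summable U ∧
      ∀ i s, s0 / 2 < s → s < 2 * s0 → |f' i s| ≤ U i)
    (hgb : ∀ s0 : ℝ, 0 < s0 → ∃ U : ι → ℝ, Summable U ∧
      ∀ i s, s0 / 2 < s → s < 2 * s0 → |g' i s| ≤ U i)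
    (hfs : ∀ s, 0 < s → Summable (fun i => f i s)) (hgs : ∀ s, 0 < s → Summable (fun i => g i s))
    (h : ∀ s, 0 < s → ∑' i, f i s = c * ∑' i, g i s) :
    ∀ s, 0 < s → ∑' i, f' i s = c * ∑' i, g' i s := by
  intro s hs
  obtain ⟨U, hU, hU'⟩ := hfb s hs
  obtain ⟨V, hV, hV'⟩ := hgb s hs
  have hmem : s ∈ Set.Ioo (s / 2) (2 * s) := ⟨by linarith, by linarith⟩
  have hpos : ∀ z ∈ Set.Ioo (s / 2) (2 * s), 0 < z := fun z hz => by
    have := hz.1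
    linarith
  have h1 : HasDerivAt (fun z => ∑' i, f i z) (∑' i, f' i s) s :=
    hasDerivAt_tsum_of_isPreconnected hU isOpen_Ioo isPreconnected_Ioo
      (fun i z hz => hf i z (hpos z hz)) (fun i z hz => hU' i z hz.1 hz.2) hmem (hfs s hs) hmem
  have h2 : HasDerivAt (fun z => ∑' i, g i z) (∑' i, g' i s) s :=
    hasDerivAt_tsum_of_isPreconnected hV isOpen_Ioo isPreconnected_Ioo
      (fun i z hz => hg i z (hpos z hz)) (fun i z hz => hV' i z hz.1 hz.2) hmem (hgs s hs) hmem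
  have h3 := h2.const_mul c
  have h4 : (fun z => ∑' i, f i z) =ᶠ[nhds s] fun z => c * ∑' i, g i z := by
    filter_upwards [Ioi_mem_nhds hs] with z hz
    exact h z hz
  exact (h1.congr_of_eventuallyEq h4.symm).unique h3

end H49.SG
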