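import Pool.Agent.H49.SG.CondUse
import Pool.Agent.H89.Kept.ShearPairs

/-!
# Module SHEARB: from the linear programming inequality to products of linear forms

Suppose `|F(x)| ≥ |det g| / B0` for all `x ≠ 0`.  `ShearPairs.result` (imported;
`Pool.Agent.Results.MP_edeaa2_an.ShearPairs.result (n + 2) (1 / B0)`), direction `→`, gives a matrix `g2`,
`det g2 ≠ 0`, and `k ≠ l` with
`|det g2| / B0 ≤ (∏_{i ≠ k} |l_i x|) min |l_k x| |l_k x + l_l x|` for all `x ≠ 0`.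
Take a permutation `σ` of `Fin (n+1+1)` with `σ 0 = k`, `σ 1 = l` (e.g. a product of two swaps) and `t > 0`
with `t^(n+2) |det g2| = B0` (`t = (B0/|det g2|)^(1/(n+2))`, see `bound_of_cond` in
`Pool/Agent/H81/LP/Main.lean`), `g3 = t • g2.submatrix σ id`.  Then `|det g3| = B0`
(`Matrix.det_permute`), `∏ gv g3 m i = t^(n+2) ∏ l_i m` up to order, so `hadm`:
`|∏| ≥ t^(n+2) |det g2|/B0 = 1`, and `hadm2`: `(gv g3 m 0 + gv g3 m 1) ∏ i, gv g3 m i.succ` is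
`t^(n+2) (l_k m + l_l m) ∏_{i ≠ k} l_i m`.  `cond_ineq` gives
`hat K h 0 0 (√π)^(n+2) ≤ B0 √(A B) h 0 0`, a contradiction to `hlt`.
-/

namespace H49.SG

open MeasureTheory H81.LP

private theorem sb_perm {d : ℕ} {k l a b : Fin d} (hkl : k ≠ l) (hab : a ≠ b) :
    ∃ σ : Equiv.Perm (Fin d), σ a = k ∧ σ b = l := by
  have h1 : Equiv.swap a k l ≠ a := by
    intro h
    have h2 : Equiv.swap a k (Equiv.swap a k l) = Equiv.swap a k a := by rw [h]
    rw [Equiv.swap_apply_self, Equiv.swap_apply_left] at h2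
    exact hkl h2.symm
  refine ⟨Equiv.swap a k * Equiv.swap b (Equiv.swap a k l), ?_, ?_⟩
  · rw [Equiv.Perm.mul_apply, Equiv.swap_apply_of_ne_of_ne hab h1.symm, Equiv.swap_apply_left]
  · rw [Equiv.Perm.mul_apply, Equiv.swap_apply_left, Equiv.swap_apply_self]

private theorem sb_prod {n : ℕ} (σ : Equiv.Perm (Fin (n + 1 + 1))) {k : Fin (n + 1 + 1)}
    (hk : σ 0 = k) (f : Fin (n + 1 + 1) → ℝ) :
    ∏ i : Fin (n + 1), f (σ i.succ) = ∏ i ∈ Finset.univ.erase k, f i := by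
  obtain ⟨F, hF⟩ : ∃ F : Fin (n + 1 + 1) → ℝ, ∀ i, F i = if i = k then 1 else f i :=
    ⟨_, fun _ => rfl⟩
  have h1 : ∏ i, F (σ i) = ∏ i, F i := Equiv.prod_comp σ F
  rw [Fin.prod_univ_succ, hk, ← Finset.mul_prod_erase Finset.univ F (Finset.mem_univ k)] at h1
  have h2 : F k = 1 := by rw [hF, if_pos rfl]
  rw [h2, one_mul, one_mul] at h1
  have h3 : ∏ i : Fin (n + 1), F (σ i.succ) = ∏ i : Fin (n + 1), f (σ i.succ) := by
    refine Finset.prod_congr rfl fun i _ => ?_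
    rw [hF, if_neg]
    intro h4
    rw [← hk] at h4
    exact Fin.succ_ne_zero _ (σ.injective h4)
  have h4 : ∏ i ∈ Finset.univ.erase k, F i = ∏ i ∈ Finset.univ.erase k, f i := by
    refine Finset.prod_congr rfl fun i hi => ?_
    rw [hF, if_neg (Finset.ne_of_mem_erase hi)]
  rw [← h3, h1, h4]

theorem nonint_bound {n K : ℕ} {h : ℕ → ℕ → ℚ} {A B : ℝ} (hc : CondB n K h A B) {B0 : ℝ}
    (hB0 : 0 < B0)
    (hlt : B0 * √(A * B) * (h 0 0 : ℝ) < (hat K h 0 0 : ℝ) * (√Real.pi) ^ (n + 2))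
    (g : Matrix (Fin (n + 2)) (Fin (n + 2)) ℝ) (hg : g.det ≠ 0)
    (hni : ¬ ∃ κ : ℝ, κ ≠ 0 ∧ ∀ m : Fin (n + 2) →₀ ℕ, ∃ z : ℤ,
      MvPolynomial.coeff m (κ • (∏ i : Fin (n + 2), ∑ j : Fin (n + 2),
        MvPolynomial.C (g i j) * MvPolynomial.X j : MvPolynomial (Fin (n + 2)) ℝ)) = (z : ℝ)) :
    ∃ x : Fin (n + 2) → ℤ, x ≠ 0 ∧
      |∏ i : Fin (n + 2), ∑ j : Fin (n + 2), g i j * (x j : ℝ)| < |g.det| / B0 := by
  by_contra hcon
  push Not at hcon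
  obtain ⟨g2, hg2, k, l, hkl, hmin⟩ :=
    (Pool.Agent.Results.MP_edeaa2_an.ShearPairs.result (n + 2) (1 / B0) (by positivity)).1
      ⟨g, hg, hni, fun x hx => by
        have := hcon x hx
        rw [one_div, inv_mul_eq_div]
        exact this⟩
  have h01 : (0 : Fin (n + 1 + 1)) ≠ 1 := by
    have h2 : (1 : Fin (n + 1 + 1)) = Fin.succ 0 := rfl
    rw [h2]
    exact (Fin.succ_ne_zero _).symm
  obtain ⟨σ, hσ0, hσ1⟩ := sb_perm hkl h01
  have hD : 0 < |g2.det| := abs_pos.2 hg2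
  obtain ⟨t, ht0, ht⟩ : ∃ t : ℝ, 0 < t ∧ t ^ (n + 2) * |g2.det| = B0 := by
    refine ⟨(B0 / |g2.det|) ^ (1 / ((n + 2 : ℕ) : ℝ)), by positivity, ?_⟩
    rw [← Real.rpow_natCast, ← Real.rpow_mul (by positivity), one_div,
      inv_mul_cancel₀ (by positivity), Real.rpow_one]
    field_simp
  obtain ⟨g3, hg3⟩ : ∃ g3 : Matrix (Fin (n + 1 + 1)) (Fin (n + 1 + 1)) ℝ,
      g3 = t • g2.submatrix σ id := ⟨_, rfl⟩
  have hdet : |g3.det| = B0 := by
    rw [hg3, Matrix.det_smul, Matrix.det_permute, Fintype.card_fin, abs_mul, abs_mul,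
      abs_of_pos (by positivity : 0 < t ^ (n + 1 + 1))]
    have h1 : |((Equiv.Perm.sign σ : ℤ) : ℝ)| = 1 := by
      rcases Int.units_eq_one_or (Equiv.Perm.sign σ) with h | h <;> rw [h] <;> simp
    rw [h1, one_mul]
    exact ht
  have hdet0 : g3.det ≠ 0 := by
    intro h0
    rw [h0, abs_zero] at hdet
    exact hB0.ne hdet
  obtain ⟨ℓ, hℓ⟩ : ∃ ℓ : (Fin (n + 1 + 1) → ℤ) → Fin (n + 1 + 1) → ℝ,
      ∀ m i, ℓ m i = ∑ j, g2 i j * (m j : ℝ) := ⟨_, fun _ _ => rfl⟩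
  have hgv : ∀ m i, gv g3 m i = t * ℓ m (σ i) := by
    intro m i
    rw [hℓ, hg3]
    unfold gv
    rw [Matrix.smul_mulVec, Pi.smul_apply, smul_eq_mul]
    rfl
  have hm2 : ∀ m : Fin (n + 1 + 1) → ℤ, m ≠ 0 → 1 / B0 * |g2.det| ≤
      (∏ i ∈ Finset.univ.erase k, |ℓ m i|) * min |ℓ m k| |ℓ m k + ℓ m l| := by
    intro m hm
    have := hmin m hm
    simp only [hℓ]
    exact this
  have hone : t ^ (n + 2) * (1 / B0 * |g2.det|) = 1 := by
    have h1 : t ^ (n + 2) * (1 / B0 * |g2.det|) = (t ^ (n + 2) * |g2.det|) / B0 := by ring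
    rw [h1, ht, div_self hB0.ne']
  have hP0 : ∀ m, 0 ≤ ∏ i ∈ Finset.univ.erase k, |ℓ m i| := fun m =>
    Finset.prod_nonneg fun i _ => abs_nonneg _
  have hprod : ∀ m, |∏ i : Fin (n + 1), gv g3 m i.succ| =
      t ^ (n + 1) * ∏ i ∈ Finset.univ.erase k, |ℓ m i| := by
    intro m
    rw [Finset.abs_prod, ← sb_prod σ hσ0 (fun i => |ℓ m i|)]
    have h1 : ∀ i : Fin (n + 1), |gv g3 m i.succ| = t * |ℓ m (σ i.succ)| := by
      intro i
      rw [hgv, abs_mul, abs_of_pos ht0]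
    simp only [h1]
    rw [Finset.prod_mul_distrib, Finset.prod_const, Finset.card_univ, Fintype.card_fin]
  have hadm : ∀ m : Fin (n + 1 + 1) → ℤ, m ≠ 0 → 1 ≤ |∏ i, gv g3 m i| := by
    intro m hm
    rw [Fin.prod_univ_succ, abs_mul, hprod, hgv, hσ0, abs_mul, abs_of_pos ht0]
    have h1 := (hm2 m hm).trans (mul_le_mul_of_nonneg_left (min_le_left _ _) (hP0 m))
    have h2 := mul_le_mul_of_nonneg_left h1 (by positivity : 0 ≤ t ^ (n + 2))
    rw [hone] at h2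
    refine h2.trans (le_of_eq ?_)
    ring
  have hadm2 : ∀ m : Fin (n + 1 + 1) → ℤ, m ≠ 0 →
      1 ≤ |(gv g3 m 0 + gv g3 m 1) * ∏ i : Fin (n + 1), gv g3 m i.succ| := by
    intro m hm
    rw [abs_mul, hprod, hgv, hgv, hσ0, hσ1, ← mul_add, abs_mul, abs_of_pos ht0]
    have h1 := (hm2 m hm).trans (mul_le_mul_of_nonneg_left (min_le_right _ _) (hP0 m))
    have h2 := mul_le_mul_of_nonneg_left h1 (by positivity : 0 ≤ t ^ (n + 2))
    rw [hone] at h2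
    refine h2.trans (le_of_eq ?_)
    ring
  have hfin := cond_ineq hc g3 hdet0 hadm hadm2
  rw [hdet] at hfin
  linarith

end H49.SG
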